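import Mathlib

/-!
Storage types, grammars over a storage type, and the pushdown operator on storage types
(after J. Engelfriet, Iterated stack automata and complexity classes, Inform. and Comput. 95
(1991)).
-/

set_option autoImplicit false

namespace Pool.Agent.Lib.LinSpace.Ho

/-! ### Storage types -/

/-- A storage type: configurations, finitely many instructions (partial maps on the
configurations), and a labelling of the configurations by finitely many labels. -/
structure Sto where
  /-- the configurations -/
  C : Type
  /-- the instructions -/
  I : Type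
  /-- the labels -/
  Λ : Type
  finI : Finite I
  finΛ : Finite Λ
  /-- execution of an instruction -/
  st : I → C → Option C
  /-- the label of a configuration -/
  lab : C → Λ

instance (S : Sto) : Finite S.I := S.finI
instance (S : Sto) : Finite S.Λ := S.finΛ

/-- Execution of an optional instruction (`none` does nothing). -/
def Sto.stO (S : Sto) : Option S.I → S.C → Option S.C
  | none, c => some c
  | some i, c => S.st i c

@[simp] theorem Sto.stO_none (S : Sto) (c : S.C) : S.stO none c = some c := rfl
@[simp] theorem Sto.stO_some (S : Sto) (i : S.I) (c : S.C) : S.stO (some i) c = S.st i c := rfl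

/-! ### Grammars over a storage type -/

/-- A grammar over the storage type `S` with terminal alphabet `T`; a nonterminal occurs together
with a configuration of `S`. -/
structure Gr (S : Sto) (T : Type) where
  /-- the nonterminals -/
  N : Type
  finN : Finite N
  /-- `A → ε` -/
  eps : N → S.Λ → Prop
  /-- `A → a` -/
  term : N → S.Λ → T → Prop
  /-- `A → B C`, both at the same configuration -/
  bin : N → S.Λ → N → N → Prop
  /-- `A → B`, after an instruction -/
  mv : N → S.Λ → Option S.I → N → Prop

instance {S : Sto} {T : Type} (G : Gr S T) : Finite G.N := G.finN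

/-- `G.Gen A c w`: the nonterminal `A` at the configuration `c` generates `w`. -/
inductive Gr.Gen {S : Sto} {T : Type} (G : Gr S T) : G.N → S.C → List T → Prop
  | eps {A : G.N} {c : S.C} : G.eps A (S.lab c) → Gen G A c []
  | term {A : G.N} {c : S.C} {a : T} : G.term A (S.lab c) a → Gen G A c [a]
  | bin {A B C : G.N} {c : S.C} {u v : List T} : G.bin A (S.lab c) B C → Gen G B c u →
      Gen G C c v → Gen G A c (u ++ v)
  | mv {A B : G.N} {c c' : S.C} {i : Option S.I} {w : List T} : G.mv A (S.lab c) i B →
      S.stO i c = some c' → Gen G B c' w → Gen G A c w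

/-- `G.D h A c o`: a derivation of height at most `h` leads from `A` at `c` to the empty word
(`o = none`) or to one nonterminal at one configuration (and nothing else). -/
inductive Gr.D {S : Sto} {T : Type} (G : Gr S T) : ℕ → G.N → S.C → Option (G.N × S.C) → Prop
  | refl {h : ℕ} {A : G.N} {c : S.C} : D G h A c (some (A, c))
  | eps {h : ℕ} {A : G.N} {c : S.C} : G.eps A (S.lab c) → D G h A c none
  | mv {h : ℕ} {A B : G.N} {c c' : S.C} {i : Option S.I} {o : Option (G.N × S.C)} :
      G.mv A (S.lab c) i B → S.stO i c = some c' → D G h B c' o → D G (h + 1) A c o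
  | bin1 {h : ℕ} {A B C : G.N} {c : S.C} {o : Option (G.N × S.C)} : G.bin A (S.lab c) B C →
      D G h B c none → D G h C c o → D G (h + 1) A c o
  | bin2 {h : ℕ} {A B C : G.N} {c : S.C} {o : Option (G.N × S.C)} : G.bin A (S.lab c) B C →
      D G h B c o → D G h C c none → D G (h + 1) A c o

/-- `G.W A c B c'`: `A` at `c` derives `B` at `c'` (and nothing else). -/
def Gr.W {S : Sto} {T : Type} (G : Gr S T) (A : G.N) (c : S.C) (B : G.N) (c' : S.C) : Prop :=
  ∃ h, G.D h A c (some (B, c'))

/-- Derivations seen from their events. The word may contain holes (`none`). -/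
inductive Ev {N K T : Type} (walk : N → K → N → K → Prop) (tm : N → K → T → Prop)
    (bn : N → K → N → N → Prop) (tgt : N → K → Prop) : N → K → List (Option T) → Prop
  | hole {A B : N} {k k' : K} : walk A k B k' → tgt B k' → Ev walk tm bn tgt A k [none]
  | term {A B : N} {k k' : K} {a : T} : walk A k B k' → tm B k' a →
      Ev walk tm bn tgt A k [some a]
  | bin {A B C E : N} {k k' : K} {u v : List (Option T)} : walk A k B k' → bn B k' C E →
      Ev walk tm bn tgt C k' u → Ev walk tm bn tgt E k' v → Ev walk tm bn tgt A k (u ++ v)

/-! ### Grammars with lists of items on the right hand sides -/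

/-- A grammar whose right hand sides are lists of letters and of nonterminals with an
instruction. -/
structure LGr (S : Sto) (T : Type) where
  /-- the nonterminals -/
  N : Type
  finN : Finite N
  /-- the rules -/
  rule : N → S.Λ → List (T ⊕ (N × Option S.I)) → Prop
  /-- a bound for the lengths of the right hand sides -/
  bd : ℕ
  hbd : ∀ B l r, rule B l r → r.length ≤ bd

instance {S : Sto} {T : Type} (G : LGr S T) : Finite G.N := G.finN

/-- `G.Der h c l w`: the list of items `l` at `c` generates `w` by a derivation of height at
most `h`. -/
inductive LGr.Der {S : Sto} {T : Type} (G : LGr S T) :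
    ℕ → S.C → List (T ⊕ (G.N × Option S.I)) → List T → Prop
  | nil {h : ℕ} {c : S.C} : Der G h c [] []
  | ltr {h : ℕ} {c : S.C} {t : T} {l : List (T ⊕ (G.N × Option S.I))} {w : List T} :
      Der G h c l w → Der G h c (.inl t :: l) (t :: w)
  | nt {h : ℕ} {c c' : S.C} {B : G.N} {i : Option S.I} {r l : List (T ⊕ (G.N × Option S.I))}
      {u v : List T} : S.stO i c = some c' → G.rule B (S.lab c') r → Der G h c' r u →
      Der G (h + 1) c l v → Der G (h + 1) c (.inr (B, i) :: l) (u ++ v)

/-! ### Nonempty stacks -/

/-- Nonempty stacks, as the nodes of a tree: `psh p x` is the child of `p` obtained by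
pushing `x`. -/
inductive Nd (X : Type) : Type
  | root (x : X) : Nd X
  | psh (p : Nd X) (x : X) : Nd X

namespace Nd

variable {X : Type}

/-- the topmost entry -/
def top : Nd X → X
  | root x => x
  | psh _ x => x

/-- the parent -/
def par : Nd X → Option (Nd X)
  | root _ => none
  | psh p _ => some p

/-- the depth -/
def len : Nd X → ℕ
  | root _ => 0
  | psh p _ => p.len + 1

@[simp] theorem top_root (x : X) : (root x).top = x := rfl
@[simp] theorem top_psh (p : Nd X) (x : X) : (psh p x).top = x := rfl
@[simp] theorem par_root (x : X) : (root x).par = none := rfl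
@[simp] theorem par_psh (p : Nd X) (x : X) : (psh p x).par = some p := rfl
@[simp] theorem len_root (x : X) : (root x).len = 0 := rfl
@[simp] theorem len_psh (p : Nd X) (x : X) : (psh p x).len = p.len + 1 := rfl

/-- `Sub v u`: the node `u` belongs to the subtree with root `v`. -/
inductive Sub (v : Nd X) : Nd X → Prop
  | refl : Sub v v
  | psh {p : Nd X} {x : X} : Sub v p → Sub v (psh p x)

end Nd

/-! ### The pushdown operator -/

/-- A direction: the symbol pushed, and the instruction leading from the old to the new topmost
configuration. -/
abbrev Dir (S : Sto) (Γ : Type) := Γ × Option S.I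

/-- The pushdown of the storage type `S`: the configurations are nonempty stacks of squares, each
of which holds a configuration of `S` and the direction in which it was pushed. The instructions
are `none` (pop) and `some d` (push in the direction `d`). -/
def pd (S : Sto) (Γ : Type) [Finite Γ] : Sto where
  C := Nd (Dir S Γ × S.C)
  I := Option (Dir S Γ)
  Λ := Dir S Γ × S.Λ
  finI := inferInstance
  finΛ := inferInstance
  st := fun i v => match i with
    | none => v.par
    | some d => (S.stO d.2 v.top.2).map fun c => Nd.psh v (d, c)
  lab := fun v => (v.top.1, S.lab v.top.2)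

section pd

variable {S : Sto} {Γ : Type} [Finite Γ]

theorem pd_pop (v : Nd (Dir S Γ × S.C)) : (pd S Γ).st none v = v.par := rfl

theorem pd_push (d : Dir S Γ) (v : Nd (Dir S Γ × S.C)) :
    (pd S Γ).st (some d) v = (S.stO d.2 v.top.2).map fun c => Nd.psh v (d, c) := rfl

theorem pd_lab (v : Nd (Dir S Γ × S.C)) : (pd S Γ).lab v = (v.top.1, S.lab v.top.2) := rfl

end pd

/-- The storage type of a single symbol, which can be replaced. -/
def sym (Γ : Type) [Finite Γ] : Sto where
  C := Γ
  I := Γ
  Λ := Γ
  finI := inferInstance
  finΛ := inferInstance
  st := fun a _ => some a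
  lab := fun a => a

/-- The iterated pushdowns of the storage type of a symbol. -/
def it (Γ : Type) [Finite Γ] : ℕ → Sto
  | 0 => sym Γ
  | n + 1 => pd (it Γ n) Bool

/-- The initial configurations of the iterated pushdowns. -/
def itInit {Γ : Type} [Finite Γ] (a : Γ) : (n : ℕ) → (it Γ n).C
  | 0 => a
  | n + 1 => Nd.root ((false, none), itInit a n)

end Pool.Agent.Lib.LinSpace.Ho
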