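import Mathlib

/-!
Higher-order pushdown automata (A. N. Maslov, The hierarchy of indexed languages of an arbitrary
level, Soviet Math. Dokl. 15 (1974)).
-/

set_option autoImplicit false

namespace Pool.Agent.Lib.LinSpace.Ho

/-- `Stk Γ n` is the type of pushdown stacks of order `n + 1` over `Γ`, the top being the first
element: a stack of order `1` is a list of symbols, and a stack of order `n + 2` is a list of
stacks of order `n + 1`. -/
def Stk (Γ : Type) : ℕ → Type
  | 0 => List Γ
  | n + 1 => List (Stk Γ n)

/-- The operations on stacks of order `n + 1`. -/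
inductive Op (Γ : Type) : ℕ → Type
  /-- order `1`: push the symbol `a` -/
  | psh (a : Γ) : Op Γ 0
  /-- remove the topmost element of the stack -/
  | pop {n : ℕ} : Op Γ n
  /-- order at least `2`: push a copy of the topmost element of the stack -/
  | cpy {n : ℕ} : Op Γ (n + 1)
  /-- order at least `2`: perform an operation on the topmost element of the stack -/
  | inn {n : ℕ} (o : Op Γ n) : Op Γ (n + 1)

/-- Performing an operation; an operation is undefined if it would empty a stack. -/
def Op.app {Γ : Type} : {n : ℕ} → Op Γ n → Stk Γ n → Option (Stk Γ n)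
  | 0, .psh a, s => some (a :: (s : List Γ))
  | 0, .pop, s => match (s : List Γ) with
    | _ :: x :: r => some ((x :: r : List Γ) : Stk Γ 0)
    | _ => none
  | n + 1, .pop, s => match (s : List (Stk Γ n)) with
    | _ :: x :: r => some ((x :: r : List (Stk Γ n)) : Stk Γ (n + 1))
    | _ => none
  | n + 1, .cpy, s => match (s : List (Stk Γ n)) with
    | x :: r => some ((x :: x :: r : List (Stk Γ n)) : Stk Γ (n + 1))
    | [] => none
  | n + 1, .inn o, s => match (s : List (Stk Γ n)) with
    | x :: r => (o.app x).map fun y => ((y :: r : List (Stk Γ n)) : Stk Γ (n + 1))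
    | [] => none

/-- The topmost symbol of a stack. -/
def Stk.top {Γ : Type} : {n : ℕ} → Stk Γ n → Option Γ
  | 0, s => (s : List Γ).head?
  | n + 1, s => match (s : List (Stk Γ n)) with
    | x :: _ => Stk.top x
    | [] => none

/-- The initial stack: a single symbol on each level. -/
def Stk.init {Γ : Type} (a : Γ) : (n : ℕ) → Stk Γ n
  | 0 => [a]
  | n + 1 => [Stk.init a n]

/-- A nondeterministic pushdown automaton of order `n + 1` over the alphabet `A`. -/
structure Hopda (A : Type) (n : ℕ) where
  /-- the states -/
  Q : Type
  /-- the stack symbols -/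
  Γ : Type
  /-- there are finitely many states -/
  finQ : Finite Q
  /-- there are finitely many stack symbols -/
  finΓ : Finite Γ
  /-- the initial state -/
  start : Q
  /-- the initial stack symbol -/
  bot : Γ
  /-- the final states -/
  acc : Set Q
  /-- the transitions: in state `q`, with the topmost symbol `a`, reading a letter or nothing,
  the automaton may pass to a new state and perform an operation or none -/
  δ : Q → Γ → Option A → Set (Q × Option (Op Γ n))

namespace Hopda

variable {A : Type} {n : ℕ} (M : Hopda A n)

/-- `M.Run q s w q' s'`: there is a computation of `M` leading from the state `q` and the stack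
`s` to the state `q'` and the stack `s'` and reading the word `w`. -/
inductive Run : M.Q → Stk M.Γ n → List A → M.Q → Stk M.Γ n → Prop
  | refl (q : M.Q) (s : Stk M.Γ n) : Run q s [] q s
  | stay {q q₁ q' : M.Q} {s s' : Stk M.Γ n} {a : M.Γ} {x : Option A} {w : List A} :
      s.top = some a → (q₁, none) ∈ M.δ q a x → Run q₁ s w q' s' →
      Run q s (x.toList ++ w) q' s'
  | op {q q₁ q' : M.Q} {s s₁ s' : Stk M.Γ n} {a : M.Γ} {x : Option A} {o : Op M.Γ n}
      {w : List A} : s.top = some a → (q₁, some o) ∈ M.δ q a x → o.app s = some s₁ →
      Run q₁ s₁ w q' s' → Run q s (x.toList ++ w) q' s'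

/-- The language accepted by `M` (with final states). -/
def language : Language A :=
  {w | ∃ q ∈ M.acc, ∃ s, M.Run M.start (Stk.init M.bot n) w q s}

end Hopda

end Pool.Agent.Lib.LinSpace.Ho
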