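import Pool.Agent.Lib.LinSpace.Ho.Defs
import Pool.Agent.Lib.LinSpace.Ho.Hopda

/-!
The storage types of the elements of the pushdown stacks of higher order.
-/

set_option autoImplicit false

namespace Pool.Agent.Lib.LinSpace.Ho

theorem Op.finite (Γ : Type) [Finite Γ] : ∀ n, Finite (Op Γ n)
  | 0 => by
    refine Finite.of_surjective (fun x : Option Γ => match x with
      | none => (Op.pop : Op Γ 0)
      | some a => Op.psh a) ?_
    intro o
    cases o with
    | psh a => exact ⟨some a, rfl⟩
    | pop => exact ⟨none, rfl⟩
  | n + 1 => by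
    have := Op.finite Γ n
    refine Finite.of_surjective (fun x : Option (Option (Op Γ n)) => match x with
      | none => (Op.pop : Op Γ (n + 1))
      | some none => Op.cpy
      | some (some o) => Op.inn o) ?_
    intro o
    cases o with
    | pop => exact ⟨none, rfl⟩
    | cpy => exact ⟨some none, rfl⟩
    | inn o => exact ⟨some (some o), rfl⟩

/-- The elements of a pushdown stack of order `n + 1`: symbols for `n = 0`, and stacks of
order `n` otherwise. -/
def el (Γ : Type) [Finite Γ] : ℕ → Sto
  | 0 => sym Γ
  | n + 1 =>
    { C := Stk Γ n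
      I := Op Γ n
      Λ := Option Γ
      finI := Op.finite Γ n
      finΛ := inferInstance
      st := fun o s => o.app s
      lab := Stk.top }

/-- The initial elements. -/
def elInit {Γ : Type} [Finite Γ] (a : Γ) : (n : ℕ) → (el Γ n).C
  | 0 => a
  | n + 1 => Stk.init a n

instance {A : Type} {n : ℕ} (M : Hopda A n) : Finite M.Γ := M.finΓ
instance {A : Type} {n : ℕ} (M : Hopda A n) : Finite M.Q := M.finQ

end Pool.Agent.Lib.LinSpace.Ho
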