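import Pool.Agent.Lib.LinSpace.Ho.El

/-!
Pushdown automata over the storage types of elements, and the triple construction.
-/

set_option autoImplicit false

namespace Pool.Agent.Lib.LinSpace.Ho

/-- The actions of a pushdown automaton over a storage type: remove the topmost element, replace
it, push an element computed from it. -/
inductive PAct (S : Sto) : Type
  /-- remove the topmost element -/
  | pop : PAct S
  /-- replace the topmost element by its image under an instruction -/
  | rep (i : Option S.I) : PAct S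
  /-- push the image of the topmost element under an instruction -/
  | push (i : Option S.I) : PAct S

theorem PAct.finite (S : Sto) : Finite (PAct S) := by
  refine Finite.of_surjective (fun x : Option (Option S.I ⊕ Option S.I) => match x with
    | none => (PAct.pop : PAct S)
    | some (.inl i) => PAct.rep i
    | some (.inr i) => PAct.push i) ?_
  intro o
  cases o with
  | pop => exact ⟨none, rfl⟩
  | rep i => exact ⟨some (.inl i), rfl⟩
  | push i => exact ⟨some (.inr i), rfl⟩

instance (S : Sto) : Finite (PAct S) := PAct.finite S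

/-- A pushdown automaton over a storage type. -/
structure PAut (S : Sto) (A : Type) where
  /-- the states -/
  Q : Type
  finQ : Finite Q
  /-- the initial state -/
  start : Q
  /-- the final states -/
  acc : Set Q
  /-- the transitions -/
  δ : Q → S.Λ → Option A → Q → PAct S → Prop

instance {S : Sto} {A : Type} (P : PAut S A) : Finite P.Q := P.finQ

/-- `P.Run n q s w q' s'`: a computation with `n` steps. -/
inductive PAut.Run {S : Sto} {A : Type} (P : PAut S A) :
    ℕ → P.Q → List S.C → List A → P.Q → List S.C → Prop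
  | refl (q : P.Q) (s : List S.C) : PAut.Run P 0 q s [] q s
  | rep {n : ℕ} {q q₁ q' : P.Q} {c c' : S.C} {r s' : List S.C} {x : Option A} {w : List A}
      {i : Option S.I} : P.δ q (S.lab c) x q₁ (.rep i) → S.stO i c = some c' →
      PAut.Run P n q₁ (c' :: r) w q' s' → PAut.Run P (n + 1) q (c :: r) (x.toList ++ w) q' s'
  | push {n : ℕ} {q q₁ q' : P.Q} {c c' : S.C} {r s' : List S.C} {x : Option A} {w : List A}
      {i : Option S.I} : P.δ q (S.lab c) x q₁ (.push i) → S.stO i c = some c' →
      PAut.Run P n q₁ (c' :: c :: r) w q' s' →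
      PAut.Run P (n + 1) q (c :: r) (x.toList ++ w) q' s'
  | pop {n : ℕ} {q q₁ q' : P.Q} {c d : S.C} {r s' : List S.C} {x : Option A} {w : List A} :
      P.δ q (S.lab c) x q₁ .pop → PAut.Run P n q₁ (d :: r) w q' s' →
      PAut.Run P (n + 1) q (c :: d :: r) (x.toList ++ w) q' s'

/-- The nonterminals of the triple construction. -/
inductive PN {S : Sto} {A : Type} (P : PAut S A) : Type
  /-- from the state `q` to the state `o` with a pop, or to acceptance -/
  | main (q : P.Q) (o : Option P.Q)
  /-- the letter read by a transition -/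
  | rd (q : P.Q) (a : PAct S) (q₁ : P.Q)
  /-- perform an instruction -/
  | go (q : P.Q) (i : Option S.I) (o : Option P.Q)
  /-- an element is pushed -/
  | sp (q : P.Q) (i : Option S.I) (r : P.Q) (o : Option P.Q)
  /-- the empty word -/
  | nil

theorem PN.finite {S : Sto} {A : Type} (P : PAut S A) : Finite (PN P) := by
  refine Finite.of_surjective (fun x : Option ((P.Q × Option P.Q) ⊕ (P.Q × PAct S × P.Q) ⊕
      (P.Q × Option S.I × Option P.Q) ⊕ (P.Q × Option S.I × P.Q × Option P.Q)) => match x with
    | none => (PN.nil : PN P)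
    | some (.inl (q, o)) => PN.main q o
    | some (.inr (.inl (q, a, q₁))) => PN.rd q a q₁
    | some (.inr (.inr (.inl (q, i, o)))) => PN.go q i o
    | some (.inr (.inr (.inr (q, i, r, o)))) => PN.sp q i r o) ?_
  intro x
  cases x with
  | main q o => exact ⟨some (.inl (q, o)), rfl⟩
  | rd q a q₁ => exact ⟨some (.inr (.inl (q, a, q₁))), rfl⟩
  | go q i o => exact ⟨some (.inr (.inr (.inl (q, i, o)))), rfl⟩
  | sp q i r o => exact ⟨some (.inr (.inr (.inr (q, i, r, o)))), rfl⟩
  | nil => exact ⟨none, rfl⟩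

/-- The grammar of the triple construction. -/
def PAut.gr {S : Sto} {A : Type} (P : PAut S A) : Gr S A where
  N := PN P
  finN := PN.finite P
  eps := fun B l => match B with
    | .main q none => q ∈ P.acc
    | .rd q a q₁ => P.δ q l none q₁ a
    | .nil => True
    | _ => False
  term := fun B l t => match B with
    | .rd q a q₁ => P.δ q l (some t) q₁ a
    | _ => False
  bin := fun B _ C D => match B with
    | .main q o =>
      (∃ q₁ i, C = .rd q (.rep i) q₁ ∧ D = .go q₁ i o) ∨
      (∃ q₁, o = some q₁ ∧ C = .rd q .pop q₁ ∧ D = .nil) ∨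
      (∃ q₁ i, C = .rd q (.push i) q₁ ∧ ((o = none ∧ D = .go q₁ i none) ∨
        ∃ r, D = .sp q₁ i r o))
    | .sp q₁ i r o => C = .go q₁ i (some r) ∧ D = .main r o
    | _ => False
  mv := fun B _ i C => match B with
    | .go q i' o => i = i' ∧ C = .main q o
    | _ => False

/-- The meaning of the nonterminals `main`. -/
def PAut.sm {S : Sto} {A : Type} (P : PAut S A) (q : P.Q) (o : Option P.Q) (c : S.C)
    (w : List A) : Prop :=
  match o with
  | some q' => ∀ d r, ∃ n, P.Run n q (c :: d :: r) w q' (d :: r)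
  | none => ∀ r, ∃ q' ∈ P.acc, ∃ s n, P.Run n q (c :: r) w q' s

/-- The meaning of the nonterminals. -/
def PAut.sem {S : Sto} {A : Type} (P : PAut S A) (B : PN P) (c : S.C) (w : List A) : Prop :=
  match B with
  | .main q o => P.sm q o c w
  | .rd q a q₁ => ∃ x, P.δ q (S.lab c) x q₁ a ∧ w = x.toList
  | .go q i o => ∃ c', S.stO i c = some c' ∧ P.sm q o c' w
  | .sp q i r o => ∃ u v c', w = u ++ v ∧ S.stO i c = some c' ∧ P.sm q (some r) c' u ∧
      P.sm r o c v
  | .nil => w = []

theorem PAut.Run.trans {S : Sto} {A : Type} {P : PAut S A} {n : ℕ} {q q' : P.Q}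
    {s s' : List S.C} {u : List A} (H : P.Run n q s u q' s') {m : ℕ} {q'' : P.Q}
    {s'' : List S.C} {v : List A} (H' : P.Run m q' s' v q'' s'') :
    ∃ k, P.Run k q s (u ++ v) q'' s'' := by
  induction H with
  | refl q s => exact ⟨m, H'⟩
  | rep h1 h2 _ ih =>
    obtain ⟨k, hk⟩ := ih H'
    exact ⟨k + 1, by rw [List.append_assoc]; exact .rep h1 h2 hk⟩
  | push h1 h2 _ ih =>
    obtain ⟨k, hk⟩ := ih H'
    exact ⟨k + 1, by rw [List.append_assoc]; exact .push h1 h2 hk⟩
  | pop h1 _ ih =>
    obtain ⟨k, hk⟩ := ih H'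
    exact ⟨k + 1, by rw [List.append_assoc]; exact .pop h1 hk⟩

theorem PAut.sound {S : Sto} {A : Type} (P : PAut S A) {B : P.gr.N} {c : S.C} {w : List A}
    (H : P.gr.Gen B c w) : P.sem B c w := by
  induction H with
  | @eps B c h =>
    cases B with
    | main q o =>
      cases o with
      | none => exact fun r => ⟨q, h, c :: r, 0, .refl _ _⟩
      | some q' => exact h.elim
    | rd q a q₁ => exact ⟨none, h, rfl⟩
    | go q i o => exact h.elim
    | sp q i r o => exact h.elim
    | nil => rfl
  | @term B c t h =>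
    cases B with
    | rd q a q₁ => exact ⟨some t, h, rfl⟩
    | main q o => exact h.elim
    | go q i o => exact h.elim
    | sp q i r o => exact h.elim
    | nil => exact h.elim
  | @bin B C D c u v h _ _ ih1 ih2 =>
    cases B with
    | main q o =>
      rcases h with ⟨q₁, i, rfl, rfl⟩ | ⟨q₁, rfl, rfl, rfl⟩ | ⟨q₁, i, rfl, ⟨rfl, rfl⟩ | ⟨r, rfl⟩⟩
      · obtain ⟨x, hx, rfl⟩ := ih1
        obtain ⟨c', hc, hs⟩ := ih2
        cases o with
        | none =>
          intro r
          obtain ⟨q', hq, s, n, hr⟩ := hs r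
          exact ⟨q', hq, s, n + 1, .rep hx hc hr⟩
        | some q' =>
          intro d r
          obtain ⟨n, hr⟩ := hs d r
          exact ⟨n + 1, .rep hx hc hr⟩
      · obtain ⟨x, hx, rfl⟩ := ih1
        have h2 : v = [] := ih2
        subst h2
        intro d r
        exact ⟨1, .pop hx (.refl _ _)⟩
      · obtain ⟨x, hx, rfl⟩ := ih1
        obtain ⟨c', hc, hs⟩ := ih2
        intro r
        obtain ⟨q', hq, s, n, hr⟩ := hs (c :: r)
        exact ⟨q', hq, s, n + 1, .push hx hc hr⟩
      · obtain ⟨x, hx, rfl⟩ := ih1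
        obtain ⟨u', v', c', rfl, hc, hs1, hs2⟩ := ih2
        cases o with
        | none =>
          intro t
          obtain ⟨n, hr⟩ := hs1 c t
          obtain ⟨q', hq, s, m, hr'⟩ := hs2 t
          obtain ⟨k, hk⟩ := hr.trans hr'
          exact ⟨q', hq, s, k + 1, .push hx hc hk⟩
        | some q' =>
          intro d t
          obtain ⟨n, hr⟩ := hs1 c (d :: t)
          obtain ⟨m, hr'⟩ := hs2 d t
          obtain ⟨k, hk⟩ := hr.trans hr'
          exact ⟨k + 1, .push hx hc hk⟩
    | sp q i r o =>
      obtain ⟨rfl, rfl⟩ := h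
      obtain ⟨c', hc, hs⟩ := ih1
      exact ⟨u, v, c', rfl, hc, hs, ih2⟩
    | rd q a q₁ => exact h.elim
    | go q i o => exact h.elim
    | nil => exact h.elim
  | @mv B C c c' i w h hst _ ih =>
    cases B with
    | go q i' o =>
      obtain ⟨rfl, rfl⟩ := h
      exact ⟨c', hst, ih⟩
    | main q o => exact h.elim
    | rd q a q₁ => exact h.elim
    | sp q i r o => exact h.elim
    | nil => exact h.elim

section rules

variable {S : Sto} {A : Type} {P : PAut S A}

theorem PAut.gen_rd {q : P.Q} {a : PAct S} {q₁ : P.Q} {c : S.C} {x : Option A}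
    (h : P.δ q (S.lab c) x q₁ a) : P.gr.Gen (PN.rd q a q₁ : PN P) c x.toList := by
  cases x with
  | none => exact Gr.Gen.eps h
  | some t => exact Gr.Gen.term h

theorem PAut.gen_go {q : P.Q} {i : Option S.I} {o : Option P.Q} {c c' : S.C} {w : List A}
    (hc : S.stO i c = some c') (h : P.gr.Gen (PN.main q o : PN P) c' w) :
    P.gr.Gen (PN.go q i o : PN P) c w :=
  Gr.Gen.mv (B := (PN.main q o : PN P)) ⟨rfl, rfl⟩ hc h

theorem PAut.gen_rep {q q₁ : P.Q} {i : Option S.I} {o : Option P.Q} {c c' : S.C} {w : List A}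
    {x : Option A} (hx : P.δ q (S.lab c) x q₁ (.rep i)) (hc : S.stO i c = some c')
    (h : P.gr.Gen (PN.main q₁ o : PN P) c' w) :
    P.gr.Gen (PN.main q o : PN P) c (x.toList ++ w) :=
  Gr.Gen.bin (B := (PN.rd q (.rep i) q₁ : PN P)) (C := (PN.go q₁ i o : PN P))
    (Or.inl ⟨q₁, i, rfl, rfl⟩) (P.gen_rd hx) (P.gen_go hc h)

theorem PAut.gen_pop {q q₁ : P.Q} {c : S.C} {x : Option A}
    (hx : P.δ q (S.lab c) x q₁ .pop) : P.gr.Gen (PN.main q (some q₁) : PN P) c x.toList := by
  have h := Gr.Gen.bin (G := P.gr) (A := (PN.main q (some q₁) : PN P))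
    (B := (PN.rd q .pop q₁ : PN P)) (C := (PN.nil : PN P)) (c := c) (v := [])
    (Or.inr (Or.inl ⟨q₁, rfl, rfl, rfl⟩)) (P.gen_rd hx) (Gr.Gen.eps trivial)
  rwa [List.append_nil] at h

theorem PAut.gen_push_none {q q₁ : P.Q} {i : Option S.I} {c c' : S.C} {w : List A}
    {x : Option A} (hx : P.δ q (S.lab c) x q₁ (.push i)) (hc : S.stO i c = some c')
    (h : P.gr.Gen (PN.main q₁ none : PN P) c' w) :
    P.gr.Gen (PN.main q none : PN P) c (x.toList ++ w) :=
  Gr.Gen.bin (B := (PN.rd q (.push i) q₁ : PN P)) (C := (PN.go q₁ i none : PN P))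
    (Or.inr (Or.inr ⟨q₁, i, rfl, Or.inl ⟨rfl, rfl⟩⟩)) (P.gen_rd hx) (P.gen_go hc h)

theorem PAut.gen_push {q q₁ r : P.Q} {i : Option S.I} {o : Option P.Q} {c c' : S.C}
    {u v : List A} {x : Option A} (hx : P.δ q (S.lab c) x q₁ (.push i))
    (hc : S.stO i c = some c') (h : P.gr.Gen (PN.main q₁ (some r) : PN P) c' u)
    (h' : P.gr.Gen (PN.main r o : PN P) c v) :
    P.gr.Gen (PN.main q o : PN P) c (x.toList ++ (u ++ v)) :=
  Gr.Gen.bin (B := (PN.rd q (.push i) q₁ : PN P)) (C := (PN.sp q₁ i r o : PN P))
    (Or.inr (Or.inr ⟨q₁, i, rfl, Or.inr ⟨r, rfl⟩⟩)) (P.gen_rd hx)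
    (Gr.Gen.bin (G := P.gr) (A := (PN.sp q₁ i r o : PN P)) (B := (PN.go q₁ i (some r) : PN P))
      (C := (PN.main r o : PN P)) ⟨rfl, rfl⟩ (P.gen_go hc h) h')

end rules

theorem PAut.complete {S : Sto} {A : Type} (P : PAut S A) (n : ℕ) :
    ∀ (q : P.Q) (c : S.C) (r : List S.C) (w : List A) (q' : P.Q) (s : List S.C),
      P.Run n q (c :: r) w q' s →
      (q' ∈ P.acc → P.gr.Gen (PN.main q none : PN P) c w) ∨
      (∃ q₁ u v m, m < n ∧ w = u ++ v ∧ r ≠ [] ∧ P.gr.Gen (PN.main q (some q₁) : PN P) c u ∧
        P.Run m q₁ r v q' s) := by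
  induction n using Nat.strong_induction_on with
  | _ n ih =>
  intro q c r w q' s H
  cases H with
  | refl => exact Or.inl fun h => Gr.Gen.eps h
  | @rep n q q₁ q' c c' r s' x w i hx hc H =>
    rcases ih n (Nat.lt_succ_self n) _ _ _ _ _ _ H with h | ⟨q₂, u, v, m, hm, rfl, hr, h1, h2⟩
    · exact Or.inl fun h' => P.gen_rep hx hc (h h')
    · exact Or.inr ⟨q₂, x.toList ++ u, v, m, by omega, by rw [List.append_assoc], hr,
        P.gen_rep hx hc h1, h2⟩
  | @push n q q₁ q' c c' r s' x w i hx hc H =>
    rcases ih n (Nat.lt_succ_self n) _ _ _ _ _ _ H with h | ⟨q₂, u, v, m, hm, rfl, hr, h1, h2⟩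
    · exact Or.inl fun h' => P.gen_push_none hx hc (h h')
    · rcases ih m (by omega) _ _ _ _ _ _ h2 with h | ⟨q₃, u', v', m', hm', rfl, hr', h3, h4⟩
      · exact Or.inl fun h' => P.gen_push hx hc h1 (h h')
      · exact Or.inr ⟨q₃, x.toList ++ (u ++ u'), v', m', by omega,
          by simp only [List.append_assoc], hr', P.gen_push hx hc h1 h3, h4⟩
  | @pop n q q₁ q' c d r s' x w hx H =>
    exact Or.inr ⟨q₁, x.toList, w, n, Nat.lt_succ_self n, rfl, by simp, P.gen_pop hx, H⟩

/-- The triple construction is correct. -/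
theorem PAut.gen_iff {S : Sto} {A : Type} (P : PAut S A) (c : S.C) (w : List A) :
    P.gr.Gen (PN.main P.start none : PN P) c w ↔
      ∃ q ∈ P.acc, ∃ s n, P.Run n P.start [c] w q s := by
  constructor
  · intro h
    exact P.sound h []
  · rintro ⟨q, hq, s, n, h⟩
    rcases P.complete n _ _ _ _ _ _ h with h | ⟨_, _, _, _, _, _, hr, _⟩
    · exact h hq
    · exact (hr rfl).elim

/-! ### The automaton of order `n + 1` as an automaton over `el` -/

section order1

variable {A : Type} (M : Hopda A 0)

/-- The operation of an action. -/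
def PAct.op0 {Γ : Type} [Finite Γ] : PAct (el Γ 0) → Option (Option (Op Γ 0))
  | .pop => some (some .pop)
  | .rep none => some none
  | .rep (some _) => none
  | .push none => none
  | .push (some a) => some (some (.psh a))

/-- The automaton of order `1`. -/
def aut0 : PAut (el M.Γ 0) A where
  Q := M.Q
  finQ := M.finQ
  start := M.start
  acc := M.acc
  δ := fun q l x q₁ a => ∃ o, a.op0 = some o ∧ (q₁, o) ∈ M.δ q l x

theorem run0 {q q' : M.Q} {s s' : Stk M.Γ 0} {w : List A} (H : M.Run q s w q' s') :
    ∃ n, (aut0 M).Run n q s w q' s' := by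
  induction H with
  | refl q s => exact ⟨0, .refl _ _⟩
  | @stay q q₁ q' s s' a x w hs hd _ ih =>
    obtain ⟨n, hn⟩ := ih
    cases s with
    | nil => cases hs
    | cons c r =>
      have hc : c = a := by
        have : (some c : Option M.Γ) = some a := hs
        exact Option.some.inj this
      subst hc
      exact ⟨n + 1, PAut.Run.rep (P := aut0 M) (i := none) ⟨none, rfl, hd⟩ rfl hn⟩
  | @op q q₁ q' s s₁ s' a x o w hs hd ho _ ih =>
    obtain ⟨n, hn⟩ := ih
    cases s with
    | nil => cases hs
    | cons c r =>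
      have hc : c = a := by
        have : (some c : Option M.Γ) = some a := hs
        exact Option.some.inj this
      subst hc
      cases o with
      | psh b =>
        have h1 : (b :: c :: r : List M.Γ) = s₁ := Option.some.inj ho
        subst h1
        exact ⟨n + 1, PAut.Run.push (P := aut0 M) (i := some b) ⟨some (.psh b), rfl, hd⟩ rfl hn⟩
      | pop =>
        cases r with
        | nil => cases ho
        | cons d r =>
          have h1 : (d :: r : List M.Γ) = s₁ := Option.some.inj ho
          subst h1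
          exact ⟨n + 1, PAut.Run.pop (P := aut0 M) ⟨some .pop, rfl, hd⟩ hn⟩

theorem run0' {n : ℕ} {q q' : (aut0 M).Q} {s s' : List (el M.Γ 0).C} {w : List A}
    (H : (aut0 M).Run n q s w q' s') : M.Run q (s : Stk M.Γ 0) w q' (s' : Stk M.Γ 0) := by
  induction H with
  | refl q s => exact .refl _ _
  | @rep n q q₁ q' c c' r s' x w i hx hc _ ih =>
    obtain ⟨o, ho, hd⟩ := hx
    cases i with
    | some _ => cases ho
    | none =>
      have h1 : none = o := Option.some.inj ho
      subst h1
      have h2 : c = c' := Option.some.inj hc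
      subst h2
      exact Hopda.Run.stay (M := M) (s := (c :: r : List M.Γ)) (a := c) rfl hd ih
  | @push n q q₁ q' c c' r s' x w i hx hc _ ih =>
    obtain ⟨o, ho, hd⟩ := hx
    cases i with
    | none => cases ho
    | some b =>
      have h1 : some (.psh b) = o := Option.some.inj ho
      subst h1
      have h2 : b = c' := Option.some.inj hc
      subst h2
      exact Hopda.Run.op (M := M) (s := (c :: r : List M.Γ)) (a := c) (o := .psh b) rfl hd rfl ih
  | @pop n q q₁ q' c d r s' x w hx _ ih =>
    obtain ⟨o, ho, hd⟩ := hx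
    have h1 : some .pop = o := Option.some.inj ho
    subst h1
    exact Hopda.Run.op (M := M) (s := (c :: d :: r : List M.Γ)) (a := c) (o := .pop) rfl hd rfl ih

end order1

section order2

variable {A : Type} {m : ℕ} (M : Hopda A (m + 1))

/-- The operation of an action. -/
def PAct.op1 {Γ : Type} [Finite Γ] {m : ℕ} : PAct (el Γ (m + 1)) → Option (Option (Op Γ (m + 1)))
  | .pop => some (some .pop)
  | .rep none => some none
  | .rep (some o) => some (some (.inn o))
  | .push none => some (some .cpy)
  | .push (some _) => none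

/-- The automaton of order `m + 2`. -/
def aut1 : PAut (el M.Γ (m + 1)) A where
  Q := M.Q
  finQ := M.finQ
  start := M.start
  acc := M.acc
  δ := fun q l x q₁ a => ∃ b o, l = some b ∧ a.op1 = some o ∧ (q₁, o) ∈ M.δ q b x

theorem run1 {q q' : M.Q} {s s' : Stk M.Γ (m + 1)} {w : List A} (H : M.Run q s w q' s') :
    ∃ n, (aut1 M).Run n q s w q' s' := by
  induction H with
  | refl q s => exact ⟨0, .refl _ _⟩
  | @stay q q₁ q' s s' a x w hs hd _ ih =>
    obtain ⟨n, hn⟩ := ih
    cases s with
    | nil => cases hs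
    | cons c r =>
      have hc : Stk.top c = some a := hs
      exact ⟨n + 1, PAut.Run.rep (P := aut1 M) (i := none) ⟨a, none, hc, rfl, hd⟩ rfl hn⟩
  | @op q q₁ q' s s₁ s' a x o w hs hd ho _ ih =>
    obtain ⟨n, hn⟩ := ih
    cases s with
    | nil => cases hs
    | cons c r =>
      have hc : Stk.top c = some a := hs
      cases o with
      | pop =>
        cases r with
        | nil => cases ho
        | cons d r =>
          have h1 : (d :: r : List (Stk M.Γ m)) = s₁ := Option.some.inj ho
          subst h1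
          exact ⟨n + 1, PAut.Run.pop (P := aut1 M) ⟨a, some .pop, hc, rfl, hd⟩ hn⟩
      | cpy =>
        have h1 : (c :: c :: r : List (Stk M.Γ m)) = s₁ := Option.some.inj ho
        subst h1
        exact ⟨n + 1, PAut.Run.push (P := aut1 M) (i := none) ⟨a, some .cpy, hc, rfl, hd⟩ rfl hn⟩
      | inn o =>
        have ho' : (o.app c).map (fun y => ((y :: r : List (Stk M.Γ m)) : Stk M.Γ (m + 1))) =
            some s₁ := ho
        obtain ⟨y, hy, hy'⟩ := Option.map_eq_some_iff.1 ho'
        subst hy'
        exact ⟨n + 1, PAut.Run.rep (P := aut1 M) (i := some o) ⟨a, some (.inn o), hc, rfl, hd⟩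
          hy hn⟩

theorem run1' {n : ℕ} {q q' : (aut1 M).Q} {s s' : List (el M.Γ (m + 1)).C} {w : List A}
    (H : (aut1 M).Run n q s w q' s') :
    M.Run q (s : Stk M.Γ (m + 1)) w q' (s' : Stk M.Γ (m + 1)) := by
  induction H with
  | refl q s => exact .refl _ _
  | @rep n q q₁ q' c c' r s' x w i hx hc _ ih =>
    obtain ⟨b, o, hb, ho, hd⟩ := hx
    cases i with
    | some o' =>
      have h1 : some (.inn o') = o := Option.some.inj ho
      subst h1
      refine Hopda.Run.op (M := M) (s := (c :: r : List (Stk M.Γ m))) (a := b) (o := .inn o') hb hd ?_ ih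
      have hc' : o'.app c = some c' := hc
      show (o'.app c).map (fun y => ((y :: r : List (Stk M.Γ m)) : Stk M.Γ (m + 1))) = _
      rw [hc']
      rfl
    | none =>
      have h1 : none = o := Option.some.inj ho
      subst h1
      have h2 : c = c' := Option.some.inj hc
      subst h2
      exact Hopda.Run.stay (M := M) (s := (c :: r : List (Stk M.Γ m))) (a := b) hb hd ih
  | @push n q q₁ q' c c' r s' x w i hx hc _ ih =>
    obtain ⟨b, o, hb, ho, hd⟩ := hx
    cases i with
    | some _ => cases ho
    | none =>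
      have h1 : some .cpy = o := Option.some.inj ho
      subst h1
      have h2 : c = c' := Option.some.inj hc
      subst h2
      exact Hopda.Run.op (M := M) (s := (c :: r : List (Stk M.Γ m))) (a := b) (o := .cpy) hb hd rfl ih
  | @pop n q q₁ q' c d r s' x w hx _ ih =>
    obtain ⟨b, o, hb, ho, hd⟩ := hx
    have h1 : some .pop = o := Option.some.inj ho
    subst h1
    exact Hopda.Run.op (M := M) (s := (c :: d :: r : List (Stk M.Γ m))) (a := b) (o := .pop) hb hd rfl ih

end order2

/-- Every language accepted by a pushdown automaton of order `n + 1` is generated by a grammar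
over the storage type of its elements. -/
theorem hopda_el {A : Type} {n : ℕ} (M : Hopda A n) :
    ∃ (G : Gr (el M.Γ n) A) (S₀ : G.N),
      ∀ w : List A, w ∈ M.language ↔ G.Gen S₀ (elInit M.bot n) w := by
  cases n with
  | zero =>
    refine ⟨(aut0 M).gr, (PN.main M.start none : PN (aut0 M)), fun w => ?_⟩
    refine Iff.trans ?_ ((aut0 M).gen_iff (elInit M.bot 0) w).symm
    constructor
    · rintro ⟨q, hq, s, hr⟩
      obtain ⟨k, hk⟩ := run0 M hr
      exact ⟨q, hq, s, k, hk⟩
    · rintro ⟨q, hq, s, k, hk⟩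
      exact ⟨q, hq, s, run0' M hk⟩
  | succ m =>
    refine ⟨(aut1 M).gr, (PN.main M.start none : PN (aut1 M)), fun w => ?_⟩
    refine Iff.trans ?_ ((aut1 M).gen_iff (elInit M.bot (m + 1)) w).symm
    constructor
    · rintro ⟨q, hq, s, hr⟩
      obtain ⟨k, hk⟩ := run1 M hr
      exact ⟨q, hq, s, k, hk⟩
    · rintro ⟨q, hq, s, k, hk⟩
      exact ⟨q, hq, s, run1' M hk⟩

end Pool.Agent.Lib.LinSpace.Ho
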