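import Pool.Agent.Lib.LinSpace.Var.Script

/-!
Bracket words of labelled trees, and the computation of the reachability relation between marked
nodes of a tree from such words: definitions.
-/

set_option autoImplicit false

namespace Pool.Agent.Lib.LinSpace.Ho

open Var

noncomputable instance encSet {N : Type} [Finite N] : Enc (Set N) := encFinite _

/-- Labels of nodes: a letter, the loops at the node, the walks from the parent to the node, the
walks from the node to the parent (pairs of states). -/
abbrev Lb (N Λ : Type) := Λ × (Set (N × N) × (Set (N × N) × Set (N × N)))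

/-- Forests with labelled nodes: `nd a ch nx` is the forest whose first tree has a root with
label `a` and children `ch`, followed by the forest `nx`. -/
inductive Tr (α : Type) : Type
  | nil : Tr α
  | nd (a : α) (ch nx : Tr α) : Tr α

namespace Tr

variable {α β : Type}

/-- the bracket word of a forest -/
def wd : Tr α → List (Option α)
  | nil => []
  | nd a ch nx => some a :: (wd ch ++ none :: wd nx)

/-- the labels of the nodes -/
def nodes : Tr α → List α
  | nil => []
  | nd a ch nx => a :: (nodes ch ++ nodes nx)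

/-- relabelling -/
def map (f : α → β) : Tr α → Tr β
  | nil => nil
  | nd a ch nx => nd (f a) (map f ch) (map f nx)

end Tr

variable {N Λ K : Type}

/-- Marks: whether the position is the source, and the set of the states which are targets. -/
abbrev Mk (N : Type) := Bool × Set N

/-- Summaries of marked forests: the walks from the source to the parent; the states leading
from the parent to a target; the states leading from the source to a target. -/
abbrev Sm (N : Type) := Set (N × N) × (Set N × Set N)

/-- The summary of the empty forest. -/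
def sm0 : Sm N := (∅, (∅, ∅))

/-- The summary of `nd l ch nx` with the mark `m`, where `s₁`, `s₂` are the summaries of `ch`
and `nx`. -/
def comb (l : Lb N Λ) (m : Mk N) (s₁ s₂ : Sm N) : Sm N :=
  let U := l.2.1
  let Dn := l.2.2.1
  let Up := l.2.2.2
  let S : Set (N × N) := {x | x ∈ s₁.1 ∨ m.1 = true ∧ x ∈ U}
  let T : Set N := {B | B ∈ s₁.2.1 ∨ ∃ C ∈ m.2, (B, C) ∈ U}
  let up : Set (N × N) := {x | ∃ C, (x.1, C) ∈ S ∧ (C, x.2) ∈ Up}
  let dn : Set N := {A | ∃ C, (A, C) ∈ Dn ∧ C ∈ T}
  (up ∪ s₂.1, (dn ∪ s₂.2.1,
    {A | A ∈ s₁.2.2 ∨ A ∈ s₂.2.2 ∨ (∃ B, (A, B) ∈ S ∧ B ∈ T) ∨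
      (∃ B, (A, B) ∈ up ∧ B ∈ s₂.2.1) ∨ (∃ B, (A, B) ∈ s₂.1 ∧ B ∈ dn)}))

/-- One step of the evaluation of a marked bracket word, from the right to the left. -/
def rstp (st : List (Sm N)) (e : Option (Lb N Λ) × Mk N) : List (Sm N) :=
  match e.1 with
  | none => sm0 :: st
  | some l => comb l e.2 (st.headD sm0) (st.tail.headD sm0) :: st.tail.tail

/-- The set of the states leading from the source to a target. -/
def rch (tw : List (Option (Lb N Λ) × Mk N)) : Set N :=
  ((tw.reverse.foldl rstp [sm0]).headD sm0).2.2

/-- Lifting of a walk relation to optional nodes. -/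
def walkO (walk : N → K → N → K → Prop) (A : N) (k : Option K) (B : N) (k' : Option K) : Prop :=
  ∃ v u, k = some v ∧ k' = some u ∧ walk A v B u

/-- The labels of the forest, below the node `P`, are true. -/
def SndF (walk : N → K → N → K → Prop) : Option K → Tr (Lb N Λ × K) → Prop
  | _, .nil => True
  | P, .nd a ch nx =>
    (∀ x ∈ a.1.2.1, walk x.1 a.2 x.2 a.2) ∧
    (∀ x ∈ a.1.2.2.1, walkO walk x.1 P x.2 (some a.2)) ∧
    (∀ x ∈ a.1.2.2.2, walkO walk x.1 (some a.2) x.2 P) ∧
    SndF walk (some a.2) ch ∧ SndF walk P nx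

/-- The labels of the forest, below the node `P`, are complete, and the walks between different
parts of the forest pass through the separating nodes. -/
def CmpF (walk : N → K → N → K → Prop) : Option K → Tr (Lb N Λ × K) → Prop
  | _, .nil => True
  | P, .nd a ch nx =>
    (∀ A B, walk A a.2 B a.2 → (A, B) ∈ a.1.2.1) ∧
    (∀ A B, walkO walk A P B (some a.2) → (A, B) ∈ a.1.2.2.1) ∧
    (∀ A B, walkO walk A (some a.2) B P → (A, B) ∈ a.1.2.2.2) ∧
    (∀ b ∈ ch.nodes, ∀ A B, walkO walk A (some b.2) B P →
      ∃ C, walk A b.2 C a.2 ∧ walkO walk C (some a.2) B P) ∧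
    (∀ b ∈ ch.nodes, ∀ A B, walkO walk A P B (some b.2) →
      ∃ C, walkO walk A P C (some a.2) ∧ walk C a.2 B b.2) ∧
    (∀ b ∈ a :: ch.nodes, ∀ b' ∈ nx.nodes, ∀ A B, walk A b.2 B b'.2 →
      ∃ C, walkO walk A (some b.2) C P ∧ walkO walk C P B (some b'.2)) ∧
    (∀ b ∈ a :: ch.nodes, ∀ b' ∈ nx.nodes, ∀ A B, walk A b'.2 B b.2 →
      ∃ C, walkO walk A (some b'.2) C P ∧ walkO walk C P B (some b.2)) ∧
    CmpF walk (some a.2) ch ∧ CmpF walk P nx

/-- The chart of a forest: its bracket word, together with the nodes. -/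
def chart (t : Tr (Lb N Λ × K)) : List (Option (Lb N Λ) × Option K) :=
  t.wd.map fun o => (o.map Prod.fst, o.map Prod.snd)

/-- Forgetting the nodes of a marked chart. -/
def fg {Z K' M : Type} (e : (Z × K') × M) : Z × M := (e.1.1, e.2)

end Pool.Agent.Lib.LinSpace.Ho
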