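import Pool.Agent.Lib.LinSpace.Ho.Defs
import Pool.Agent.Lib.LinSpace.RecN
import Pool.Agent.Lib.LinSpace.Ho.TreeDefs

section

/-!
Balanced decomposition of derivations with at most one hole.
-/

set_option autoImplicit false

namespace Pool.Agent.Lib.LinSpace.Ho

section Split

variable {N K T : Type} {walk : N → K → N → K → Prop} {tm : N → K → T → Prop}
  {bn : N → K → N → N → Prop} {tgt tgt' : N → K → Prop}

theorem Ev.ne_nil {A : N} {k : K} {W : List (Option T)} (h : Ev walk tm bn tgt A k W) :
    W ≠ [] := by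
  induction h with
  | hole _ _ => simp
  | term _ _ => simp
  | bin _ _ _ _ ih1 _ => simp [ih1]

theorem Ev.subst {A : N} {k : K} {W Y : List (Option T)} (h : Ev walk tm bn tgt' A k W)
    (hY : ∀ A' k' B k'', walk A' k' B k'' → tgt' B k'' → Ev walk tm bn tgt A' k' Y) :
    Ev walk tm bn tgt A k (W.flatMap fun o => match o with
      | none => Y
      | some a => [some a]) := by
  induction h with
  | hole hw ht => simpa using hY _ _ _ _ hw ht
  | term hw ht => simpa using Ev.term hw ht
  | bin hw hb _ _ ih1 ih2 =>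
    rw [List.flatMap_append]
    exact Ev.bin hw hb ih1 ih2

theorem Ev.tgt_irrel {A : N} {k : K} {W : List (Option T)} (h : Ev walk tm bn tgt A k W)
    (hW : none ∉ W) : Ev walk tm bn tgt' A k W := by
  induction h with
  | hole _ _ => simp at hW
  | term hw ht => exact Ev.term hw ht
  | bin hw hb _ _ ih1 ih2 =>
    rw [List.mem_append, not_or] at hW
    exact Ev.bin hw hb (ih1 hW.1) (ih2 hW.2)

theorem Ev.mono {walk' : N → K → N → K → Prop} {A : N} {k : K} {W : List (Option T)}
    (h : Ev walk tm bn tgt A k W) (hw : ∀ A k B k', walk A k B k' → walk' A k B k') :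
    Ev walk' tm bn tgt A k W := by
  induction h with
  | hole h1 h2 => exact Ev.hole (hw _ _ _ _ h1) h2
  | term h1 h2 => exact Ev.term (hw _ _ _ _ h1) h2
  | bin h1 h2 _ _ ih1 ih2 => exact Ev.bin (hw _ _ _ _ h1) h2 ih1 ih2

open Classical in
/-- The weight of a word with at most one hole. -/
noncomputable def wt (W : List (Option T)) : ℕ := (if none ∈ W then 4 else 3) * (W.length - 1)

theorem wt_of_mem {W : List (Option T)} (h : none ∈ W) : wt W = 4 * (W.length - 1) := by
  simp [wt, h]

theorem wt_of_notMem {W : List (Option T)} (h : none ∉ W) : wt W = 3 * (W.length - 1) := by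
  simp [wt, h]

theorem Ev.split_aux1 {A : N} {k : K} {W : List (Option T)} (h : Ev walk tm bn tgt A k W)
    (θ : ℕ) (hθ : 1 ≤ θ) (hW : none ∉ W) (hl : θ < W.length) :
    ∃ (B C E : N) (k' : K) (X Y₁ Y₂ Z : List (Option T)),
      W = X ++ (Y₁ ++ (Y₂ ++ Z)) ∧ Y₁.length ≤ θ ∧ Y₂.length ≤ θ ∧
      θ < Y₁.length + Y₂.length ∧ bn B k' C E ∧
      (∃ A' k'', walk A' k'' B k') ∧
      Ev walk tm bn (fun B' k'' => B' = B ∧ k'' = k') A k (X ++ none :: Z) ∧
      Ev walk tm bn tgt C k' Y₁ ∧ Ev walk tm bn tgt E k' Y₂ := by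
  induction h with
  | hole _ _ => simp at hW
  | term _ _ =>
    simp only [List.length_cons, List.length_nil] at hl
    omega
  | @bin A B C E k k' u v hw hb hu hv ih1 ih2 =>
    rw [List.mem_append, not_or] at hW
    by_cases h1 : θ < u.length
    · obtain ⟨B₁, C₁, E₁, k₁, X, Y₁, Y₂, Z, he, h2, h3, h4, h5, h6, h7, h8, h9⟩ := ih1 hW.1 h1
      refine ⟨B₁, C₁, E₁, k₁, X, Y₁, Y₂, Z ++ v, ?_, h2, h3, h4, h5, h6, ?_, h8, h9⟩
      · rw [he]
        simp
      · have := Ev.bin hw hb h7 (hv.tgt_irrel (tgt' := fun B' k'' => B' = B₁ ∧ k'' = k₁) hW.2)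
        simpa using this
    · by_cases h1' : θ < v.length
      · obtain ⟨B₁, C₁, E₁, k₁, X, Y₁, Y₂, Z, he, h2, h3, h4, h5, h6, h7, h8, h9⟩ :=
          ih2 hW.2 h1'
        refine ⟨B₁, C₁, E₁, k₁, u ++ X, Y₁, Y₂, Z, ?_, h2, h3, h4, h5, h6, ?_, h8, h9⟩
        · rw [he]
          simp
        · have := Ev.bin hw hb (hu.tgt_irrel (tgt' := fun B' k'' => B' = B₁ ∧ k'' = k₁) hW.1) h7
          simpa using this
      · refine ⟨B, C, E, k', [], u, v, [], by simp, by omega, by omega, ?_, hb, ⟨_, _, hw⟩,
          Ev.hole hw ⟨rfl, rfl⟩, hu, hv⟩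
        rw [List.length_append] at hl
        exact hl

theorem Ev.split_aux2 {A : N} {k : K} {W : List (Option T)} (h : Ev walk tm bn tgt A k W)
    (θ : ℕ) (hθ : 1 ≤ θ) (hW : W.countP (fun o => o.isNone) = 1) (hl : θ < W.length) :
    ∃ (B C E : N) (k' : K) (X Y₁ Y₂ Z : List (Option T)),
      W = X ++ (Y₁ ++ (Y₂ ++ Z)) ∧ none ∉ X ∧ none ∉ Z ∧
      ((none ∈ Y₁ ∧ Y₁.length ≤ θ ∧ none ∉ Y₂) ∨ (none ∈ Y₂ ∧ Y₂.length ≤ θ ∧ none ∉ Y₁)) ∧
      θ < Y₁.length + Y₂.length ∧ bn B k' C E ∧
      (∃ A' k'', walk A' k'' B k') ∧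
      Ev walk tm bn (fun B' k'' => B' = B ∧ k'' = k') A k (X ++ none :: Z) ∧
      Ev walk tm bn tgt C k' Y₁ ∧ Ev walk tm bn tgt E k' Y₂ := by
  have hcount : ∀ l : List (Option T), l.countP (fun o => o.isNone) = 0 → none ∉ l := by
    intro l hl hn
    rw [List.countP_eq_zero] at hl
    exact hl none hn rfl
  have hcount' : ∀ l : List (Option T), l.countP (fun o => o.isNone) = 1 → none ∈ l := by
    intro l hl
    have : 0 < l.countP (fun o => o.isNone) := by omega
    rw [List.countP_pos_iff] at this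
    obtain ⟨a, ha, hn⟩ := this
    rw [Option.isNone_iff_eq_none] at hn
    rwa [hn] at ha
  induction h with
  | hole _ _ =>
    simp only [List.length_cons, List.length_nil] at hl
    omega
  | term _ _ =>
    simp only [List.length_cons, List.length_nil] at hl
    omega
  | @bin A B C E k k' u v hw hb hu hv ih1 ih2 =>
    rw [List.countP_append] at hW
    rw [List.length_append] at hl
    have hcase : (u.countP (fun o => o.isNone) = 1 ∧ v.countP (fun o => o.isNone) = 0) ∨
        (u.countP (fun o => o.isNone) = 0 ∧ v.countP (fun o => o.isNone) = 1) := by omega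
    rcases hcase with ⟨hcu, hcv⟩ | ⟨hcu, hcv⟩
    · by_cases h1 : θ < u.length
      · obtain ⟨B₁, C₁, E₁, k₁, X, Y₁, Y₂, Z, he, hX, hZ, h2, h4, h5, h6, h7, h8, h9⟩ :=
          ih1 hcu h1
        refine ⟨B₁, C₁, E₁, k₁, X, Y₁, Y₂, Z ++ v, ?_, hX, ?_, h2, h4, h5, h6, ?_, h8, h9⟩
        · rw [he]
          simp
        · rw [List.mem_append, not_or]
          exact ⟨hZ, hcount v hcv⟩
        · have := Ev.bin hw hb h7
            (hv.tgt_irrel (tgt' := fun B' k'' => B' = B₁ ∧ k'' = k₁) (hcount v hcv))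
          simpa using this
      · exact ⟨B, C, E, k', [], u, v, [], by simp, by simp, by simp,
          Or.inl ⟨hcount' u hcu, by omega, hcount v hcv⟩, hl, hb, ⟨_, _, hw⟩,
          Ev.hole hw ⟨rfl, rfl⟩, hu, hv⟩
    · by_cases h1 : θ < v.length
      · obtain ⟨B₁, C₁, E₁, k₁, X, Y₁, Y₂, Z, he, hX, hZ, h2, h4, h5, h6, h7, h8, h9⟩ :=
          ih2 hcv h1
        refine ⟨B₁, C₁, E₁, k₁, u ++ X, Y₁, Y₂, Z, ?_, ?_, hZ, h2, h4, h5, h6, ?_, h8, h9⟩
        · rw [he]
          simp
        · rw [List.mem_append, not_or]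
          exact ⟨hcount u hcu, hX⟩
        · have := Ev.bin hw hb
            (hu.tgt_irrel (tgt' := fun B' k'' => B' = B₁ ∧ k'' = k₁) (hcount u hcu)) h7
          simpa using this
      · exact ⟨B, C, E, k', [], u, v, [], by simp, by simp, by simp,
          Or.inr ⟨hcount' v hcv, by omega, hcount u hcu⟩, hl, hb, ⟨_, _, hw⟩,
          Ev.hole hw ⟨rfl, rfl⟩, hu, hv⟩

theorem Ev.split {A : N} {k : K} {W : List (Option T)} (h : Ev walk tm bn tgt A k W)
    (h2 : 2 ≤ W.length) (h1 : W.countP (fun o => o.isNone) ≤ 1) :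
    ∃ (B C E : N) (k' : K) (X Y₁ Y₂ Z : List (Option T)),
      W = X ++ (Y₁ ++ (Y₂ ++ Z)) ∧ none ∉ X ∧ none ∉ Z ∧ bn B k' C E ∧
      (∃ A' k'', walk A' k'' B k') ∧
      Ev walk tm bn (fun B' k'' => B' = B ∧ k'' = k') A k (X ++ none :: Z) ∧
      Ev walk tm bn tgt C k' Y₁ ∧ Ev walk tm bn tgt E k' Y₂ ∧
      4 * wt (X ++ none :: Z) ≤ 3 * wt W ∧ 4 * wt Y₁ ≤ 3 * wt W ∧ 4 * wt Y₂ ≤ 3 * wt W := by
  have hθ : 1 ≤ W.length / 2 := by omega
  have hl : W.length / 2 < W.length := by omega
  by_cases hW : none ∈ W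
  · have hc : W.countP (fun o => o.isNone) = 1 := by
      have : 0 < W.countP (fun o => o.isNone) := by
        rw [List.countP_pos_iff]
        exact ⟨none, hW, rfl⟩
      omega
    obtain ⟨B, C, E, k', X, Y₁, Y₂, Z, he, hX, hZ, h3, h4, h5, h6, h7, h8, h9⟩ :=
      h.split_aux2 _ hθ hc hl
    refine ⟨B, C, E, k', X, Y₁, Y₂, Z, he, hX, hZ, h5, h6, h7, h8, h9, ?_⟩
    have hY1 : 1 ≤ Y₁.length := List.length_pos_iff.2 h8.ne_nil
    have hY2 : 1 ≤ Y₂.length := List.length_pos_iff.2 h9.ne_nil
    have hlen : W.length = X.length + (Y₁.length + (Y₂.length + Z.length)) := by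
      rw [he]
      simp
    have hmem : none ∈ X ++ none :: Z := by simp
    rw [wt_of_mem hW, wt_of_mem hmem]
    have hlen2 : (X ++ none :: Z).length = X.length + (Z.length + 1) := by simp
    rw [hlen2]
    rcases h3 with ⟨ha, hb, hc⟩ | ⟨ha, hb, hc⟩
    · rw [wt_of_mem ha, wt_of_notMem hc]
      refine ⟨?_, ?_, ?_⟩ <;> omega
    · rw [wt_of_mem ha, wt_of_notMem hc]
      refine ⟨?_, ?_, ?_⟩ <;> omega
  · obtain ⟨B, C, E, k', X, Y₁, Y₂, Z, he, h3, h3', h4, h5, h6, h7, h8, h9⟩ :=
      h.split_aux1 _ hθ hW hl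
    have hW' := hW
    rw [he] at hW'
    simp only [List.mem_append, not_or] at hW'
    refine ⟨B, C, E, k', X, Y₁, Y₂, Z, he, hW'.1, hW'.2.2.2, h5, h6, h7, h8, h9, ?_⟩
    have hlen : W.length = X.length + (Y₁.length + (Y₂.length + Z.length)) := by
      rw [he]
      simp
    have hmem : none ∈ X ++ none :: Z := by simp
    rw [wt_of_notMem hW, wt_of_mem hmem, wt_of_notMem hW'.2.1, wt_of_notMem hW'.2.2.1]
    have hlen2 : (X ++ none :: Z).length = X.length + (Z.length + 1) := by simp
    rw [hlen2]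
    refine ⟨?_, ?_, ?_⟩ <;> omega

end Split

end Pool.Agent.Lib.LinSpace.Ho
end

section

/-!
Derivations over a chart: a divide and conquer algorithm in linear space which decides whether a
word is generated from a marked position of a chart.
-/

set_option autoImplicit false
set_option linter.unusedSimpArgs false
set_option linter.unusedSectionVars false

namespace Pool.Agent.Lib.LinSpace.Ho

open RecN Var

section Engine

variable {N T Z : Type} [Finite N] [Finite T] [Finite Z] [Enc N] [Enc Z] [Nonempty N]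
  [Nonempty Z]

/-- Letters of the marked chart, with a third mark. -/
abbrev EB (N Z : Type) := (Z × Mk N) × Bool

/-- Instances: nonterminal, word, marked chart; parameter, budget, bound for the length of the
chart. -/
abbrev EIns (N T Z : Type) :=
  ((N × List (Option T)) × List (Z × Mk N)) × (List Bool × (List (List Bool) × List Bool))

/-- Guesses: the rule applied, the parts of the word, the script of the third mark, the budgets
and the new bound. -/
abbrev EGue (N T Z : Type) :=
  Option (N × (N × N)) ×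
    (((List (Option T) × List (Option T)) × (List (Option T) × List (Option T))) ×
      (Script (EB N Z) × (List (List Bool) × (List (List Bool) × (List (List Bool) ×
        List Bool)))))

/-- The measure. -/
def ems (x : EIns N T Z) : List Bool := (x.2.2.1.flatMap fun i => true :: i) ++ x.2.2.2

/-- The instances decided directly. -/
def ebase (x : EIns N T Z) : Bool := decide (x.1.1.2.length ≤ [()].length) || x.2.2.1.isEmpty

/-- The marks for a leaf. -/
def leaf (lblT : Z → T → Set N) (p : Option T × (Z × Mk N)) : Z × Mk N :=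
  match p.1 with
  | none => p.2
  | some a => (p.2.1, (p.2.2.1, lblT p.2.1 a))

open Classical in
/-- The value of an instance decided directly. -/
noncomputable def ebval (lblT : Z → T → Set N) (rc : List (Z × Mk N) → Set N)
    (x : EIns N T Z) : Bool :=
  (!x.1.1.2.isEmpty && x.1.1.2.tail.isEmpty) &&
    decide (x.1.1.1 ∈ rc (x.1.2.map fun e => leaf lblT (x.1.1.2.headD none, e)))

/-- The chart with the third mark. -/
noncomputable def et (p : EIns N T Z × EGue N T Z) : List (EB N Z) :=
  dec p.2.2.2.1 (p.1.1.2.map fun e => (e, false))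

open Classical in
/-- The test of the rule at the marked position. -/
noncomputable def okL (lblB : Z → N → N → N → Prop) (p : Option (N × (N × N)) × Z) : Bool :=
  decide (∃ B C E, p.1 = some (B, (C, E)) ∧ lblB p.2 B C E)

open Classical in
/-- The test. -/
noncomputable def echk (lblB : Z → N → N → N → Prop) (p : EIns N T Z × EGue N T Z) : Bool :=
  (decide (p.2.2.1.1.1 ++ (p.2.2.1.1.2 ++ (p.2.2.1.2.1 ++ p.2.2.1.2.2)) = p.1.1.1.2) &&
    (p.2.2.1.1.1.all (fun o => o.isSome) && p.2.2.1.2.2.all (fun o => o.isSome))) &&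
  (decide ((et p).map Prod.fst = p.1.1.2) &&
    ((!((et p).filter Prod.snd).isEmpty && ((et p).filter Prod.snd).tail.isEmpty) &&
      ((et p).filter Prod.snd).all fun e => okL lblB (p.2.1, e.1.1)))

/-- The rule guessed. -/
def ehd (p : Option (N × (N × N)) × N) : N × (N × N) := p.1.getD (p.2, (p.2, p.2))

open Classical in
/-- The marks of the outer instance. -/
noncomputable def mkO (p : N × EB N Z) : Z × Mk N :=
  (p.2.1.1, (p.2.1.2.1, if p.2.2 then {p.1} else ∅))

/-- The marks of the inner instances. -/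
def mkI (e : EB N Z) : Z × Mk N := (e.1.1, (e.2, e.1.2.2))

/-- The subinstances. -/
noncomputable def ech (p : (EIns N T Z × EGue N T Z) × List Bool) : EIns N T Z :=
  if p.2.isEmpty then
    (((p.1.1.1.1.1, p.1.2.2.1.1.1 ++ (none :: p.1.2.2.1.2.2)),
      (et p.1).map fun e => mkO ((ehd (p.1.2.1, p.1.1.1.1.1)).1, e)),
      (true :: p.1.1.2.1, (p.1.2.2.2.2.1, p.1.2.2.2.2.2.2.2)))
  else
    if p.2.tail.isEmpty then
      ((((ehd (p.1.2.1, p.1.1.1.1.1)).2.1, p.1.2.2.1.1.2), (et p.1).map mkI),
        (true :: p.1.1.2.1, (p.1.2.2.2.2.2.1, p.1.2.2.2.2.2.2.2)))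
    else
      ((((ehd (p.1.2.1, p.1.1.1.1.1)).2.2, p.1.2.2.1.2.1), (et p.1).map mkI),
        (true :: p.1.1.2.1, (p.1.2.2.2.2.2.2.1, p.1.2.2.2.2.2.2.2)))

/-! ### Soundness -/

theorem pull {α β : Type} (f : α → β) : ∀ (X : List α) (t : List (β × Bool)),
    t.map Prod.fst = X.map f → ∃ Y : List (α × Bool), Y.map Prod.fst = X ∧
      Y.map (fun e => (f e.1, e.2)) = t
  | [], t, h => by
    rw [List.map_nil, List.map_eq_nil_iff] at h
    exact ⟨[], rfl, by rw [h]; rfl⟩
  | x :: X, t, h => by
    rw [List.map_cons] at h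
    cases t with
    | nil => simp at h
    | cons e t =>
      rw [List.map_cons, List.cons.injEq] at h
      obtain ⟨Y, h1, h2⟩ := pull f X t h.2
      refine ⟨(x, e.2) :: Y, by rw [List.map_cons, h1], ?_⟩
      rw [List.map_cons, h2]
      simp only [← h.1]

theorem flatMap_none_free (g : Option T → List (Option T)) (hg : ∀ a, g (some a) = [some a])
    (X : List (Option T)) (h : none ∉ X) : X.flatMap g = X := by
  induction X with
  | nil => rfl
  | cons o X ih =>
    rw [List.mem_cons, not_or] at h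
    rw [List.flatMap_cons, ih h.2]
    cases o with
    | none => exact absurd rfl h.1
    | some a => rw [hg]; rfl

theorem flatMap_hole (g : Option T → List (Option T)) {X Y : List (Option T)} (hX : none ∉ X)
    (hY : none ∉ Y) (hg : ∀ a, g (some a) = [some a]) :
    (X ++ none :: Y).flatMap g = X ++ (g none ++ Y) := by
  rw [List.flatMap_append, List.flatMap_cons, flatMap_none_free g hg X hX,
    flatMap_none_free g hg Y hY]

theorem all_isSome {X : List (Option T)} : X.all (fun o => o.isSome) = true ↔ none ∉ X := by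
  rw [List.all_eq_true]
  constructor
  · intro h h1
    exact absurd (h _ h1) (by simp)
  · intro h o ho
    cases o with
    | none => exact absurd ho h
    | some a => rfl

variable {lblT : Z → T → Set N} {lblB : Z → N → N → N → Prop} {rc : List (Z × Mk N) → Set N}

theorem engine_sound {K : Type} {walk : N → K → N → K → Prop} {tm : N → K → T → Prop}
    {bn : N → K → N → N → Prop} {ζ : List (Z × K)}
    (hs : ∀ X : List ((Z × K) × Mk N), X.map Prod.fst = ζ → ∀ A ∈ rc (X.map fg),
      ∃ x ∈ X, ∃ y ∈ X, ∃ B ∈ y.2.2, x.2.1 = true ∧ walk A x.1.2 B y.1.2)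
    (hT : ∀ z ∈ ζ, ∀ B a, B ∈ lblT z.1 a → tm B z.2 a)
    (hB : ∀ z ∈ ζ, ∀ B C E, lblB z.1 B C E → bn B z.2 C E)
    {C Bd : ℕ} {x : EIns N T Z}
    (h : RecN.Rec C 3 ebase (ebval lblT rc) ems (echk lblB) ech Bd x) :
    ∀ X : List ((Z × K) × Mk N), X.map Prod.fst = ζ → X.map fg = x.1.2 → ∀ k,
      (∀ e ∈ X, e.2.1 = true → e.1.2 = k) →
      Ev walk tm bn (fun B k' => ∃ e ∈ X, e.1.2 = k' ∧ B ∈ e.2.2) x.1.1.1 k x.1.1.2 := by
  induction h with
  | @base x h1 h2 =>
    intro X hX1 hX2 k hk
    obtain ⟨⟨⟨A, W⟩, tw⟩, r⟩ := x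
    simp only [ebval, Bool.and_eq_true, decide_eq_true_eq, Bool.not_eq_true',
      List.isEmpty_iff, List.isEmpty_eq_false_iff] at h2
    simp only at hX2
    obtain ⟨⟨h3, h4⟩, h5⟩ := h2
    subst hX2
    match W, h3, h4, h5 with
    | [o], _, _, h5 =>
      rw [List.headD_cons] at h5
      cases o with
      | none =>
        have e : ((X.map fg).map fun e => leaf lblT ((none : Option T), e)) = X.map fg := by
          simp [leaf]
        rw [e] at h5
        obtain ⟨x, hx, y, hy, B, hB1, hx1, hw⟩ := hs X hX1 A h5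
        rw [hk x hx hx1] at hw
        exact .hole hw ⟨y, hy, rfl, hB1⟩
      | some a =>
        have e : ((X.map fg).map fun e => leaf lblT (some a, e)) =
            (X.map fun e => (e.1, (e.2.1, lblT e.1.1 a))).map fg := by
          simp [leaf, fg]
        rw [e] at h5
        obtain ⟨x, hx, y, hy, B, hB1, hx1, hw⟩ := hs (X.map fun e => (e.1, (e.2.1,
          lblT e.1.1 a))) (by rw [List.map_map]; exact hX1) A h5
        obtain ⟨x', hx', rfl⟩ := List.mem_map.1 hx
        obtain ⟨y', hy', rfl⟩ := List.mem_map.1 hy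
        simp only at hw hB1 hx1
        rw [hk x' hx' hx1] at hw
        refine .term hw (hT y'.1 ?_ B a hB1)
        rw [← hX1]
        exact List.mem_map_of_mem hy'
  | @node x j h1 _ _ h4 _ ih =>
    set y := gu (EGue N T Z) (bits (C * (ems x).length + C + 1) j) with hy
    intro X hX1 hX2 k hk
    have hc := h4.1
    simp only [echk, Bool.and_eq_true, decide_eq_true_eq, Bool.not_eq_true',
      List.isEmpty_iff, List.isEmpty_eq_false_iff, all_isSome] at hc
    obtain ⟨⟨hc1, hc2, hc3⟩, hc4, ⟨hc5, hc6⟩, hc7⟩ := hc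
    have hc4' : (et (x, y)).map Prod.fst = X.map fg := by rw [hX2]; exact hc4
    obtain ⟨Y, hY1, hY2⟩ := pull fg X (et (x, y)) hc4'
    -- the marked element
    obtain ⟨e3, he3⟩ : ∃ e3, Y.filter Prod.snd = [e3] := by
      have e : (et (x, y)).filter Prod.snd =
          (Y.filter Prod.snd).map fun e => (fg e.1, e.2) := by
        rw [← hY2, List.filter_map]
        rfl
      rw [e] at hc5 hc6
      cases hf : Y.filter Prod.snd with
      | nil => rw [hf] at hc5; simp at hc5
      | cons a l =>
        rw [hf, List.map_cons, List.tail_cons, List.map_eq_nil_iff] at hc6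
        exact ⟨a, by rw [hc6]⟩
    have hmem : e3 ∈ Y ∧ e3.2 = true := by
      have : e3 ∈ Y.filter Prod.snd := by rw [he3]; exact List.mem_singleton_self _
      exact List.mem_filter.1 this
    have huniq : ∀ e ∈ Y, e.2 = true → e = e3 := by
      intro e he h
      have : e ∈ Y.filter Prod.snd := List.mem_filter.2 ⟨he, h⟩
      rw [he3] at this
      exact List.mem_singleton.1 this
    have hmemζ : ∀ e ∈ Y, e.1.1 ∈ ζ := by
      intro e he
      rw [← hX1, ← hY1, List.map_map]
      exact List.mem_map.2 ⟨e, he, rfl⟩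
    have hok : okL lblB (y.1, e3.1.1.1) = true := by
      rw [List.all_eq_true] at hc7
      refine hc7 ((fg e3.1, e3.2)) ?_
      rw [List.mem_filter, ← hY2]
      exact ⟨List.mem_map.2 ⟨e3, hmem.1, rfl⟩, hmem.2⟩
    simp only [okL, decide_eq_true_eq] at hok
    obtain ⟨B, C', E', hy1, hlb⟩ := hok
    have hhd : ehd (y.1, x.1.1.1) = (B, (C', E')) := by
      rw [ehd, hy1]; rfl
    have hbn := hB _ (hmemζ e3 hmem.1) B C' E' hlb
    -- the outer instance
    have o0 := ih 0 (by omega)
    have o1 := ih 1 (by omega)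
    have o2 := ih 2 (by omega)
    have c0 : ech ((x, y), un 0) = (((x.1.1.1, y.2.1.1.1 ++ (none :: y.2.1.2.2)),
        (et (x, y)).map fun e => mkO ((ehd (y.1, x.1.1.1)).1, e)),
        (true :: x.2.1, (y.2.2.2.1, y.2.2.2.2.2.2))) := by
      simp [ech]
    have c1 : ech ((x, y), un 1) = ((((ehd (y.1, x.1.1.1)).2.1, y.2.1.1.2),
        (et (x, y)).map mkI), (true :: x.2.1, (y.2.2.2.2.1, y.2.2.2.2.2.2))) := by
      simp [ech]
    have c2 : ech ((x, y), un 2) = ((((ehd (y.1, x.1.1.1)).2.2, y.2.1.2.1),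
        (et (x, y)).map mkI), (true :: x.2.1, (y.2.2.2.2.2.1, y.2.2.2.2.2.2))) := by
      simp [ech, List.replicate_succ]
    rw [c0] at o0
    rw [c1] at o1
    rw [c2] at o2
    rw [hhd] at o0 o1 o2
    simp only at o0 o1 o2
    classical
    have p0 := o0 (Y.map fun e => (e.1.1, (e.1.2.1, if e.2 then {B} else (∅ : Set N))))
      (by rw [List.map_map, ← hX1, ← hY1, List.map_map]; rfl)
      (by rw [List.map_map, ← hY2, List.map_map]; rfl) k (by
        intro e he h
        obtain ⟨e', he', rfl⟩ := List.mem_map.1 he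
        refine hk e'.1 ?_ h
        rw [← hY1]
        exact List.mem_map_of_mem he')
    have pI : ∀ (A' : N) (W' : List (Option T)),
        (∀ X : List ((Z × K) × Mk N), X.map Prod.fst = ζ → X.map fg = (et (x, y)).map mkI →
          ∀ k, (∀ e ∈ X, e.2.1 = true → e.1.2 = k) →
          Ev walk tm bn (fun B k' => ∃ e ∈ X, e.1.2 = k' ∧ B ∈ e.2.2) A' k W') →
        Ev walk tm bn (fun B k' => ∃ e ∈ X, e.1.2 = k' ∧ B ∈ e.2.2) A' e3.1.1.2 W' := by
      intro A' W' h
      have h2 := h (Y.map fun e => (e.1.1, (e.2, e.1.2.2)))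
        (by rw [List.map_map, ← hX1, ← hY1, List.map_map]; rfl)
        (by rw [List.map_map, ← hY2, List.map_map]; rfl) e3.1.1.2 (by
          intro e he h
          obtain ⟨e', he', rfl⟩ := List.mem_map.1 he
          rw [huniq e' he' h])
      have e : (fun B k' => ∃ e ∈ Y.map (fun e => (e.1.1, (e.2, e.1.2.2))), e.1.2 = k' ∧
          B ∈ e.2.2) = fun B k' => ∃ e ∈ X, e.1.2 = k' ∧ B ∈ e.2.2 := by
        funext B k'
        rw [← hY1]
        simp only [List.mem_map, exists_exists_and_eq_and, eq_iff_iff]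
      rwa [e] at h2
    have p1 := pI _ _ o1
    have p2 := pI _ _ o2
    have key := Ev.subst (Y := y.2.1.1.2 ++ y.2.1.2.1)
      (tgt := fun B k' => ∃ e ∈ X, e.1.2 = k' ∧ B ∈ e.2.2) p0 (by
        rintro A' k' B' k'' hw ⟨e, he, rfl, hB'⟩
        obtain ⟨e', he', rfl⟩ := List.mem_map.1 he
        simp only at hB' hw
        cases hb : e'.2 with
        | false => rw [hb] at hB'; simp at hB'
        | true =>
          rw [hb] at hB'
          simp only [if_true, Set.mem_singleton_iff] at hB'
          subst hB'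
          have := huniq e' he' hb
          subst this
          exact .bin hw hbn p1 p2)
    rw [flatMap_hole _ hc2 hc3] at key
    · rw [← hc1]
      simpa only [List.append_assoc] using key
    · intro a; rfl

/-! ### Completeness -/

theorem ems_length (x : EIns N T Z) :
    (ems x).length = (x.2.2.1.map fun i => i.length + 1).sum + x.2.2.2.length := by
  rw [ems, List.length_append, List.length_flatMap]
  simp

theorem wt_ge {W : List (Option T)} (h : 2 ≤ W.length) : W.length ≤ Ho.wt W := by
  classical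
  unfold Ho.wt
  have h1 : 3 * (W.length - 1) ≤ (if none ∈ W then 4 else 3) * (W.length - 1) := by
    apply Nat.mul_le_mul_right
    split <;> omega
  omega

theorem sz_replicate_le' {γ : Type} [Enc γ] (a : γ) (n : ℕ) :
    sz (List.replicate n a) ≤ (sz a + 1) * n + 1 := by
  have := sz_list_le (D := sz a) (List.replicate n a) fun b hb => by
    rw [List.eq_of_mem_replicate hb]
  simpa using this

theorem engine_leaf {K : Type} {walk : N → K → N → K → Prop} {tm : N → K → T → Prop}
    {bn : N → K → N → N → Prop} {ζ : List (Z × K)}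
    (hc : ∀ X : List ((Z × K) × Mk N), X.map Prod.fst = ζ → ∀ (A B : N)
      (x y : (Z × K) × Mk N), x ∈ X → y ∈ X → x.2.1 = true → B ∈ y.2.2 →
      walk A x.1.2 B y.1.2 → A ∈ rc (X.map fg))
    (hT : ∀ z ∈ ζ, ∀ B a, tm B z.2 a → B ∈ lblT z.1 a)
    (hV : ∀ A k B k', walk A k B k' → ∃ z ∈ ζ, z.2 = k')
    {C Bd : ℕ} {x : EIns N T Z} {X : List ((Z × K) × Mk N)} {tgt : N → K → Prop} {k : K}
    (hX1 : X.map Prod.fst = ζ) (hX2 : X.map fg = x.1.2)
    (hsrc : ∃ e ∈ X, e.2.1 = true ∧ e.1.2 = k)
    (htgt : ∀ B k', tgt B k' → ∃ e ∈ X, e.1.2 = k' ∧ B ∈ e.2.2)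
    (hev : Ev walk tm bn tgt x.1.1.1 k x.1.1.2) (hlen : x.1.1.2.length ≤ 1) :
    RecN.Rec C 3 ebase (ebval lblT rc) ems (echk lblB) ech Bd x := by
  obtain ⟨⟨⟨A, W⟩, tw⟩, r⟩ := x
  simp only at hX2 hev hlen
  subst hX2
  obtain ⟨e0, he0, hm0, rfl⟩ := hsrc
  have hb : ebase ((((A, W), X.map fg), r) : EIns N T Z) = true := by
    simp only [ebase, Bool.or_eq_true, decide_eq_true_eq, List.length_cons, List.length_nil]
    left; omega
  refine .base hb ?_
  cases hev with
  | @hole _ B _ k' hw ht =>
    obtain ⟨e, he, rfl, hB⟩ := htgt B k' ht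
    simp only [ebval, Bool.and_eq_true, decide_eq_true_eq, Bool.not_eq_true',
      List.isEmpty_iff, List.isEmpty_eq_false_iff, List.headD_cons, List.tail_cons]
    have e' : ((X.map fg).map fun e => leaf lblT ((none : Option T), e)) = X.map fg := by
      simp [leaf]
    rw [e']
    exact ⟨⟨by simp, trivial⟩, hc X hX1 A B e0 e he0 he hm0 hB hw⟩
  | @term _ B _ k' a hw ht =>
    simp only [ebval, Bool.and_eq_true, decide_eq_true_eq, Bool.not_eq_true',
      List.isEmpty_iff, List.isEmpty_eq_false_iff, List.headD_cons, List.tail_cons]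
    have e' : ((X.map fg).map fun e => leaf lblT (some a, e)) =
        (X.map fun e => (e.1, (e.2.1, lblT e.1.1 a))).map fg := by
      simp [leaf, fg]
    rw [e']
    obtain ⟨z, hz, rfl⟩ := hV _ _ _ _ hw
    obtain ⟨e, he, rfl⟩ := List.mem_map.1 (hX1 ▸ hz)
    refine ⟨⟨by simp, trivial⟩, hc (X.map fun e => (e.1, (e.2.1, lblT e.1.1 a)))
      (by rw [List.map_map]; exact hX1) A B _ _ (List.mem_map_of_mem he0)
      (List.mem_map_of_mem he) hm0 (hT e.1 hz B a ht) hw⟩
  | bin hw hb h1 h2 =>
    rw [List.length_append] at hlen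
    have := List.length_pos_iff.2 h1.ne_nil
    have := List.length_pos_iff.2 h2.ne_nil
    omega

theorem engine_complete {K : Type} {walk : N → K → N → K → Prop} {tm : N → K → T → Prop}
    {bn : N → K → N → N → Prop} {ζ : List (Z × K)}
    (hc : ∀ X : List ((Z × K) × Mk N), X.map Prod.fst = ζ → ∀ (A B : N)
      (x y : (Z × K) × Mk N), x ∈ X → y ∈ X → x.2.1 = true → B ∈ y.2.2 →
      walk A x.1.2 B y.1.2 → A ∈ rc (X.map fg))
    (hT : ∀ z ∈ ζ, ∀ B a, tm B z.2 a → B ∈ lblT z.1 a)
    (hB : ∀ z ∈ ζ, ∀ B C E, bn B z.2 C E → lblB z.1 B C E)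
    (hV : ∀ A k B k', walk A k B k' → ∃ z ∈ ζ, z.2 = k')
    {D M Bd : ℕ} (hD1 : ∀ a : N, sz a ≤ D) (hD2 : ∀ o : Option T, sz o ≤ D)
    (hD3 : ∀ e : Z × Mk N, sz e ≤ D) (hD4 : ∀ o : Option (EB N Z), sz o ≤ D)
    (hD5 : ∀ o : Option (N × (N × N)), sz o ≤ D)
    (hBd : (2 * D + 14) * M + (D + 10) ≤ Bd) (n : ℕ) :
    ∀ x : EIns N T Z, x.2.2.1.length ≤ n → x.2.2.1.length = Ho.wt x.1.1.2 →
      x.1.1.2.countP (fun o => o.isNone) ≤ 1 → x.1.1.2.length ≤ M → x.1.2.length ≤ M →
      x.2.1.length + x.2.2.1.length ≤ M → (∀ i ∈ x.2.2.1, i.length = x.2.1.length) →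
      5 ≤ x.2.1.length → x.1.2.length < 2 ^ x.2.1.length * (x.2.2.2.length + 1) →
      (ems x).length ≤ M →
      ∀ (X : List ((Z × K) × Mk N)) (tgt : N → K → Prop) (k : K), X.map Prod.fst = ζ →
        X.map fg = x.1.2 → (∃ e ∈ X, e.2.1 = true ∧ e.1.2 = k) →
        (∀ B k', tgt B k' → ∃ e ∈ X, e.1.2 = k' ∧ B ∈ e.2.2) →
        Ev walk tm bn tgt x.1.1.1 k x.1.1.2 →
        RecN.Rec (2 * D + 30) 3 ebase (ebval lblT rc) ems (echk lblB) ech Bd x := by
  classical
  induction n with
  | zero =>
    intro x hn hVw _ _ _ _ _ _ _ _ X tgt k hX1 hX2 hsrc htgt hev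
    have hlen : x.1.1.2.length ≤ 1 := by
      by_contra h
      have := wt_ge (W := x.1.1.2) (by omega)
      omega
    exact engine_leaf hc hT hV hX1 hX2 hsrc htgt hev hlen
  | succ n ih =>
    intro x hn hVw hcnt hM1 hM2 hM3 hA ha hN hms X tgt k hX1 hX2 hsrc htgt hev
    rcases Nat.lt_or_ge 1 x.1.1.2.length with hlen | hlen
    swap
    · exact engine_leaf hc hT hV hX1 hX2 hsrc htgt hev hlen
    obtain ⟨⟨⟨A, W⟩, tw⟩, ⟨a, ⟨V, Nn⟩⟩⟩ := x
    simp only at hn hVw hcnt hM1 hM2 hM3 hA ha hN hX2 hev hlen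
    have hWV := wt_ge (W := W) hlen
    obtain ⟨B, C, E, k', Xw, Y₁, Y₂, Zw, hW, hXw, hZw, hbn, ⟨A', k'', hwalk⟩, ev0, ev1, ev2,
      hw0, hw1, hw2⟩ := hev.split hlen hcnt
    have hms' : (ems ((((A, W), tw), (a, (V, Nn))) : EIns N T Z)).length =
        V.length * (a.length + 1) + Nn.length := by
      rw [ems_length]
      simp only
      congr 1
      have : (V.map fun i => i.length + 1) = List.replicate V.length (a.length + 1) := by
        rw [List.eq_replicate_iff]
        refine ⟨by simp, fun b hb => ?_⟩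
        obtain ⟨i, hi, rfl⟩ := List.mem_map.1 hb
        rw [hA i hi]
      rw [this, List.sum_replicate, smul_eq_mul]
    set b := a.length with hadef
    set μ := V.length * (b + 1) + Nn.length with hμ
    rw [hms'] at hms
    -- the marked element
    obtain ⟨z, hz, hzk⟩ := hV _ _ _ _ hwalk
    rw [← hX1] at hz
    obtain ⟨e3, he3, rfl⟩ := List.mem_map.1 hz
    obtain ⟨Xa, Xb, rfl⟩ := List.append_of_mem he3
    subst hzk
    set Y : List (((Z × K) × Mk N) × Bool) := Xa.map (fun e => (e, false)) ++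
      (e3, true) :: Xb.map (fun e => (e, false)) with hY
    have hY1 : Y.map Prod.fst = Xa ++ e3 :: Xb := by
      rw [hY]; simp [Function.comp_def]
    have hmemY : ∀ e ∈ Xa ++ e3 :: Xb, ∃ f ∈ Y, f.1 = e := by
      intro e he
      rw [← hY1] at he
      exact List.mem_map.1 he
    have h3Y : (e3, true) ∈ Y := by rw [hY]; simp
    have hed : Edits 1 (tw.map fun e => (e, false))
        (Y.map fun e => (fg e.1, e.2)) := by
      refine .step (.refl _) ⟨(Xa.map fg).map fun e => (e, false), [(fg e3, false)],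
        [(fg e3, true)], (Xb.map fg).map fun e => (e, false), ?_, ?_, by simp, by simp⟩
      · rw [← hX2]; simp
      · rw [hY]; simp [Function.comp_def]
    have htwl : (tw.map fun e => ((e, false) : EB N Z)).length < 2 ^ b * (Nn.length + 1) := by
      rw [List.length_map]; exact hN
    obtain ⟨s, hs1, hs2, hs3⟩ := exists_script hD4 hed b Nn.length htwl
    -- the guess
    let P : ℕ → List (List Bool) := fun l => List.replicate l (List.replicate (b + 1) true)
    let N' : List Bool := List.replicate (Nn.length / 2) true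
    let y : EGue N T Z := (some (B, (C, E)), (((Xw, Y₁), (Y₂, Zw)),
      (s, (P (Ho.wt (Xw ++ none :: Zw)), (P (Ho.wt Y₁), (P (Ho.wt Y₂), N'))))))
    have het : et ((((A, W), tw), (a, (V, Nn))), y) = Y.map fun e => (fg e.1, e.2) := hs1
    have hhd : ehd (y.1, A) = (B, (C, E)) := rfl
    have c0 : ech (((((A, W), tw), (a, (V, Nn))), y), un 0) =
        (((A, Xw ++ none :: Zw), (Y.map fun e => (fg e.1, e.2)).map fun e => mkO (B, e)),
          (true :: a, (P (Ho.wt (Xw ++ none :: Zw)), N'))) := by
      rw [← het]; simp [ech, y, ehd]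
    have c1 : ech (((((A, W), tw), (a, (V, Nn))), y), un 1) =
        (((C, Y₁), (Y.map fun e => (fg e.1, e.2)).map mkI),
          (true :: a, (P (Ho.wt Y₁), N'))) := by
      rw [← het]; simp [ech, y, ehd]
    have c2 : ech (((((A, W), tw), (a, (V, Nn))), y), un 2) =
        (((E, Y₂), (Y.map fun e => (fg e.1, e.2)).map mkI),
          (true :: a, (P (Ho.wt Y₂), N'))) := by
      rw [← het]; simp [ech, y, ehd, List.replicate_succ]
    -- sizes
    have hpow : 2 ^ (b + 1) * (Nn.length / 2 + 1) ≥ 2 ^ b * (Nn.length + 1) := by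
      rw [Nat.pow_succ, Nat.mul_assoc]
      exact Nat.mul_le_mul_left _ (by omega)
    have hmsP : ∀ (A : N) (W : List (Option T)) (tw : List (Z × Mk N)) (l : ℕ),
        (ems ((((A, W), tw), (true :: a, (P l, N'))) : EIns N T Z)).length =
          l * (b + 2) + Nn.length / 2 := by
      intro A W tw l
      rw [ems_length]
      simp [P, N']
    have hmeas : ∀ l, 4 * l ≤ 3 * V.length →
        10 * (l * (b + 2) + Nn.length / 2) ≤ 9 * (V.length * (b + 1) + Nn.length) := by
      intro l hl
      have h3 : 4 * l * (b + 2) ≤ 3 * V.length * (b + 2) := Nat.mul_le_mul_right _ hl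
      have h4 : V.length * 5 ≤ V.length * b := Nat.mul_le_mul_left _ ha
      have e3 : 3 * V.length * (b + 2) = 3 * (V.length * b) + 6 * V.length := by ring
      have e4 : V.length * (b + 1) = V.length * b + V.length := by ring
      have e5 : 4 * l * (b + 2) = 4 * (l * (b + 2)) := by ring
      omega
    have hVa : V.length ≤ V.length * (b + 1) := Nat.le_mul_of_pos_right _ (by omega)
    have hszP : ∀ l, 4 * l ≤ 3 * V.length → sz (P l) ≤ 6 * μ + 1 := by
      intro l hl
      have h3 := sz_replicate_le' (List.replicate (b + 1) true) l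
      have h4 := sz_word_bool (List.replicate (b + 1) true)
      rw [List.length_replicate] at h4
      have h5 : (sz (List.replicate (b + 1) true) + 1) * l ≤ (6 * (b + 1)) * l :=
        Nat.mul_le_mul_right _ (by omega)
      have h6 : (6 * (b + 1)) * l ≤ (6 * (b + 1)) * V.length :=
        Nat.mul_le_mul_left _ (by omega)
      have e6 : (6 * (b + 1)) * V.length = 6 * (V.length * (b + 1)) := by ring
      simp only [P]
      omega
    have hszN : sz N' ≤ 2 * μ + 1 := by
      have h3 := sz_word_bool N'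
      rw [List.length_replicate] at h3
      omega
    have hbμ : b ≤ μ := by
      have : 1 * (b + 1) ≤ V.length * (b + 1) := Nat.mul_le_mul_right _ (by omega)
      omega
    have hszW : ∀ W' : List (Option T), sz W' ≤ (D + 1) * W'.length + 1 := fun W' =>
      sz_list_le (D := D) W' fun o _ => hD2 o
    have hszy : sz y ≤ (2 * D + 30) * μ + (2 * D + 30) := by
      have e8 : sz y = sz (some (B, (C, E))) + ((((sz Xw + sz Y₁ + 1) + (sz Y₂ + sz Zw + 1) + 1) +
          (sz s + (sz (P (Ho.wt (Xw ++ none :: Zw))) + (sz (P (Ho.wt Y₁)) +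
            (sz (P (Ho.wt Y₂)) + sz N' + 1) + 1) + 1) + 1) + 1)) + 1 := by
        simp only [y, sz_pair]
      rw [e8]
      have r1 := hszP _ (by rw [hVw]; exact hw0)
      have r2 := hszP _ (by rw [hVw]; exact hw1)
      have r3 := hszP _ (by rw [hVw]; exact hw2)
      have r4 := hszW Xw
      have r5 := hszW Y₁
      have r6 := hszW Y₂
      have r7 := hszW Zw
      have r8 := hD5 (some (B, (C, E)))
      have e9 : W.length = Xw.length + Y₁.length + Y₂.length + Zw.length := by
        rw [hW]; simp only [List.length_append]; omega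
      have e10 : (D + 1) * W.length = (D + 1) * Xw.length + (D + 1) * Y₁.length +
          (D + 1) * Y₂.length + (D + 1) * Zw.length := by rw [e9]; ring
      have r9 : (D + 1) * W.length ≤ (D + 1) * μ := Nat.mul_le_mul_left _ (by omega)
      have e11 : (2 * D + 30) * μ = (D + 1) * μ + D * μ + 29 * μ := by ring
      have r10 : 1 * (4 * b + D + 9) = 4 * b + D + 9 := Nat.one_mul _
      omega
    have hszI : ∀ (A : N) (W' : List (Option T)) (tw' : List (Z × Mk N)) (l : ℕ),
        W'.length ≤ M → tw'.length ≤ M → 4 * l ≤ 3 * V.length →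
        sz ((((A, W'), tw'), (true :: a, (P l, N'))) : EIns N T Z) ≤ Bd := by
      intro A W' tw' l hl1 hl2 hl
      rw [sz_pair, sz_pair, sz_pair, sz_pair, sz_pair]
      have r1 := hD1 A
      have r2 := hszW W'
      have r3 := sz_list_le (D := D) tw' fun e _ => hD3 e
      have r4 := sz_word_bool (true :: a)
      rw [List.length_cons] at r4
      have r5 := hszP l hl
      have r6 : (D + 1) * W'.length ≤ (D + 1) * M := Nat.mul_le_mul_left _ hl1
      have r7 : (D + 1) * tw'.length ≤ (D + 1) * M := Nat.mul_le_mul_left _ hl2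
      have e9 : (2 * D + 14) * M = 2 * ((D + 1) * M) + 12 * M := by ring
      omega
    have hYl : Y.length = tw.length := by
      rw [← hX2, ← hY1, List.length_map, List.length_map]
    have hWl : W.length = Xw.length + Y₁.length + Y₂.length + Zw.length := by
      rw [hW]; simp only [List.length_append]; omega
    have hY1l : 1 ≤ Y₁.length := List.length_pos_iff.2 ev1.ne_nil
    have hY2l : 1 ≤ Y₂.length := List.length_pos_iff.2 ev2.ne_nil
    have hcntW : W.countP (fun o => o.isNone) = Xw.countP (fun o => o.isNone) +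
        (Y₁.countP (fun o => o.isNone) + (Y₂.countP (fun o => o.isNone) +
          Zw.countP (fun o => o.isNone))) := by
      rw [hW]; simp only [List.countP_append]
    have hcnt0 : (Xw ++ none :: Zw).countP (fun o => o.isNone) ≤ 1 := by
      have e1 : ∀ l : List (Option T), none ∉ l → l.countP (fun o => o.isNone) = 0 := by
        intro l hl
        rw [List.countP_eq_zero]
        intro o ho h
        cases o with
        | none => exact hl ho
        | some _ => simp at h
      rw [List.countP_append, List.countP_cons, e1 Xw hXw, e1 Zw hZw]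
      simp
    -- the semantic lists of the subinstances
    have s0 : ((Y.map fun e => (e.1.1, (e.1.2.1, if e.2 then {B} else (∅ : Set N)))) :
        List ((Z × K) × Mk N)).map fg =
        (Y.map fun e => (fg e.1, e.2)).map fun e => mkO (B, e) := by
      rw [List.map_map, List.map_map]; rfl
    have s1 : ((Y.map fun e => (e.1.1, (e.2, e.1.2.2))) : List ((Z × K) × Mk N)).map fg =
        (Y.map fun e => (fg e.1, e.2)).map mkI := by
      rw [List.map_map, List.map_map]; rfl
    refine RecN.Rec.guess (y := y) ?_ ?_ ⟨?_, ?_⟩ ?_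
    · simp only [ebase, Bool.or_eq_false_iff, decide_eq_false_iff_not, List.length_cons,
        List.length_nil, List.isEmpty_eq_false_iff]
      exact ⟨by omega, List.ne_nil_of_length_pos (by omega)⟩
    · rw [hms']; exact hszy
    · -- the test
      simp only [echk, Bool.and_eq_true, decide_eq_true_eq, Bool.not_eq_true',
        List.isEmpty_iff, List.isEmpty_eq_false_iff, all_isSome]
      have hf : (et ((((A, W), tw), (a, (V, Nn))), y)).filter Prod.snd =
          [(fg e3, true)] := by
        rw [het, hY]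
        simp [List.filter_append, List.filter_cons, List.filter_map, Function.comp_def]
      rw [hf]
      refine ⟨⟨hW.symm, hXw, hZw⟩, ?_, ⟨by simp, by simp⟩, ?_⟩
      · rw [het, List.map_map]
        show Y.map (fun e => fg e.1) = tw
        rw [← hX2, ← hY1, List.map_map]
        rfl
      · simp only [List.all_cons, List.all_nil, Bool.and_true, okL, decide_eq_true_eq]
        exact ⟨B, C, E, rfl, hB e3.1 (by rw [← hX1]; simp) B C E hbn⟩
    · intro i hi
      rw [hms']
      have hi' : i = 0 ∨ i = 1 ∨ i = 2 := by omega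
      rcases hi' with rfl | rfl | rfl
      · rw [c0]
        refine ⟨hszI _ _ _ _ ?_ ?_ (by rw [hVw]; exact hw0), ?_⟩
        · simp only [List.length_append, List.length_cons]; omega
        · simp only [List.length_map]; omega
        · rw [hmsP]; exact hmeas _ (by rw [hVw]; exact hw0)
      · rw [c1]
        refine ⟨hszI _ _ _ _ ?_ ?_ (by rw [hVw]; exact hw1), ?_⟩
        · omega
        · simp only [List.length_map]; omega
        · rw [hmsP]; exact hmeas _ (by rw [hVw]; exact hw1)
      · rw [c2]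
        refine ⟨hszI _ _ _ _ ?_ ?_ (by rw [hVw]; exact hw2), ?_⟩
        · omega
        · simp only [List.length_map]; omega
        · rw [hmsP]; exact hmeas _ (by rw [hVw]; exact hw2)
    · intro i hi
      have hi' : i = 0 ∨ i = 1 ∨ i = 2 := by omega
      have hnum : ∀ (A' : N) (W' : List (Option T)) (tw' : List (Z × Mk N)) (k₁ : K)
          (tgt' : N → K → Prop) (X' : List ((Z × K) × Mk N)),
          4 * Ho.wt W' ≤ 3 * Ho.wt W → W'.countP (fun o => o.isNone) ≤ 1 →
          W'.length ≤ M → tw'.length = tw.length → X'.map Prod.fst = ζ → X'.map fg = tw' →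
          (∃ e ∈ X', e.2.1 = true ∧ e.1.2 = k₁) →
          (∀ B k', tgt' B k' → ∃ e ∈ X', e.1.2 = k' ∧ B ∈ e.2.2) →
          Ev walk tm bn tgt' A' k₁ W' →
          RecN.Rec (2 * D + 30) 3 ebase (ebval lblT rc) ems (echk lblB) ech Bd
            ((((A', W'), tw'), (true :: a, (P (Ho.wt W'), N'))) : EIns N T Z) := by
        intro A' W' tw' k₁ tgt' X' g1 g2 g3 g4 g5 g6 g7 g8 g9
        rw [← hVw] at g1
        have g10 : (P (Ho.wt W')).length = Ho.wt W' := by simp [P]
        refine ih _ ?_ ?_ g2 g3 ?_ ?_ ?_ ?_ ?_ ?_ X' tgt' k₁ g5 g6 g7 g8 g9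
        · simp only [g10]; omega
        · exact g10
        · simp only [g4]; omega
        · simp only [g10, List.length_cons]; omega
        · intro i hi
          simp only [P] at hi
          rw [List.eq_of_mem_replicate hi]
          simp [hadef]
        · simp only [List.length_cons]; omega
        · have h9 : tw'.length < 2 ^ (b + 1) * (Nn.length / 2 + 1) := by omega
          simp only [N', List.length_replicate, List.length_cons]
          exact h9
        · rw [hmsP]
          have := hmeas _ g1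
          omega
      rcases hi' with rfl | rfl | rfl
      · rw [c0]
        refine hnum A _ _ k (fun B' k'' => B' = B ∧ k'' = e3.1.2)
          (Y.map fun e => (e.1.1, (e.1.2.1, if e.2 then {B} else ∅))) hw0 hcnt0 ?_ ?_ ?_ s0
          ?_ ?_ ev0
        · simp only [List.length_append, List.length_cons]; omega
        · simp only [List.length_map]; omega
        · rw [List.map_map, ← hX1, ← hY1, List.map_map]; rfl
        · obtain ⟨e, he, h1, h2⟩ := hsrc
          obtain ⟨f, hf, rfl⟩ := hmemY e he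
          exact ⟨_, List.mem_map_of_mem hf, h1, h2⟩
        · rintro B' k'' ⟨rfl, rfl⟩
          exact ⟨_, List.mem_map_of_mem h3Y, rfl, by simp⟩
      · rw [c1]
        refine hnum C _ _ e3.1.2 tgt (Y.map fun e => (e.1.1, (e.2, e.1.2.2))) hw1 ?_ ?_ ?_ ?_ s1
          ?_ ?_ ev1
        · omega
        · omega
        · simp only [List.length_map]; omega
        · rw [List.map_map, ← hX1, ← hY1, List.map_map]; rfl
        · exact ⟨_, List.mem_map_of_mem h3Y, rfl, rfl⟩
        · intro B' k'' h
          obtain ⟨e, he, h1, h2⟩ := htgt B' k'' h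
          obtain ⟨f, hf, rfl⟩ := hmemY e he
          exact ⟨_, List.mem_map_of_mem hf, h1, h2⟩
      · rw [c2]
        refine hnum E _ _ e3.1.2 tgt (Y.map fun e => (e.1.1, (e.2, e.1.2.2))) hw2 ?_ ?_ ?_ ?_ s1
          ?_ ?_ ev2
        · omega
        · omega
        · simp only [List.length_map]; omega
        · rw [List.map_map, ← hX1, ← hY1, List.map_map]; rfl
        · exact ⟨_, List.mem_map_of_mem h3Y, rfl, rfl⟩
        · intro B' k'' h
          obtain ⟨e, he, h1, h2⟩ := htgt B' k'' h
          obtain ⟨f, hf, rfl⟩ := hmemY e he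
          exact ⟨_, List.mem_map_of_mem hf, h1, h2⟩

/-! ### Linear space -/

theorem lin_mapP {α β γ δ : Type} [Enc α] [Enc β] [Enc γ] [Enc δ] [Finite β] {l : α → List γ}
    {g : α → δ} {f : δ × γ → β} (hl : Lin l) (hg : Lin g) (hf : Lin f) :
    Lin (fun x => (l x).map fun b => f (g x, b)) := by
  obtain ⟨D, hD⟩ := exists_sz_le β
  obtain ⟨q, hq, Hq⟩ := hl.size
  refine Lin.map (f := fun p : α × γ => f (g p.1, p.2)) hl
    (hf.comp ((hg.comp Lin.fst).pair Lin.snd)) (q := fun n => (D + 1) * q n + 1)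
    ((hq.smul (D + 1)).add (LB.const 1)) fun x => ?_
  have h1 := sz_list_le (D := D) ((l x).map fun b => f (g x, b)) fun a _ => hD a
  rw [List.length_map] at h1
  have h2 := length_le_sz (l x)
  have h3 := Hq x
  have h4 : (D + 1) * (l x).length ≤ (D + 1) * q (sz x) := Nat.mul_le_mul_left _ (by omega)
  show sz ((l x).map fun b => f (g x, b)) ≤ (D + 1) * q (sz x) + 1
  omega

theorem lin_ems : Lin (ems : EIns N T Z → List Bool) :=
  (Lin.flatMap (Lin.fst.comp (Lin.snd.comp Lin.snd))
    ((Lin.const true).cons Lin.id)).append (Lin.snd.comp (Lin.snd.comp Lin.snd))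

theorem lin_ebase : Lin (ebase : EIns N T Z → Bool) :=
  (Lin.lenLe (Lin.snd.comp (Lin.fst.comp Lin.fst)) (Lin.const [()])).or
    (Lin.isEmpty (Lin.fst.comp (Lin.snd.comp Lin.snd)))

theorem lin_ebval (hrc : Lin rc) : Lin (ebval (T := T) lblT rc) := by
  classical
  have hW : Lin (fun x : EIns N T Z => x.1.1.2) := Lin.snd.comp (Lin.fst.comp Lin.fst)
  refine (((Lin.isEmpty hW).not.and (Lin.isEmpty hW.tail)).and
    ((Lin.of_finite (fun p : N × Set N => decide (p.1 ∈ p.2))).comp
      ((Lin.fst.comp (Lin.fst.comp Lin.fst)).pair (hrc.comp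
        (lin_mapP (Lin.snd.comp Lin.fst) (hW.headD none)
          (Lin.of_finite (leaf (N := N) (T := T) (Z := Z) lblT))))))).of_eq fun x => ?_
  unfold ebval
  congr

theorem lin_et : Lin (et : EIns N T Z × EGue N T Z → List (EB N Z)) :=
  lin_dec (Lin.fst.comp (Lin.snd.comp (Lin.snd.comp Lin.snd)))
    (Lin.map' (Lin.snd.comp (Lin.fst.comp Lin.fst)) (Lin.id.pair (Lin.const false)))

theorem lin_echk : Lin (echk (T := T) lblB) := by
  classical
  have h1 : Lin (fun p : EIns N T Z × EGue N T Z => p.2.2.1.1.1) :=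
    Lin.fst.comp (Lin.fst.comp (Lin.fst.comp (Lin.snd.comp Lin.snd)))
  have h2 : Lin (fun p : EIns N T Z × EGue N T Z => p.2.2.1.1.2) :=
    Lin.snd.comp (Lin.fst.comp (Lin.fst.comp (Lin.snd.comp Lin.snd)))
  have h3 : Lin (fun p : EIns N T Z × EGue N T Z => p.2.2.1.2.1) :=
    Lin.fst.comp (Lin.snd.comp (Lin.fst.comp (Lin.snd.comp Lin.snd)))
  have h4 : Lin (fun p : EIns N T Z × EGue N T Z => p.2.2.1.2.2) :=
    Lin.snd.comp (Lin.snd.comp (Lin.fst.comp (Lin.snd.comp Lin.snd)))
  have hf : Lin (fun p : EIns N T Z × EGue N T Z => (et p).filter Prod.snd) :=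
    Lin.filter lin_et Lin.snd
  have e1 := Lin.eq (h1.append (h2.append (h3.append h4)))
    (Lin.snd.comp (Lin.fst.comp (Lin.fst.comp Lin.fst)))
  have e2 := Lin.eq (Lin.map' lin_et Lin.fst)
    (Lin.snd.comp (Lin.fst.comp (Lin.fst : Lin (fun p : EIns N T Z × EGue N T Z => p.1))))
  have e3 := Lin.allP (p := fun y : (EIns N T Z × EGue N T Z) × EB N Z =>
      okL lblB (y.1.2.1, y.2.1.1)) hf
    ((Lin.of_finite (okL lblB)).comp ((Lin.fst.comp (Lin.snd.comp Lin.fst)).pair
      (Lin.fst.comp (Lin.fst.comp Lin.snd))))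
  refine ((e1.and ((Lin.all' h1 (Lin.of_finite fun o : Option T => o.isSome)).and
    (Lin.all' h4 (Lin.of_finite fun o : Option T => o.isSome)))).and
    (e2.and (((Lin.isEmpty hf).not.and (Lin.isEmpty hf.tail)).and e3))).of_eq fun p => ?_
  unfold echk
  congr

theorem lin_ech : Lin (ech : (EIns N T Z × EGue N T Z) × List Bool → EIns N T Z) := by
  classical
  have hx : Lin (fun p : (EIns N T Z × EGue N T Z) × List Bool => p.1.1) :=
    Lin.fst.comp Lin.fst
  have hy : Lin (fun p : (EIns N T Z × EGue N T Z) × List Bool => p.1.2) :=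
    Lin.snd.comp Lin.fst
  have hA : Lin (fun p : (EIns N T Z × EGue N T Z) × List Bool => p.1.1.1.1.1) :=
    Lin.fst.comp (Lin.fst.comp (Lin.fst.comp hx))
  have hh : Lin (fun p : (EIns N T Z × EGue N T Z) × List Bool =>
      ehd (p.1.2.1, p.1.1.1.1.1)) := (Lin.of_finite ehd).comp ((Lin.fst.comp hy).pair hA)
  have ht : Lin (fun p : (EIns N T Z × EGue N T Z) × List Bool => et p.1) :=
    lin_et.comp Lin.fst
  have ha : Lin (fun p : (EIns N T Z × EGue N T Z) × List Bool => true :: p.1.1.2.1) :=
    (Lin.const true).cons (Lin.fst.comp (Lin.snd.comp hx))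
  have h1 : Lin (fun p : (EIns N T Z × EGue N T Z) × List Bool => p.1.2.2.1) :=
    Lin.fst.comp (Lin.snd.comp hy)
  have h2 : Lin (fun p : (EIns N T Z × EGue N T Z) × List Bool => p.1.2.2.2.2) :=
    Lin.snd.comp (Lin.snd.comp (Lin.snd.comp hy))
  have hN : Lin (fun p : (EIns N T Z × EGue N T Z) × List Bool => p.1.2.2.2.2.2.2.2) :=
    Lin.snd.comp (Lin.snd.comp (Lin.snd.comp h2))
  have hI : Lin (fun p : (EIns N T Z × EGue N T Z) × List Bool => (et p.1).map mkI) :=
    Lin.map' ht (Lin.of_finite mkI)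
  exact (Lin.isEmpty Lin.snd).ite
    ((((hA).pair ((Lin.fst.comp (Lin.fst.comp h1)).append ((Lin.const none).cons
      (Lin.snd.comp (Lin.snd.comp h1))))).pair
        (lin_mapP ht (Lin.fst.comp hh) (Lin.of_finite (mkO (N := N) (Z := Z))))).pair
      (ha.pair ((Lin.fst.comp h2).pair hN)))
    ((Lin.isEmpty Lin.snd.tail).ite
      ((((Lin.fst.comp (Lin.snd.comp hh)).pair (Lin.snd.comp (Lin.fst.comp h1))).pair hI).pair
        (ha.pair ((Lin.fst.comp (Lin.snd.comp h2)).pair hN)))
      ((((Lin.snd.comp (Lin.snd.comp hh)).pair (Lin.fst.comp (Lin.snd.comp h1))).pair hI).pair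
        (ha.pair ((Lin.fst.comp (Lin.snd.comp (Lin.snd.comp h2))).pair hN))))

theorem ebase_false {x : EIns N T Z} (h : ebase x = false) : 1 ≤ (ems x).length := by
  rw [ems_length]
  simp only [ebase, Bool.or_eq_false_iff, List.isEmpty_eq_false_iff] at h
  cases hx : x.2.2.1 with
  | nil => exact absurd hx h.2
  | cons i l => simp only [List.map_cons, List.sum_cons]; omega

/-- The first instance. -/
def exinit (p : (N × List T) × List (Z × Mk N)) : EIns N T Z :=
  (((p.1.1, p.1.2.map some), p.2), (List.replicate 5 true,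
    (rep 3 (p.1.2.tail.map fun _ => List.replicate 5 true), p.2.map fun _ => true)))

theorem none_notMem_map_some (w : List T) : (none : Option T) ∉ w.map some := by
  simp

/-- Deciding derivations over a chart in linear space. -/
theorem engine [Enc T] (lblT : Z → T → Set N) (lblB : Z → N → N → N → Prop)
    {rc : List (Z × Mk N) → Set N} (hrc : Lin rc) :
    ∃ eng : (N × List T) × List (Z × Mk N) → Bool, Lin eng ∧
      (∀ (K : Type) (walk : N → K → N → K → Prop) (tm : N → K → T → Prop)
        (bn : N → K → N → N → Prop) (ζ : List (Z × K)),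
        (∀ X : List ((Z × K) × Mk N), X.map Prod.fst = ζ → ∀ A ∈ rc (X.map fg),
          ∃ x ∈ X, ∃ y ∈ X, ∃ B ∈ y.2.2, x.2.1 = true ∧ walk A x.1.2 B y.1.2) →
        (∀ z ∈ ζ, ∀ B a, B ∈ lblT z.1 a → tm B z.2 a) →
        (∀ z ∈ ζ, ∀ B C E, lblB z.1 B C E → bn B z.2 C E) →
        ∀ (A : N) (w : List T) (X : List ((Z × K) × Mk N)) (k : K), X.map Prod.fst = ζ →
          (∀ e ∈ X, e.2.1 = true → e.1.2 = k) → eng ((A, w), X.map fg) = true →
          Ev walk tm bn (fun _ _ => False) A k (w.map some)) ∧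
      (∀ (K : Type) (walk : N → K → N → K → Prop) (tm : N → K → T → Prop)
        (bn : N → K → N → N → Prop) (ζ : List (Z × K)),
        (∀ X : List ((Z × K) × Mk N), X.map Prod.fst = ζ → ∀ (A B : N)
          (x y : (Z × K) × Mk N), x ∈ X → y ∈ X → x.2.1 = true → B ∈ y.2.2 →
          walk A x.1.2 B y.1.2 → A ∈ rc (X.map fg)) →
        (∀ z ∈ ζ, ∀ B a, tm B z.2 a → B ∈ lblT z.1 a) →
        (∀ z ∈ ζ, ∀ B C E, bn B z.2 C E → lblB z.1 B C E) →
        (∀ A k B k', walk A k B k' → ∃ z ∈ ζ, z.2 = k') →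
        ∀ (A : N) (w : List T) (X : List ((Z × K) × Mk N)) (k : K), X.map Prod.fst = ζ →
          (∃ e ∈ X, e.2.1 = true ∧ e.1.2 = k) →
          Ev walk tm bn (fun _ _ => False) A k (w.map some) →
          eng ((A, w), X.map fg) = true) := by
  classical
  obtain ⟨D1, hD1⟩ := exists_sz_le N
  obtain ⟨D2, hD2⟩ := exists_sz_le (Option T)
  obtain ⟨D3, hD3⟩ := exists_sz_le (Z × Mk N)
  obtain ⟨D4, hD4⟩ := exists_sz_le (Option (EB N Z))
  obtain ⟨D5, hD5⟩ := exists_sz_le (Option (N × (N × N)))
  set D := D1 + D2 + D3 + D4 + D5 with hDdef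
  set K0 := 2 * D + 14 with hK0
  have hx0 : Lin (exinit : (N × List T) × List (Z × Mk N) → EIns N T Z) :=
    (((Lin.fst.comp Lin.fst).pair (Lin.map' (Lin.snd.comp Lin.fst) (Lin.of_finite some))).pair
      Lin.snd).pair ((Lin.const _).pair ((Lin.rep (Lin.map' (Lin.snd.comp Lin.fst).tail
        (Lin.const _)) 3).pair (Lin.map' Lin.snd (Lin.const true))))
  refine ⟨fun p => decide (RecN.Rec (2 * D + 30) 3 ebase (ebval lblT rc) ems (echk lblB) ech
    (K0 * sz (exinit p) + K0) (exinit p)), ?_, ?_, ?_⟩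
  · exact RecN.lin_rec (C := 2 * D + 30) (K := K0) (r := 3) lin_ebase (lin_ebval hrc) lin_ems
      lin_echk lin_ech (fun x hx => ebase_false hx) hx0 fun w => by rw [decide_eq_true_eq]
  · intro K walk tm bn ζ hs hT hB A w X k hX hk h
    rw [decide_eq_true_eq] at h
    exact (engine_sound hs hT hB h X hX rfl k hk).tgt_irrel (none_notMem_map_some w)
  · intro K walk tm bn ζ hc hT hB hV A w X k hX hk h
    rw [decide_eq_true_eq]
    set x := exinit ((A, w), X.map fg) with hx
    have hxV : x.2.2.1.length = 3 * (w.length - 1) := by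
      show (rep 3 (w.tail.map fun _ => List.replicate 5 true)).length = _
      rw [rep_length, List.length_map, List.length_tail]
    have hxW : x.1.1.2 = w.map some := rfl
    have hxa : x.2.1 = List.replicate 5 true := rfl
    have hxt : x.1.2 = X.map fg := rfl
    have hxN : x.2.2.2.length = X.length := by
      show ((X.map fg).map fun _ => true).length = _
      rw [List.length_map, List.length_map]
    have hmem : ∀ i ∈ x.2.2.1, i = List.replicate 5 true := by
      have hrep : ∀ n i, i ∈ rep n (w.tail.map fun _ => List.replicate 5 true) →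
          i = List.replicate 5 true := by
        intro n i
        induction n with
        | zero => intro h; simp [rep] at h
        | succ n ihn =>
          intro h
          rw [rep, List.mem_append] at h
          rcases h with h | h
          · obtain ⟨_, _, h⟩ := List.mem_map.1 h
            exact h.symm
          · exact ihn h
      exact fun i hi => hrep 3 i hi
    have hmsx : (ems x).length = x.2.2.1.length * 6 + x.2.2.2.length := by
      rw [ems_length]
      congr 1
      have : (x.2.2.1.map fun i => i.length + 1) = List.replicate x.2.2.1.length 6 := by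
        rw [List.eq_replicate_iff]
        refine ⟨by simp, fun b hb => ?_⟩
        obtain ⟨i, hi, rfl⟩ := List.mem_map.1 hb
        rw [hmem i hi]; simp
      rw [this, List.sum_replicate, smul_eq_mul]
    have hszx : sz x = ((sz x.1.1.1 + sz x.1.1.2 + 1) + sz x.1.2 + 1) +
        (sz x.2.1 + (sz x.2.2.1 + sz x.2.2.2 + 1) + 1) + 1 := by
      simp only [← sz_pair]
    have hszV : 6 * x.2.2.1.length ≤ sz x.2.2.1 := by
      have : ∀ l : List (List Bool), (∀ i ∈ l, i = List.replicate 5 true) →
          6 * l.length ≤ sz l := by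
        intro l
        induction l with
        | nil => intro _; simp
        | cons i l ih =>
          intro h
          rw [sz_cons, List.length_cons]
          have h1 := ih fun i hi => h i (List.mem_cons_of_mem _ hi)
          have h2 := length_le_sz i
          rw [h i (List.mem_cons_self ..), List.length_replicate] at h2
          rw [h i (List.mem_cons_self ..)]
          omega
      exact this _ hmem
    have hszN := length_le_sz x.2.2.2
    have hszW := length_le_sz x.1.1.2
    have hszt := length_le_sz x.1.2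
    have hsza := length_le_sz x.2.1
    have hal : x.2.1.length = 5 := by rw [hxa, List.length_replicate]
    refine engine_complete (D := D) (M := sz x) hc hT hB hV (fun a => (hD1 a).trans (by omega))
      (fun a => (hD2 a).trans (by omega)) (fun a => (hD3 a).trans (by omega))
      (fun a => (hD4 a).trans (by omega)) (fun a => (hD5 a).trans (by omega)) ?_
      (x.2.2.1.length) x (le_refl _) ?_ ?_ ?_ ?_ ?_ ?_ ?_ ?_ ?_ X (fun _ _ => False) k hX rfl
      hk (fun _ _ h => h.elim) h
    · show (2 * D + 14) * sz x + (D + 10) ≤ (2 * D + 14) * sz x + (2 * D + 14)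
      omega
    · rw [hxV, hxW, Ho.wt, if_neg (none_notMem_map_some w), List.length_map]
    · rw [hxW]
      have : (w.map some).countP (fun o => o.isNone) = 0 := by
        rw [List.countP_eq_zero]
        intro o ho
        obtain ⟨a, _, rfl⟩ := List.mem_map.1 ho
        simp
      omega
    · omega
    · omega
    · omega
    · intro i hi
      rw [hmem i hi, hal, List.length_replicate]
    · omega
    · rw [hal, hxt, List.length_map, hxN]; omega
    · omega

end Engine

end Pool.Agent.Lib.LinSpace.Ho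
end
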