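import Pool.Agent.Lib.LinSpace.Ho.El

/-!
Simulation of the storage types `el Γ n` (elements of the pushdown stacks of order `n + 1`) by the
iterated pushdowns `it Γ n`.
-/

set_option autoImplicit false

namespace Pool.Agent.Lib.LinSpace.Ho

/-! ### Simulations between storage types -/

/-- The runs of a program (with program states `P`) on the storage type `S`. -/
inductive PRun (S : Sto) {P : Type} (next : P → S.Λ → Option S.I → P → Prop)
    (halt : P → S.Λ → Prop) : P → S.C → S.C → Prop
  | halt {p : P} {c : S.C} : halt p (S.lab c) → PRun S next halt p c c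
  | step {p q : P} {c c₁ c₂ : S.C} {i : Option S.I} : next p (S.lab c) i q →
      S.stO i c = some c₁ → PRun S next halt q c₁ c₂ → PRun S next halt p c c₂

/-- A simulation of the storage type `S` by the storage type `S'`. -/
structure Sim (S S' : Sto) where
  /-- the relation between the configurations -/
  R : S.C → S'.C → Prop
  /-- the labels -/
  labf : S'.Λ → S.Λ
  hlab : ∀ c c', R c c' → S.lab c = labf (S'.lab c')
  /-- the program states -/
  P : Type
  finP : Finite P
  /-- the program of an instruction -/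
  start : S.I → P
  /-- the steps of the programs -/
  next : P → S'.Λ → Option S'.I → P → Prop
  /-- halting of the programs -/
  halt : P → S'.Λ → Prop
  complete : ∀ i c c' c₁, R c c' → S.st i c = some c₁ →
    ∃ c₁', PRun S' next halt (start i) c' c₁' ∧ R c₁ c₁'
  sound : ∀ i c c' d', R c c' → PRun S' next halt (start i) c' d' →
    ∃ c₁, S.st i c = some c₁ ∧ R c₁ d'

instance {S S' : Sto} (σ : Sim S S') : Finite σ.P := σ.finP

/-- The grammar over `S'` which simulates a grammar over `S`. -/
def Sim.gr {S S' : Sto} (σ : Sim S S') {T : Type} (G : Gr S T) : Gr S' T where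
  N := G.N ⊕ (G.N × σ.P)
  finN := inferInstance
  eps := fun X l => match X with
    | .inl A => G.eps A (σ.labf l)
    | .inr _ => False
  term := fun X l a => match X with
    | .inl A => G.term A (σ.labf l) a
    | .inr _ => False
  bin := fun X l Y Z => match X with
    | .inl A => ∃ B C, Y = .inl B ∧ Z = .inl C ∧ G.bin A (σ.labf l) B C
    | .inr _ => False
  mv := fun X l i Y => match X with
    | .inl A => i = none ∧ ((∃ B, Y = .inl B ∧ G.mv A (σ.labf l) none B) ∨
        ∃ B j, Y = .inr (B, σ.start j) ∧ G.mv A (σ.labf l) (some j) B)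
    | .inr (B, p) => (∃ q, Y = .inr (B, q) ∧ σ.next p l i q) ∨
        (i = none ∧ Y = .inl B ∧ σ.halt p l)

theorem Sim.gen_of_run {S S' : Sto} (σ : Sim S S') {T : Type} (G : Gr S T) {B : G.N} {w : List T}
    {p : σ.P} {c d : S'.C} (H : PRun S' σ.next σ.halt p c d)
    (hB : (σ.gr G).Gen (Sum.inl B : G.N ⊕ (G.N × σ.P)) d w) :
    (σ.gr G).Gen (Sum.inr (B, p) : G.N ⊕ (G.N × σ.P)) c w := by
  induction H with
  | halt h =>
    refine Gr.Gen.mv (G := σ.gr G) (i := none) (B := (Sum.inl B : G.N ⊕ (G.N × σ.P))) ?_ rfl hB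
    exact Or.inr ⟨rfl, rfl, h⟩
  | @step p q c c₁ c₂ i h1 h2 _ ih =>
    refine Gr.Gen.mv (G := σ.gr G) (i := i) (B := (Sum.inr (B, q) : G.N ⊕ (G.N × σ.P))) ?_ h2
      (ih hB)
    exact Or.inl ⟨q, rfl, h1⟩

theorem Sim.gen_complete {S S' : Sto} (σ : Sim S S') {T : Type} (G : Gr S T) {A : G.N} {c : S.C}
    {w : List T} (H : G.Gen A c w) : ∀ c', σ.R c c' →
      (σ.gr G).Gen (Sum.inl A : G.N ⊕ (G.N × σ.P)) c' w := by
  induction H with
  | @eps A c h =>
    intro c' hc
    refine Gr.Gen.eps (G := σ.gr G) ?_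
    rw [σ.hlab _ _ hc] at h
    exact h
  | @term A c a h =>
    intro c' hc
    refine Gr.Gen.term (G := σ.gr G) ?_
    rw [σ.hlab _ _ hc] at h
    exact h
  | @bin A B C c u v h _ _ ih1 ih2 =>
    intro c' hc
    refine Gr.Gen.bin (G := σ.gr G) ?_ (ih1 c' hc) (ih2 c' hc)
    rw [σ.hlab _ _ hc] at h
    exact ⟨B, C, rfl, rfl, h⟩
  | @mv A B c c₁ i w h h2 _ ih =>
    intro c' hc
    rw [σ.hlab _ _ hc] at h
    cases i with
    | none =>
      rw [Sto.stO_none, Option.some_inj] at h2
      subst h2
      refine Gr.Gen.mv (G := σ.gr G) (i := none) ?_ rfl (ih c' hc)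
      exact ⟨rfl, Or.inl ⟨B, rfl, h⟩⟩
    | some j =>
      rw [Sto.stO_some] at h2
      obtain ⟨c₁', hr, hR⟩ := σ.complete j c c' c₁ hc h2
      refine Gr.Gen.mv (G := σ.gr G) (i := none) ?_ rfl (σ.gen_of_run G hr (ih c₁' hR))
      exact ⟨rfl, Or.inr ⟨B, j, rfl, h⟩⟩

theorem Sim.gen_sound {S S' : Sto} (σ : Sim S S') {T : Type} (G : Gr S T)
    {X : (σ.gr G).N} {c' : S'.C} {w : List T} (H : (σ.gr G).Gen X c' w) :
    (∀ A, X = (Sum.inl A : G.N ⊕ (G.N × σ.P)) → ∀ c, σ.R c c' → G.Gen A c w) ∧
      ∀ B p, X = (Sum.inr (B, p) : G.N ⊕ (G.N × σ.P)) →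
        ∃ d, PRun S' σ.next σ.halt p c' d ∧ ∀ c, σ.R c d → G.Gen B c w := by
  induction H with
  | @eps X c' h =>
    constructor
    · rintro A rfl c hc
      refine Gr.Gen.eps ?_
      rw [σ.hlab _ _ hc]
      exact h
    · rintro B p rfl
      exact h.elim
  | @term X c' a h =>
    constructor
    · rintro A rfl c hc
      refine Gr.Gen.term ?_
      rw [σ.hlab _ _ hc]
      exact h
    · rintro B p rfl
      exact h.elim
  | @bin X Y Z c' u v h _ _ ih1 ih2 =>
    constructor
    · rintro A rfl c hc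
      obtain ⟨B, C, rfl, rfl, hb⟩ := h
      refine Gr.Gen.bin (B := B) (C := C) ?_ (ih1.1 B rfl c hc) (ih2.1 C rfl c hc)
      rw [σ.hlab _ _ hc]
      exact hb
    · rintro B p rfl
      exact h.elim
  | @mv X Y c' c₁' i w h h2 _ ih =>
    constructor
    · rintro A rfl c hc
      obtain ⟨hi, h⟩ := h
      rw [hi, Sto.stO_none, Option.some_inj] at h2
      subst h2
      rcases h with ⟨B, rfl, h⟩ | ⟨B, j, rfl, h⟩
      · refine Gr.Gen.mv (i := none) (B := B) ?_ rfl (ih.1 B rfl c hc)
        rw [σ.hlab _ _ hc]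
        exact h
      · obtain ⟨d, hr, hd⟩ := ih.2 B _ rfl
        obtain ⟨c₁, hc₁, hR⟩ := σ.sound j c c' d hc hr
        refine Gr.Gen.mv (i := some j) (B := B) ?_ hc₁ (hd c₁ hR)
        rw [σ.hlab _ _ hc]
        exact h
    · rintro B p rfl
      rcases h with ⟨q, rfl, h⟩ | ⟨hi, rfl, h⟩
      · obtain ⟨d, hr, hd⟩ := ih.2 B q rfl
        exact ⟨d, PRun.step h h2 hr, hd⟩
      · rw [hi, Sto.stO_none, Option.some_inj] at h2
        subst h2
        exact ⟨c', PRun.halt h, fun c hc => ih.1 B rfl c hc⟩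

theorem Sim.gen_iff {S S' : Sto} (σ : Sim S S') {T : Type} (G : Gr S T) (A : G.N) {c : S.C}
    {c' : S'.C} (hc : σ.R c c') (w : List T) :
    G.Gen A c w ↔ (σ.gr G).Gen (Sum.inl A : G.N ⊕ (G.N × σ.P)) c' w :=
  ⟨fun H => σ.gen_complete G H c' hc, fun H => (σ.gen_sound G H).1 A rfl c hc⟩

/-! ### Pushdowns with an in-place operation -/

/-- The instructions of `qd S`. -/
inductive QI (S : Sto) : Type
  | pop : QI S
  | push (i : Option S.I) : QI S
  | inn (i : S.I) : QI S

instance (S : Sto) : Finite (QI S) := by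
  refine Finite.of_surjective (fun x : Option (Option S.I ⊕ S.I) => match x with
    | none => (QI.pop : QI S)
    | some (.inl i) => QI.push i
    | some (.inr i) => QI.inn i) ?_
  intro o
  cases o with
  | pop => exact ⟨none, rfl⟩
  | push i => exact ⟨some (.inl i), rfl⟩
  | inn i => exact ⟨some (.inr i), rfl⟩

/-- Performing an instruction of `qd S`. -/
def QI.app {S : Sto} : QI S → List S.C → Option (List S.C)
  | .pop, _ :: x :: r => some (x :: r)
  | .pop, _ => none
  | .push i, x :: r => (S.stO i x).map fun y => y :: x :: r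
  | .push _, [] => none
  | .inn i, x :: r => (S.st i x).map fun y => y :: r
  | .inn _, [] => none

/-- The storage type of the lists of configurations of `S`. -/
def qd (S : Sto) : Sto where
  C := List S.C
  I := QI S
  Λ := Option S.Λ
  finI := inferInstance
  finΛ := inferInstance
  st := QI.app
  lab := fun L => L.head?.map S.lab

section Q

variable {S S' : Sto} (σ : Sim S S')

/-- The rest of the stack below the topmost element: the squares with the flag `true` mark the
square directly below them as superseded. -/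
inductive Rst : List S.C → Nd (Dir S' Bool × S'.C) → Prop
  | root (x : Dir S' Bool × S'.C) : Rst [] (.root x)
  | live {v : Nd (Dir S' Bool × S'.C)} {c : S.C} {L : List S.C} (i : Option S'.I) (c' : S'.C) :
      σ.R c v.top.2 → Rst L v → Rst (c :: L) (.psh v ((false, i), c'))
  | dead {v : Nd (Dir S' Bool × S'.C)} {L : List S.C} (i : Option S'.I) (c' : S'.C) :
      Rst L v → Rst L (.psh v ((true, i), c'))

/-- The program states of the simulation. -/
inductive QP (S : Sto) (P : Type) : Type
  | inn (p : P) : QP S P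
  | first (i : Option S.I) : QP S P
  | pop : QP S P
  | done : QP S P

instance (S : Sto) (P : Type) [Finite P] : Finite (QP S P) := by
  refine Finite.of_surjective (fun x : Bool ⊕ (P ⊕ Option S.I) => match x with
    | .inl true => (QP.pop : QP S P)
    | .inl false => (QP.done : QP S P)
    | .inr (.inl p) => QP.inn p
    | .inr (.inr i) => QP.first i) ?_
  intro o
  cases o with
  | inn p => exact ⟨.inr (.inl p), rfl⟩
  | first i => exact ⟨.inr (.inr i), rfl⟩
  | pop => exact ⟨.inl true, rfl⟩
  | done => exact ⟨.inl false, rfl⟩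

/-- The steps of the programs. -/
def qnext : QP S σ.P → (pd S' Bool).Λ → Option (pd S' Bool).I → QP S σ.P → Prop
  | .inn p, l, j, x => ∃ i q, j = some (some (true, i)) ∧ x = .inn q ∧ σ.next p l.2 i q
  | .first none, _, j, x => j = some (some (false, none)) ∧ x = .done
  | .first (some i), _, j, x => j = some (some (false, none)) ∧ x = .inn (σ.start i)
  | .pop, l, j, x => j = some none ∧ ((l.1.1 = true ∧ x = .pop) ∨ (l.1.1 = false ∧ x = .done))
  | .done, _, _, _ => False

/-- Halting of the programs. -/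
def qhalt : QP S σ.P → (pd S' Bool).Λ → Prop
  | .inn p, l => σ.halt p l.2
  | .first _, _ => False
  | .pop, _ => False
  | .done, _ => True

/-- The start of the programs. -/
def qstart : QI S → QP S σ.P
  | .pop => .pop
  | .push i => .first i
  | .inn i => .inn (σ.start i)

variable {σ}

theorem qinn_complete {p : σ.P} {c' d' : S'.C} (H : PRun S' σ.next σ.halt p c' d') :
    ∀ (v : Nd (Dir S' Bool × S'.C)) (L : List S.C), v.top.2 = c' → Rst σ L v →
      ∃ v', PRun (pd S' Bool) (qnext σ) (qhalt σ) (.inn p) v v' ∧ v'.top.2 = d' ∧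
        Rst σ L v' := by
  induction H with
  | @halt p c h =>
    intro v L hv hL
    refine ⟨v, PRun.halt ?_, hv, hL⟩
    subst hv
    exact h
  | @step p q c c₁ c₂ i h1 h2 _ ih =>
    intro v L hv hL
    obtain ⟨v', hr, ht, hL'⟩ := ih (.psh v ((true, i), c₁)) L rfl (Rst.dead i c₁ hL)
    refine ⟨v', PRun.step (i := some (some (true, i)))
      (c₁ := Nd.psh v (((true, i) : Dir S' Bool), c₁)) ?_ ?_ hr, ht, hL'⟩
    · subst hv
      exact ⟨i, q, rfl, rfl, h1⟩
    · subst hv
      exact Option.map_eq_some_iff.2 ⟨c₁, h2, rfl⟩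

theorem qinn_sound {x : QP S σ.P} {v v' : (pd S' Bool).C}
    (H : PRun (pd S' Bool) (qnext σ) (qhalt σ) x v v') :
    ∀ (p : σ.P) (L : List S.C), x = .inn p → Rst σ L v →
      PRun S' σ.next σ.halt p (Nd.top v).2 (Nd.top v').2 ∧ Rst σ L v' := by
  induction H with
  | @halt x v h =>
    rintro p L rfl hL
    exact ⟨PRun.halt h, hL⟩
  | @step x y v v₁ v' j h1 h2 _ ih =>
    rintro p L rfl hL
    obtain ⟨i, q, rfl, rfl, h1⟩ := h1
    obtain ⟨c₁, hc₁, rfl⟩ := Option.map_eq_some_iff.1 h2
    obtain ⟨hr, hL'⟩ := ih q L rfl (Rst.dead i c₁ hL)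
    exact ⟨PRun.step h1 hc₁ hr, hL'⟩

theorem qpop_complete {L : List S.C} {v : Nd (Dir S' Bool × S'.C)} (H : Rst σ L v) :
    ∀ x r, L = x :: r → ∃ v', PRun (pd S' Bool) (qnext σ) (qhalt σ) .pop v v' ∧
      σ.R x v'.top.2 ∧ Rst σ r v' := by
  induction H with
  | root x => intro y r h; cases h
  | @live v c L i c' hR hL _ =>
    intro x r h
    cases h
    refine ⟨v, PRun.step (i := some none) (q := .done) (c₁ := v) ?_ rfl (PRun.halt trivial), hR,
      hL⟩
    exact ⟨rfl, Or.inr ⟨rfl, rfl⟩⟩
  | @dead v L i c' hL ih =>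
    intro x r h
    obtain ⟨v', hr, h1, h2⟩ := ih x r h
    refine ⟨v', PRun.step (i := some none) (q := .pop) (c₁ := v) ?_ rfl hr, h1, h2⟩
    exact ⟨rfl, Or.inl ⟨rfl, rfl⟩⟩

theorem qdone_sound {v v' : (pd S' Bool).C}
    (H : PRun (pd S' Bool) (qnext σ) (qhalt σ) .done v v') : v' = v := by
  cases H with
  | halt _ => rfl
  | step h _ _ => exact h.elim

theorem qpop_sound {x : QP S σ.P} {v v' : (pd S' Bool).C}
    (H : PRun (pd S' Bool) (qnext σ) (qhalt σ) x v v') :
    ∀ (L : List S.C), x = .pop → Rst σ L v →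
      ∃ y r, L = y :: r ∧ σ.R y (Nd.top v').2 ∧ Rst σ r v' := by
  induction H with
  | @halt x v h =>
    rintro L rfl hL
    exact h.elim
  | @step x y v v₁ v' j h1 h2 h3 ih =>
    rintro L rfl hL
    obtain ⟨rfl, h1⟩ := h1
    cases hL with
    | root x => cases h2
    | @live v c L i c' hR hL =>
      cases h2
      rcases h1 with ⟨h1, rfl⟩ | ⟨h1, rfl⟩
      · exact absurd h1 (by simp [pd_lab])
      · rw [qdone_sound h3]
        exact ⟨c, L, rfl, hR, hL⟩
    | @dead v _ i c' hL =>
      cases h2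
      rcases h1 with ⟨h1, rfl⟩ | ⟨h1, rfl⟩
      · exact ih L rfl hL
      · exact absurd h1 (by simp [pd_lab])

variable (σ)

/-- The simulation of `qd S` by `pd S' Bool`. -/
def Sim.qd : Sim (qd S) (pd S' Bool) where
  R := fun L v => ∃ c L', L = c :: L' ∧ σ.R c v.top.2 ∧ Rst σ L' v
  labf := fun l => some (σ.labf l.2)
  hlab := by
    rintro _ v ⟨c, L, rfl, hR, hL⟩
    simp [Ho.qd, pd_lab, σ.hlab _ _ hR]
  P := QP S σ.P
  finP := inferInstance
  start := qstart σ
  next := qnext σ
  halt := qhalt σ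
  complete := by
    rintro i _ v L₁ ⟨c, L, rfl, hR, hL⟩ hi
    cases i with
    | pop =>
      cases L with
      | nil => cases hi
      | cons x r =>
        cases hi
        obtain ⟨v', hr, h1, h2⟩ := qpop_complete hL x r rfl
        exact ⟨v', hr, x, r, rfl, h1, h2⟩
    | push i =>
      obtain ⟨y, hy, rfl⟩ := Option.map_eq_some_iff.1 hi
      cases i with
      | none =>
        cases hy
        refine ⟨.psh v ((false, none), v.top.2), ?_, c, c :: L, rfl, hR, Rst.live _ _ hR hL⟩
        exact PRun.step (S := pd S' Bool) (i := some (some (false, none))) (q := QP.done)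
          ⟨rfl, rfl⟩ rfl (PRun.halt (p := QP.done) trivial)
      | some i =>
        obtain ⟨d, hr, hR'⟩ := σ.complete i c v.top.2 y hR hy
        obtain ⟨v', hr', ht, hL'⟩ := qinn_complete hr (.psh v ((false, none), v.top.2)) (c :: L) rfl
          (Rst.live _ _ hR hL)
        refine ⟨v', ?_, y, c :: L, rfl, ?_, hL'⟩
        · exact PRun.step (S := pd S' Bool) (i := some (some (false, none)))
            (q := .inn (σ.start i)) ⟨rfl, rfl⟩ rfl hr'
        · rw [ht]; exact hR'
    | inn i =>
      obtain ⟨y, hy, rfl⟩ := Option.map_eq_some_iff.1 hi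
      obtain ⟨d, hr, hR'⟩ := σ.complete i c v.top.2 y hR hy
      obtain ⟨v', hr', ht, hL'⟩ := qinn_complete hr v L rfl hL
      refine ⟨v', hr', y, L, rfl, ?_, hL'⟩
      rw [ht]; exact hR'
  sound := by
    rintro i _ v v' ⟨c, L, rfl, hR, hL⟩ hr
    cases i with
    | pop =>
      obtain ⟨y, r, rfl, h1, h2⟩ := qpop_sound hr L rfl hL
      exact ⟨y :: r, rfl, y, r, rfl, h1, h2⟩
    | push i =>
      cases i with
      | none =>
        cases hr with
        | halt h => exact h.elim
        | step h1 h2 h3 =>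
          obtain ⟨rfl, rfl⟩ := h1
          cases h2
          rw [qdone_sound h3]
          exact ⟨c :: c :: L, rfl, c, c :: L, rfl, hR, Rst.live _ _ hR hL⟩
      | some i =>
        cases hr with
        | halt h => exact h.elim
        | step h1 h2 h3 =>
          obtain ⟨rfl, rfl⟩ := h1
          cases h2
          obtain ⟨hr', hL'⟩ := qinn_sound h3 _ (c :: L) rfl (Rst.live _ _ hR hL)
          obtain ⟨y, hy, hR'⟩ := σ.sound i c v.top.2 v'.top.2 hR hr'
          refine ⟨y :: c :: L, ?_, y, c :: L, rfl, hR', hL'⟩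
          exact Option.map_eq_some_iff.2 ⟨y, hy, rfl⟩
    | inn i =>
      obtain ⟨hr', hL'⟩ := qinn_sound hr _ L rfl hL
      obtain ⟨y, hy, hR'⟩ := σ.sound i c v.top.2 v'.top.2 hR hr'
      refine ⟨y :: L, ?_, y, L, rfl, hR', hL'⟩
      exact Option.map_eq_some_iff.2 ⟨y, hy, rfl⟩

end Q

/-! ### Embeddings -/

/-- An embedding of storage types (on the configurations which satisfy an invariant). -/
structure Emb (S Q : Sto) where
  /-- the configurations -/
  fC : S.C → Q.C
  /-- the instructions -/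
  fI : S.I → Q.I
  /-- the labels -/
  fΛ : Q.Λ → S.Λ
  /-- the invariant -/
  inv : S.C → Prop
  hinv : ∀ i c c₁, inv c → S.st i c = some c₁ → inv c₁
  lab : ∀ c, S.lab c = fΛ (Q.lab (fC c))
  st : ∀ i c, inv c → Q.st (fI i) (fC c) = (S.st i c).map fC

/-- Composition of an embedding and a simulation. -/
def Emb.sim {S Q S' : Sto} (e : Emb S Q) (σ : Sim Q S') : Sim S S' where
  R := fun c c' => e.inv c ∧ σ.R (e.fC c) c'
  labf := fun l => e.fΛ (σ.labf l)
  hlab := fun c c' h => by rw [e.lab, σ.hlab _ _ h.2]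
  P := σ.P
  finP := inferInstance
  start := fun i => σ.start (e.fI i)
  next := σ.next
  halt := σ.halt
  complete := fun i c c' c₁ h hi => by
    obtain ⟨c₁', h1, h2⟩ := σ.complete (e.fI i) (e.fC c) c' (e.fC c₁) h.2 (by
      rw [e.st i c h.1, hi]
      rfl)
    exact ⟨c₁', h1, e.hinv i c c₁ h.1 hi, h2⟩
  sound := fun i c c' d' h hr => by
    obtain ⟨c₁, h1, h2⟩ := σ.sound (e.fI i) (e.fC c) c' d' h.2 hr
    rw [e.st i c h.1, Option.map_eq_some_iff] at h1
    obtain ⟨c₀, h1, rfl⟩ := h1
    exact ⟨c₀, h1, e.hinv i c c₀ h.1 h1, h2⟩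

/-- The embedding of the stacks of order `1`. -/
def embZero (Γ : Type) [Finite Γ] : Emb (el Γ 1) (qd (el Γ 0)) where
  fC := fun c => (c : List Γ)
  fI := fun o => match o with
    | Op.psh a => QI.push (S := el Γ 0) (some a)
    | Op.pop => QI.pop
  fΛ := fun l => l
  inv := fun c => (c : List Γ) ≠ []
  hinv := fun o c c₁ hc h => by
    cases o with
    | psh a =>
      cases h
      exact List.cons_ne_nil _ _
    | pop =>
      change List Γ at c
      rcases c with _ | ⟨x, _ | ⟨y, r⟩⟩
      · exact absurd rfl hc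
      · cases h
      · cases h
        exact List.cons_ne_nil _ _
  lab := fun c => by
    change (c : List Γ).head? = ((c : List Γ).head?).map fun a => a
    simp
  st := fun o c hc => by
    change List Γ at c
    cases o with
    | psh a =>
      cases c with
      | nil => exact absurd rfl hc
      | cons x r => rfl
    | pop =>
      rcases c with _ | ⟨x, _ | ⟨y, r⟩⟩
      · rfl
      · rfl
      · rfl

/-- The embedding of the stacks of order at least `2`. -/
def embSucc (Γ : Type) [Finite Γ] (n : ℕ) : Emb (el Γ (n + 2)) (qd (el Γ (n + 1))) where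
  fC := fun c => (c : List (Stk Γ n))
  fI := fun o => match o with
    | Op.pop => QI.pop
    | Op.cpy => QI.push (S := el Γ (n + 1)) none
    | Op.inn o => QI.inn (S := el Γ (n + 1)) o
  fΛ := fun l => Option.join l
  inv := fun _ => True
  hinv := fun _ _ _ _ _ => trivial
  lab := fun c => by
    change List (Stk Γ n) at c
    rcases c with _ | ⟨x, r⟩
    · rfl
    · rfl
  st := fun o c _ => by
    change List (Stk Γ n) at c
    cases o with
    | pop =>
      rcases c with _ | ⟨x, _ | ⟨y, r⟩⟩
      · rfl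
      · rfl
      · rfl
    | cpy =>
      rcases c with _ | ⟨x, r⟩
      · rfl
      · rfl
    | inn o =>
      rcases c with _ | ⟨x, r⟩
      · rfl
      · change (o.app x).map (fun y => y :: r) =
          ((o.app x).map (fun y => y :: r)).map fun c => c
        cases o.app x with
        | none => rfl
        | some y => rfl

/-! ### The simulation -/

/-- The simulation of a storage type by itself. -/
def Sim.id (S : Sto) : Sim S S where
  R := fun c c' => c = c'
  labf := fun l => l
  hlab := fun c c' h => by rw [h]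
  P := Option S.I
  finP := inferInstance
  start := fun i => some i
  next := fun p _ i q => p.isSome = true ∧ i = p ∧ q = none
  halt := fun p _ => p = none
  complete := by
    rintro i c c' c₁ rfl hi
    refine ⟨c₁, ?_, rfl⟩
    exact PRun.step (i := some i) (q := none) ⟨rfl, rfl, rfl⟩ hi (PRun.halt rfl)
  sound := by
    rintro i c c' d' rfl hr
    cases hr with
    | halt h => cases h
    | step h1 h2 h3 =>
      obtain ⟨-, rfl, rfl⟩ := h1
      cases h3 with
      | halt _ => exact ⟨_, h2, rfl⟩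
      | step h _ _ => cases h.1

theorem exists_sim (Γ : Type) [Finite Γ] (a : Γ) : ∀ n : ℕ,
    ∃ σ : Sim (el Γ n) (it Γ n), σ.R (elInit a n) (itInit a n)
  | 0 => ⟨Sim.id (sym Γ), rfl⟩
  | 1 => by
    refine ⟨(embZero Γ).sim (Sim.qd (Sim.id (sym Γ))), ?_, a, [], rfl, rfl, Rst.root _⟩
    exact List.cons_ne_nil _ _
  | n + 2 => by
    obtain ⟨σ, hσ⟩ := exists_sim Γ a (n + 1)
    exact ⟨(embSucc Γ n).sim σ.qd, trivial, Stk.init a n, [], rfl, hσ, Rst.root _⟩

/-- HO-2: the grammars over the elements of stacks are simulated by grammars over the iterated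
pushdowns. -/
theorem el_it {Γ : Type} [Finite Γ] (n : ℕ) (a : Γ) {A : Type} (G : Gr (el Γ n) A) (S₀ : G.N) :
    ∃ (G' : Gr (it Γ n) A) (S₁ : G'.N),
      ∀ w : List A, G.Gen S₀ (elInit a n) w ↔ G'.Gen S₁ (itInit a n) w := by
  obtain ⟨σ, hσ⟩ := exists_sim Γ a n
  exact ⟨σ.gr G, (Sum.inl S₀ : G.N ⊕ (G.N × σ.P)), fun w => σ.gen_iff G S₀ hσ w⟩

end Pool.Agent.Lib.LinSpace.Ho
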