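import Pool.Agent.Lib.LinSpace.Ho.LGr

/-!
Soundness of the skeleton grammar.
-/

set_option autoImplicit false

namespace Pool.Agent.Lib.LinSpace.Ho

section Inv

variable {S : Sto} {T : Type} {L : LGr S T}

theorem LGr.Der.nil_inv {h : ℕ} {c : S.C} {w : List T} (H : L.Der h c [] w) : w = [] := by
  cases H
  rfl

theorem LGr.Der.ltr_inv {h : ℕ} {c : S.C} {t : T} {l : List (T ⊕ (L.N × Option S.I))}
    {w : List T} (H : L.Der h c (.inl t :: l) w) : ∃ v, w = t :: v ∧ L.Der h c l v := by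
  cases H with
  | ltr H => exact ⟨_, rfl, H⟩

theorem LGr.Der.nt_inv {h : ℕ} {c : S.C} {B : L.N} {i : Option S.I} {w : List T}
    (H : L.Der h c [.inr (B, i)] w) : ∃ k c' r, h = k + 1 ∧ S.stO i c = some c' ∧
      L.rule B (S.lab c') r ∧ L.Der k c' r w := by
  cases H with
  | nt h1 h2 h3 h4 =>
    have := h4.nil_inv
    subst this
    rw [List.append_nil]
    exact ⟨_, _, _, rfl, h1, h2, h3⟩

theorem LGr.Der.nt_shift {h : ℕ} {c : S.C} {B : L.N} {i : Option S.I} {w : List T}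
    (H : L.Der h c [.inr (B, i)] w) :
    ∃ c', S.stO i c = some c' ∧ L.Der h c' [.inr (B, none)] w := by
  obtain ⟨k, c', r, rfl, h1, h2, h3⟩ := H.nt_inv
  refine ⟨c', h1, ?_⟩
  have := LGr.Der.nt (Sto.stO_none S c') h2 h3 (LGr.Der.nil (h := k + 1) (c := c'))
  rwa [List.append_nil] at this

theorem LGr.Der.cons_inv {h : ℕ} {c : S.C} {x : T ⊕ (L.N × Option S.I)}
    {l : List (T ⊕ (L.N × Option S.I))} {w : List T}
    (H : L.Der h c (x :: l) w) : ∃ u v, w = u ++ v ∧ L.Der h c [x] u ∧ L.Der h c l v :=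
  LGr.Der.of_append (l := [x]) (l' := l) H

end Inv

variable {S : Sto} {Γ T : Type} [Finite Γ] {G : Gr (pd S Γ) T}

/-- The lists of facts are proved at a configuration. -/
theorem FL.sound {h : ℕ} (ih : ∀ (c : S.C) (E : Set G.N) (d : Dir S Γ) (A : G.N)
      (o : Option G.N) (w : List (SZ G)), (skel G).Der h c [itF E d A o none] w →
      w = [] ∧ Fact G E d c A o) {c : S.C} {fl : List (SI G)}
    (hfl : ∀ x ∈ fl, ∃ E d A o i, x = itF (G := G) E d A o i) :
    ∀ {w : List (SZ G)}, (skel G).Der h c fl w →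
    w = [] ∧ ∀ E d A o i, itF (G := G) E d A o i ∈ fl →
      ∃ c', S.stO i c = some c' ∧ Fact G E d c' A o := by
  induction fl with
  | nil =>
    intro w H
    exact ⟨H.nil_inv, by simp⟩
  | cons x l ihl =>
    intro w H
    obtain ⟨u, v, rfl, h1, h2⟩ := H.cons_inv
    obtain ⟨rfl, h3⟩ := ihl (fun y hy => hfl y (List.mem_cons_of_mem _ hy)) h2
    obtain ⟨E, d, A, o, i, rfl⟩ := hfl x (List.mem_cons_self)
    obtain ⟨c', hc', h4⟩ := LGr.Der.nt_shift (L := skel G) h1
    obtain ⟨rfl, h5⟩ := ih c' E d A o u h4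
    refine ⟨rfl, fun E' d' A' o' i' hm => ?_⟩
    rcases List.mem_cons.1 hm with hm | hm
    · simp only [itF, Sum.inr.injEq, Prod.mk.injEq, Sum.inl.injEq] at hm
      obtain ⟨⟨rfl, rfl, rfl, rfl⟩, rfl⟩ := hm
      exact ⟨c', hc', h5⟩
    · exact h3 E' d' A' o' i' hm

theorem skel_fact {h : ℕ} {c : S.C} {E : Set G.N} {d : Dir S Γ} {A : G.N} {o : Option G.N}
    {w : List (SZ G)} (H : (skel G).Der h c [itF E d A o none] w) :
    w = [] ∧ Fact G E d c A o := by
  induction h using Nat.strong_induction_on generalizing c E d A o w with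
  | _ h ih =>
    obtain ⟨k, c', r, rfl, hc, hr, H⟩ := LGr.Der.nt_inv (L := skel G) H
    rw [Sto.stO_none, Option.some.injEq] at hc
    subst hc
    have ihk : ∀ (c : S.C) (E : Set G.N) (d : Dir S Γ) (A : G.N)
      (o : Option G.N) (w : List (SZ G)), (skel G).Der k c [itF E d A o none] w →
      w = [] ∧ Fact G E d c A o := fun c E d A o w H => ih k (by omega) H
    change ruleF E d A o (S.lab c) r at hr
    rcases hr with ⟨rfl, h1, rfl⟩ | ⟨B, h1, rfl⟩ | ⟨B, C, h1, rfl⟩ | ⟨B, C, h1, rfl⟩ |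
        ⟨B, h1, rfl, rfl⟩ | ⟨B, h1, rfl, h2, rfl⟩ | ⟨d', B, E', fl, h1, hFL, h2, rfl, rfl⟩ |
        ⟨d', B, C, E', fl, h1, hFL, h2, rfl⟩
    · exact ⟨H.nil_inv, .eps h1⟩
    · obtain ⟨rfl, h2⟩ := ihk _ _ _ _ _ _ H
      exact ⟨rfl, .stay h1 h2⟩
    · obtain ⟨u, v, rfl, h2, h3⟩ := H.cons_inv
      obtain ⟨rfl, h2'⟩ := ihk _ _ _ _ _ _ h2
      obtain ⟨rfl, h3'⟩ := ihk _ _ _ _ _ _ h3
      exact ⟨rfl, .bin1 h1 h2' h3'⟩
    · obtain ⟨u, v, rfl, h2, h3⟩ := H.cons_inv
      obtain ⟨rfl, h2'⟩ := ihk _ _ _ _ _ _ h2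
      obtain ⟨rfl, h3'⟩ := ihk _ _ _ _ _ _ h3
      exact ⟨rfl, .bin2 h1 h2' h3'⟩
    · exact ⟨H.nil_inv, .pop h1⟩
    · exact ⟨H.nil_inv, .popE h1 h2⟩
    · obtain ⟨u, v, rfl, h3, h4⟩ := LGr.Der.of_append H
      obtain ⟨rfl, h3'⟩ := FL.sound ihk hFL.2 h3
      obtain ⟨c', hc', h4'⟩ := LGr.Der.nt_shift (L := skel G) h4
      obtain ⟨rfl, h4''⟩ := ihk _ _ _ _ _ _ h4'
      refine ⟨rfl, .down h1 hc' (fun A' hA' => ?_) h4''⟩
      obtain ⟨c'', hc'', h5⟩ := h3' _ _ _ _ _ (h2 A' hA')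
      rw [Sto.stO_none, Option.some.injEq] at hc''
      subst hc''
      exact h5
    · obtain ⟨u, v, rfl, h3, h4⟩ := LGr.Der.of_append H
      obtain ⟨rfl, h3'⟩ := FL.sound ihk hFL.2 h3
      obtain ⟨u', v', rfl, h4', h6⟩ := h4.cons_inv
      obtain ⟨c', hc', h4''⟩ := LGr.Der.nt_shift (L := skel G) h4'
      obtain ⟨rfl, h7⟩ := ihk _ _ _ _ _ _ h4''
      obtain ⟨rfl, h8⟩ := ihk _ _ _ _ _ _ h6
      refine ⟨rfl, .downup h1 hc' (fun A' hA' => ?_) h7 h8⟩
      obtain ⟨c'', hc'', h5⟩ := h3' _ _ _ _ _ (h2 A' hA')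
      rw [Sto.stO_none, Option.some.injEq] at hc''
      subst hc''
      exact h5

/-- Concatenation of forests. -/
def Tr.app {α : Type} : Tr α → Tr α → Tr α
  | .nil, t' => t'
  | .nd a ch nx, t' => .nd a ch (Tr.app nx t')

theorem Tr.wd_app {α : Type} (t t' : Tr α) : (t.app t').wd = t.wd ++ t'.wd := by
  induction t with
  | nil => rfl
  | nd a ch nx _ ih => simp [Tr.app, Tr.wd, ih]

theorem Tr.nodes_app {α : Type} (t t' : Tr α) : (t.app t').nodes = t.nodes ++ t'.nodes := by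
  induction t with
  | nil => rfl
  | nd a ch nx _ ih => simp [Tr.app, Tr.nodes, ih]

theorem chart_app {N Λ K : Type} (t t' : Tr (Lb N Λ × K)) :
    chart (t.app t') = chart t ++ chart t' := by
  simp [chart, Tr.wd_app]

theorem SndF.app {N Λ K : Type} {walk : N → K → N → K → Prop} {P : Option K}
    {t t' : Tr (Lb N Λ × K)} (h : SndF walk P t) (h' : SndF walk P t') :
    SndF walk P (t.app t') := by
  induction t generalizing P with
  | nil => exact h'
  | nd a ch nx _ ih =>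
    obtain ⟨h1, h2, h3, h4, h5⟩ := h
    exact ⟨h1, h2, h3, h4, ih h5 h'⟩

theorem skel_sound {h : ℕ} {c : S.C} {f : Bool} {d : Dir S Γ} {q : Par G}
    {s : List (SZ G)} (H : (skel G).Der h c [itR f d q none] s) (P : Option (Cf S Γ))
    (v : Cf S Γ) (hv : v.top = (d, c)) (hq : ParS G P v q) :
    ∃ t : Tr (Lb G.N (Dir S Γ × S.Λ) × Cf S Γ), s = (chart t).map Prod.fst ∧
      SndF G.W P t ∧ (∀ a ∈ t.nodes, a.1.1 = (pd S Γ).lab a.2) ∧
      (f = true → ∃ l ch, t = .nd (l, v) ch .nil) := by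
  induction h using Nat.strong_induction_on generalizing c f d q s P v with
  | _ h ih =>
    obtain ⟨k, c', r, rfl, hc, hr, H⟩ := LGr.Der.nt_inv (L := skel G) H
    rw [Sto.stO_none, Option.some.injEq] at hc
    subst hc
    change ruleR f d q (S.lab c) r at hr
    obtain ⟨E, X, fl, hFL, hE, hX, alt⟩ := hr
    have hlab : (pd S Γ).lab v = (d, S.lab c) := by rw [pd_lab, hv]
    have hfs : ∀ (c : S.C) (E : Set G.N) (d : Dir S Γ) (A : G.N)
      (o : Option G.N) (w : List (SZ G)), (skel G).Der k c [itF E d A o none] w →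
      w = [] ∧ Fact G E d c A o := fun c E d A o w H => skel_fact H
    -- the facts
    have main : ∀ (r' : List (SI G)) (s : List (SZ G)), (skel G).Der k c (fl ++ r') s →
        (skel G).Der k c r' s ∧ E ⊆ epsAt G v ∧
        (∀ d' B C, (d', B, C) ∈ X → ∃ c', S.stO d'.2 v.top.2 = some c' ∧
          Fact G E d' c' B (some C)) := by
      intro r' s H
      obtain ⟨u, v', rfl, h3, h4⟩ := LGr.Der.of_append H
      obtain ⟨rfl, h3'⟩ := FL.sound hfs hFL.2 h3
      refine ⟨h4, ?_, ?_⟩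
      · intro A hA
        obtain ⟨c', hc', h5⟩ := h3' _ _ _ _ _ (hE A hA)
        rw [Sto.stO_none, Option.some.injEq] at hc'
        subst hc'
        exact (h5.sound v hv hq.1).1 rfl
      · intro d' B C hx
        obtain ⟨c', hc', h5⟩ := h3' _ _ _ _ _ (hX _ hx)
        exact ⟨c', by rw [hv]; exact hc', h5⟩
    have hClo : E ⊆ epsAt G v → (∀ d' B C, (d', B, C) ∈ X → ∃ c', S.stO d'.2 v.top.2 = some c' ∧
          Fact G E d' c' B (some C)) → Clo G (d, S.lab c) q.1 E q.2.2.1 X ⊆ loops G v := by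
      intro h1 h2
      have := Clo.sound (lp := q.1) h1 hq.2.1 h2
      rwa [hlab] at this
    generalize hCl : Clo G (d, S.lab c) q.1 E q.2.2.1 X = Cl at alt hClo
    have hDn : Cl ⊆ loops G v → ∀ x ∈ mkDn G d q Cl, walkO G.W x.1 P x.2 (some v) := by
      rintro hCl x ⟨B, C, h1, h2, h3⟩
      obtain ⟨p, hp, hlp, hst, v0, u0, hP, hu, hW⟩ := hq.2.2.1 _ h1
      obtain rfl := Option.some.inj hu
      have hL : G.W C v x.2 v := hCl h3
      refine ⟨v0, v, hP, rfl, hW.trans (.mv (c' := v) (i := some (some d)) ?_ ?_ hL)⟩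
      · rw [← hlp]; exact h2
      · refine pd_stO_push.2 ⟨v.top.2, ?_, ?_⟩
        · rw [hv] at hst; rw [hv]; exact hst
        · have := Nd.eq_psh hp
          rw [hv] at this ⊢
          exact this
    have hUp : Cl ⊆ loops G v → ∀ x ∈ mkUp G (d, S.lab c) q Cl, walkO G.W x.1 (some v) x.2 P := by
      rintro hCl x ⟨B, C, h1, h2, h3⟩
      obtain ⟨p, hp, v0, u0, hv0, hP, hW⟩ := hq.2.2.2 _ h3
      obtain rfl := Option.some.inj hv0
      have hL : G.W x.1 v B v := hCl h1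
      refine ⟨v, u0, rfl, hP, hL.trans (.mv (c' := p) (i := some none) ?_ ?_ hW)⟩
      · rw [hlab]; exact h2
      · exact hp
    rcases alt with ⟨rfl, d', rfl⟩ | ⟨ds, hds, rfl⟩
    · obtain ⟨H, hE', hX'⟩ := main _ _ H
      have hCl' := hClo hE' hX'
      obtain ⟨c', hc', H⟩ := LGr.Der.nt_shift (L := skel G) H
      obtain ⟨t, h1, h2, h3, h4⟩ := ih k (by omega) H P (Nd.psh v (d', c')) rfl (by
        refine ⟨?_, ?_, ?_, ?_⟩
        · intro A hA
          exact ⟨v, rfl, hE' hA⟩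
        · intro x hx
          exact ⟨v, rfl, hlab.symm, by rw [hv]; exact hc', hCl' hx⟩
        · intro x hx
          exact ⟨v, rfl, hlab.symm, by rw [hv]; exact hc', hDn hCl' x hx⟩
        · intro x hx
          exact ⟨v, rfl, hUp hCl' x hx⟩)
      exact ⟨t, h1, h2, h3, by simp⟩
    · obtain ⟨H, hE', hX'⟩ := main _ _ H
      have hCl' := hClo hE' hX'
      obtain ⟨s', rfl, H'⟩ := LGr.Der.ltr_inv (L := skel G) H
      obtain ⟨u, v', rfl, h1, h2⟩ := LGr.Der.of_append (L := skel G) H'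
      obtain ⟨v'', rfl, h2'⟩ := LGr.Der.ltr_inv (L := skel G) h2
      have := h2'.nil_inv
      subst this
      have forest : ∀ (ds : List (Dir S Γ)) (u : List (SZ G)),
          (skel G).Der k c (ds.map (fun d' => itR false d' ((d, S.lab c), (E, (Cl,
            (Cl, Cl)))) d'.2)) u →
          ∃ t : Tr (Lb G.N (Dir S Γ × S.Λ) × Cf S Γ), u = (chart t).map Prod.fst ∧
            SndF G.W (some v) t ∧ (∀ a ∈ t.nodes, a.1.1 = (pd S Γ).lab a.2) := by
        intro ds
        induction ds with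
        | nil =>
          intro u H
          exact ⟨.nil, H.nil_inv, trivial, by simp [Tr.nodes]⟩
        | cons d' ds ihd =>
          intro u H
          obtain ⟨u1, u2, rfl, H1, H2⟩ := LGr.Der.cons_inv (L := skel G)
            (x := itR false d' ((d, S.lab c), (E, (Cl, (Cl, Cl)))) d'.2)
            (l := ds.map (fun d' => itR false d' ((d, S.lab c), (E, (Cl, (Cl, Cl)))) d'.2)) H
          obtain ⟨t2, h21, h22, h23⟩ := ihd u2 H2
          obtain ⟨c', hc', H1⟩ := LGr.Der.nt_shift (L := skel G) H1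
          obtain ⟨t1, h11, h12, h13, -⟩ := ih k (by omega) H1 (some v) (Nd.psh v (d', c')) rfl (by
            refine ⟨?_, ?_, ?_, ?_⟩
            · intro A hA
              exact ⟨v, rfl, hE' hA⟩
            · intro x hx
              exact ⟨v, rfl, hlab.symm, by rw [hv]; exact hc', hCl' hx⟩
            · intro x hx
              exact ⟨v, rfl, hlab.symm, by rw [hv]; exact hc', v, v, rfl, rfl, hCl' hx⟩
            · intro x hx
              exact ⟨v, rfl, v, v, rfl, rfl, hCl' hx⟩)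
          refine ⟨t1.app t2, ?_, h12.app h22, ?_⟩
          · rw [chart_app, List.map_append, h11, h21]
          · intro a ha
            rw [Tr.nodes_app, List.mem_append] at ha
            exact ha.elim (h13 a) (h23 a)
      obtain ⟨t, ht1, ht2, ht3⟩ := forest ds u h1
      refine ⟨.nd (((d, S.lab c), (Cl, (mkDn G d q Cl, mkUp G (d, S.lab c) q Cl))), v) t .nil,
        ?_, ⟨?_, ?_, ?_, ht2, trivial⟩, ?_, ?_⟩
      · rw [ht1]
        simp [chart, Tr.wd]
      · intro x hx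
        exact hCl' hx
      · exact hDn hCl'
      · exact hUp hCl'
      · intro a ha
        simp only [Tr.nodes, List.append_nil, List.mem_cons] at ha
        rcases ha with rfl | ha
        · exact hlab.symm
        · exact ht3 a ha
      · intro _
        exact ⟨_, t, rfl⟩

end Pool.Agent.Lib.LinSpace.Ho
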