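import Pool.Agent.Lib.LinSpace.Ho.LGr
import Pool.Agent.Lib.LinSpace.Ho.TreeDefs
import Pool.Agent.Lib.LinSpace.Ho.SkelSound
import Pool.Agent.Lib.LinSpace.Ho.Engine
import Pool.Agent.Lib.LinSpace.Ho.ElGr
import Pool.Agent.Lib.LinSpace.Ho.Sim
import Pool.Agent.Lib.LinSpace.Load

section

/-!
The derivations of a grammar over a storage type, seen from their events.
-/

set_option autoImplicit false

namespace Pool.Agent.Lib.LinSpace.Ho

theorem Gr.D.gen {S : Sto} {T : Type} {G : Gr S T} {h : ℕ} {A : G.N} {c : S.C}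
    {o : Option (G.N × S.C)} (H : G.D h A c o) :
    (o = none → G.Gen A c []) ∧
      ∀ B c', o = some (B, c') → ∀ w, G.Gen B c' w → G.Gen A c w := by
  induction H with
  | refl =>
    refine ⟨by simp, ?_⟩
    intro B c' ho w hw
    cases ho
    exact hw
  | eps h => exact ⟨fun _ => .eps h, by simp⟩
  | mv h1 h2 _ ih =>
    exact ⟨fun ho => .mv h1 h2 (ih.1 ho), fun B c' ho w hw => .mv h1 h2 (ih.2 B c' ho w hw)⟩
  | bin1 h1 _ _ ih1 ih2 =>
    refine ⟨fun ho => ?_, fun B c' ho w hw => ?_⟩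
    · simpa using Gr.Gen.bin h1 (ih1.1 rfl) (ih2.1 ho)
    · simpa using Gr.Gen.bin h1 (ih1.1 rfl) (ih2.2 B c' ho w hw)
  | bin2 h1 _ _ ih1 ih2 =>
    refine ⟨fun ho => ?_, fun B c' ho w hw => ?_⟩
    · simpa using Gr.Gen.bin h1 (ih1.1 ho) (ih2.1 rfl)
    · simpa using Gr.Gen.bin h1 (ih1.2 B c' ho w hw) (ih2.1 rfl)

theorem Ev.mono_walk {N K T : Type} {walk walk' : N → K → N → K → Prop}
    {tm : N → K → T → Prop} {bn : N → K → N → N → Prop} {tgt : N → K → Prop} {A : N} {k : K}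
    {W : List (Option T)} (h : ∀ A k B k', walk A k B k' → walk' A k B k')
    (H : Ev walk tm bn tgt A k W) : Ev walk' tm bn tgt A k W := by
  induction H with
  | hole h1 h2 => exact .hole (h _ _ _ _ h1) h2
  | term h1 h2 => exact .term (h _ _ _ _ h1) h2
  | bin h1 h2 _ _ ih1 ih2 => exact .bin (h _ _ _ _ h1) h2 ih1 ih2

theorem Ev.prepend {N K T : Type} {walk : N → K → N → K → Prop}
    {tm : N → K → T → Prop} {bn : N → K → N → N → Prop} {tgt : N → K → Prop} {A A' : N}
    {k k' : K} {W : List (Option T)}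
    (h : ∀ B k'', walk A k B k'' → walk A' k' B k'')
    (H : Ev walk tm bn tgt A k W) : Ev walk tm bn tgt A' k' W := by
  cases H with
  | hole h1 h2 => exact .hole (h _ _ h1) h2
  | term h1 h2 => exact .term (h _ _ h1) h2
  | bin h1 h2 h3 h4 => exact .bin (h _ _ h1) h2 h3 h4

theorem Gr.gen_iff {S : Sto} {T : Type} (G : Gr S T) (A : G.N) (c : S.C) (w : List T) :
    G.Gen A c w ↔ (w = [] ∧ ∃ h, G.D h A c none) ∨
      ∃ V : List S.C, V.length ≤ 2 * w.length ∧
        Ev (fun A c B c' => c' ∈ V ∧ G.W A c B c') (fun B c a => G.term B (S.lab c) a)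
          (fun B c C E => G.bin B (S.lab c) C E) (fun _ _ => False) A c (w.map some) := by
  constructor
  · intro H
    have key : (w = [] ∧ ∃ h, G.D h A c none) ∨
      ∃ V : List S.C, V.length + 1 ≤ 2 * w.length ∧
        Ev (fun A c B c' => c' ∈ V ∧ G.W A c B c') (fun B c a => G.term B (S.lab c) a)
          (fun B c C E => G.bin B (S.lab c) C E) (fun _ _ => False) A c (w.map some) := by
      induction H with
      | eps h => exact .inl ⟨rfl, 0, .eps h⟩
      | @term A c a h => exact .inr ⟨[c], by simp, .term (B := A) ⟨by simp, .refl _ _⟩ h⟩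
      | @bin A B C c u v h _ _ ih1 ih2 =>
        rcases ih1 with ⟨rfl, h1, H1⟩ | ⟨V1, hV1, H1⟩ <;>
          rcases ih2 with ⟨rfl, h2, H2⟩ | ⟨V2, hV2, H2⟩
        · exact .inl ⟨rfl, h1 + h2 + 1, .bin1 h (H1.mono (by omega)) (H2.mono (by omega))⟩
        · refine .inr ⟨V2, by simpa using hV2, ?_⟩
          exact H2.prepend fun B' c' hw => ⟨hw.1, .bin1 h H1 hw.2⟩
        · refine .inr ⟨V1, by simpa using hV1, ?_⟩
          rw [List.append_nil]
          exact H1.prepend fun B' c' hw => ⟨hw.1, .bin2 h hw.2 H2⟩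
        · refine .inr ⟨c :: (V1 ++ V2), ?_, ?_⟩
          · simp only [List.length_cons, List.length_append]
            omega
          · rw [List.map_append]
            refine .bin (B := A) (k' := c) ⟨by simp, .refl _ _⟩ h ?_ ?_
            · exact H1.mono_walk fun _ _ _ _ hw => ⟨by simp [hw.1], hw.2⟩
            · exact H2.mono_walk fun _ _ _ _ hw => ⟨by simp [hw.1], hw.2⟩
      | @mv A B c c' i w h1 h2 _ ih =>
        rcases ih with ⟨rfl, h, H⟩ | ⟨V, hV, H⟩
        · exact .inl ⟨rfl, h + 1, .mv h1 h2 H⟩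
        · exact .inr ⟨V, hV, H.prepend fun B' c' hw => ⟨hw.1, .mv h1 h2 hw.2⟩⟩
    rcases key with h | ⟨V, hV, H⟩
    · exact .inl h
    · exact .inr ⟨V, by omega, H⟩
  · rintro (⟨rfl, h, H⟩ | ⟨V, -, H⟩)
    · exact H.gen.1 rfl
    · generalize hW : w.map some = W at H
      induction H generalizing w with
      | hole _ h => exact h.elim
      | @term A B c c' a h1 h2 =>
        obtain ⟨-, h, H⟩ := h1
        have hw : w = [a] := by
          have : w.map some = [a].map some := hW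
          exact (List.map_injective_iff.2 (Option.some_injective _)) this
        subst hw
        exact H.gen.2 B c' rfl _ (.term h2)
      | @bin A B C E c c' u v h1 h2 _ _ ih1 ih2 =>
        obtain ⟨-, h, H⟩ := h1
        obtain ⟨w1, w2, rfl, h3, h4⟩ := List.map_eq_append_iff.1 hW
        exact H.gen.2 B c' rfl _ (.bin h2 (ih1 w1 h3) (ih2 w2 h4))

end Pool.Agent.Lib.LinSpace.Ho
end

section

/-!
Reachability between marked nodes of a tree, from the marked bracket word: computable in linear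
space, soundness and completeness.
-/

set_option autoImplicit false
set_option linter.unusedSectionVars false

namespace Pool.Agent.Lib.LinSpace.Ho

open Var

variable {N Λ K : Type}

/-! ### Linear space -/

/-- The finite part of a step. -/
def rstpG (y : (Option (Lb N Λ) × Mk N) × (Sm N × Sm N)) : Sm N :=
  match y.1.1 with
  | none => sm0
  | some l => comb l y.1.2 y.2.1 y.2.2

theorem rstp_eq (st : List (Sm N)) (e : Option (Lb N Λ) × Mk N) :
    rstp st e = if e.1.isNone then sm0 :: st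
      else rstpG (e, (st.headD sm0, st.tail.headD sm0)) :: st.tail.tail := by
  obtain ⟨o, m⟩ := e
  cases o <;> rfl

theorem lin_rstp [Finite N] [Finite Λ] :
    Lin (fun y : List (Option (Lb N Λ) × Mk N) × (List (Sm N) × (Option (Lb N Λ) × Mk N)) =>
      rstp y.2.1 y.2.2) := by
  have hst : Lin (fun y : List (Option (Lb N Λ) × Mk N) ×
      (List (Sm N) × (Option (Lb N Λ) × Mk N)) => y.2.1) := Lin.fst.comp Lin.snd
  have he : Lin (fun y : List (Option (Lb N Λ) × Mk N) ×
      (List (Sm N) × (Option (Lb N Λ) × Mk N)) => y.2.2) := Lin.snd.comp Lin.snd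
  have hb : Lin (fun y : List (Option (Lb N Λ) × Mk N) ×
      (List (Sm N) × (Option (Lb N Λ) × Mk N)) => y.2.2.1.isNone) :=
    (Lin.of_finite (fun e : Option (Lb N Λ) × Mk N => e.1.isNone)).comp he
  have hg : Lin (fun y : List (Option (Lb N Λ) × Mk N) ×
      (List (Sm N) × (Option (Lb N Λ) × Mk N)) =>
      rstpG (y.2.2, (y.2.1.headD sm0, y.2.1.tail.headD sm0))) :=
    (Lin.of_finite (rstpG : (Option (Lb N Λ) × Mk N) × (Sm N × Sm N) → Sm N)).comp
      (he.pair ((hst.headD sm0).pair (hst.tail.headD sm0)))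
  refine (hb.ite ((Lin.const sm0).cons hst) (hg.cons hst.tail.tail)).of_eq fun y => ?_
  exact (rstp_eq y.2.1 y.2.2).symm

theorem length_rstp (st : List (Sm N)) (e : Option (Lb N Λ) × Mk N) :
    (rstp st e).length ≤ st.length + 1 := by
  rw [rstp_eq]
  split_ifs
  · simp
  · simp only [List.length_cons, List.length_tail]
    omega

theorem length_foldl_rstp (l : List (Option (Lb N Λ) × Mk N)) (st : List (Sm N)) :
    (l.foldl rstp st).length ≤ st.length + l.length := by
  induction l generalizing st with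
  | nil => simp
  | cons a l ih =>
    rw [List.foldl_cons, List.length_cons]
    have h1 := ih (rstp st a)
    have h2 := length_rstp st a
    omega

/-- HO-8 (file Ho/Tree.lean) -/
theorem lin_rch [Finite N] [Finite Λ] :
    Lin (rch : List (Option (Lb N Λ) × Mk N) → Set N) := by
  obtain ⟨D, hD⟩ := exists_sz_le (Sm N)
  have hq : LB fun n => (D + 1) * (n + 1) + 1 :=
    ((LB.id.add (LB.const 1)).smul (D + 1)).add (LB.const 1)
  have key : Lin (fun x : List (Option (Lb N Λ) × Mk N) =>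
      x.reverse.foldl (fun s b => rstp s b) [sm0]) := by
    refine Lin.foldl (l := fun x : List (Option (Lb N Λ) × Mk N) => x.reverse)
      (s0 := fun _ => [sm0])
      (step := fun y : List (Option (Lb N Λ) × Mk N) ×
        (List (Sm N) × (Option (Lb N Λ) × Mk N)) => rstp y.2.1 y.2.2)
      Lin.id.reverse (Lin.const _) lin_rstp hq fun x l' hl' => ?_
    have h1 : (l'.foldl (fun s b => rstp s b) [sm0]).length ≤ 1 + l'.length :=
      length_foldl_rstp l' [sm0]
    have h2 : l'.length ≤ x.length := by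
      have := hl'.length_le
      simpa using this
    have h3 := length_le_sz x
    have h4 := sz_list_le (l'.foldl (fun s b => rstp s b) [sm0]) fun a _ => hD a
    refine h4.trans ?_
    exact Nat.add_le_add_right (Nat.mul_le_mul_left _ (by omega)) 1
  exact (Lin.snd.comp (Lin.snd.comp (key.headD sm0)))

/-! ### Summaries -/

/-- `s` is the summary of the marked chart `X` of the forest `t`. -/
inductive Summ : Tr (Lb N Λ × K) → List ((Option (Lb N Λ) × Option K) × Mk N) → Sm N → Prop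
  | nil : Summ .nil [] sm0
  | nd {a : Lb N Λ × K} {ch nx : Tr (Lb N Λ × K)} {m m' : Mk N}
      {X₁ X₂ : List ((Option (Lb N Λ) × Option K) × Mk N)} {s₁ s₂ : Sm N} :
      Summ ch X₁ s₁ → Summ nx X₂ s₂ →
      Summ (.nd a ch nx) (((some a.1, some a.2), m) :: (X₁ ++ ((none, none), m') :: X₂))
        (comb a.1 m s₁ s₂)

theorem exists_summ (t : Tr (Lb N Λ × K)) :
    ∀ X : List ((Option (Lb N Λ) × Option K) × Mk N), X.map Prod.fst = chart t →
      ∃ s, Summ t X s := by
  induction t with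
  | nil =>
    intro X hX
    have : X = [] := by simpa [chart, Tr.wd] using hX
    subst this
    exact ⟨_, .nil⟩
  | nd a ch nx ih1 ih2 =>
    intro X hX
    have h1 : chart (.nd a ch nx) =
        (some a.1, some a.2) :: (chart ch ++ (none, none) :: chart nx) := by
      simp [chart, Tr.wd]
    rw [h1, List.map_eq_cons_iff] at hX
    obtain ⟨x0, X', rfl, h2, h3⟩ := hX
    rw [List.map_eq_append_iff] at h3
    obtain ⟨X₁, X'', rfl, h4, h5⟩ := h3
    rw [List.map_eq_cons_iff] at h5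
    obtain ⟨c0, X₂, rfl, h6, h7⟩ := h5
    obtain ⟨s₁, hs₁⟩ := ih1 X₁ h4
    obtain ⟨s₂, hs₂⟩ := ih2 X₂ h7
    obtain ⟨x01, m⟩ := x0
    obtain ⟨c01, m'⟩ := c0
    simp only at h2 h6
    subst h2 h6
    exact ⟨_, .nd hs₁ hs₂⟩

theorem Summ.fold {t : Tr (Lb N Λ × K)} {X : List ((Option (Lb N Λ) × Option K) × Mk N)}
    {s : Sm N} (h : Summ t X s) (st : List (Sm N)) :
    (X.map fg).reverse.foldl rstp (sm0 :: st) = s :: st := by
  induction h generalizing st with
  | nil => rfl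
  | @nd a ch nx m m' X₁ X₂ s₁ s₂ _ _ ih1 ih2 =>
    simp only [List.map_cons, List.map_append, List.reverse_cons, List.reverse_append,
      List.foldl_append, List.foldl_cons, List.foldl_nil]
    rw [ih2]
    have h1 : rstp (s₂ :: st) (fg (((none, none), m') :
        (Option (Lb N Λ) × Option K) × Mk N)) = sm0 :: s₂ :: st := rfl
    rw [h1, ih1]
    rfl

theorem Summ.rch {t : Tr (Lb N Λ × K)} {X : List ((Option (Lb N Λ) × Option K) × Mk N)}
    {s : Sm N} (h : Summ t X s) : rch (X.map fg) = s.2.2 := by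
  unfold Ho.rch
  rw [h.fold []]
  rfl

theorem Summ.node {t : Tr (Lb N Λ × K)} {X : List ((Option (Lb N Λ) × Option K) × Mk N)}
    {s : Sm N} (h : Summ t X s) : ∀ x ∈ X, ∀ v, x.1.2 = some v → ∃ b ∈ t.nodes, b.2 = v := by
  induction h with
  | nil => intro x hx; cases hx
  | @nd a ch nx m m' X₁ X₂ s₁ s₂ _ _ ih1 ih2 =>
    intro x hx v hv
    rw [List.mem_cons, List.mem_append, List.mem_cons] at hx
    rcases hx with rfl | hx | rfl | hx
    · simp only [Option.some.injEq] at hv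
      exact ⟨a, by simp [Tr.nodes], hv⟩
    · obtain ⟨b, hb, hb2⟩ := ih1 x hx v hv
      exact ⟨b, by simp [Tr.nodes, hb], hb2⟩
    · cases hv
    · obtain ⟨b, hb, hb2⟩ := ih2 x hx v hv
      exact ⟨b, by simp [Tr.nodes, hb], hb2⟩

theorem walkO_trans {walk : N → K → N → K → Prop}
    (htr : ∀ A k B k' C k'', walk A k B k' → walk B k' C k'' → walk A k C k'')
    {A B C : N} {k k' k'' : Option K} (h : walkO walk A k B k') (h' : walkO walk B k' C k'') :
    walkO walk A k C k'' := by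
  obtain ⟨v, u, rfl, rfl, h1⟩ := h
  obtain ⟨v', u', h2, rfl, h3⟩ := h'
  cases h2
  exact ⟨v, u', rfl, rfl, htr _ _ _ _ _ _ h1 h3⟩

/-! ### Soundness -/

theorem Summ.sound {walk : N → K → N → K → Prop}
    (htr : ∀ A k B k' C k'', walk A k B k' → walk B k' C k'' → walk A k C k'')
    {t : Tr (Lb N Λ × K)} {X : List ((Option (Lb N Λ) × Option K) × Mk N)}
    {s : Sm N} (hs : Summ t X s) : ∀ P : Option K, SndF walk P t →
      (∀ A B, (A, B) ∈ s.1 → ∃ x ∈ X, x.2.1 = true ∧ walkO walk A x.1.2 B P) ∧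
      (∀ A, A ∈ s.2.1 → ∃ y ∈ X, ∃ B ∈ y.2.2, walkO walk A P B y.1.2) ∧
      (∀ A, A ∈ s.2.2 → ∃ x ∈ X, ∃ y ∈ X, ∃ B ∈ y.2.2, x.2.1 = true ∧
        walkO walk A x.1.2 B y.1.2) := by
  induction hs with
  | nil =>
    intro P _
    refine ⟨fun A B h => ?_, fun A h => ?_, fun A h => ?_⟩
    · exact absurd h (Set.notMem_empty _)
    · exact absurd h (Set.notMem_empty _)
    · exact absurd h (Set.notMem_empty _)
  | @nd a ch nx m m' X₁ X₂ s₁ s₂ _ _ ih1 ih2 =>
    intro P h
    obtain ⟨hU, hDn, hUp, hch, hnx⟩ := h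
    obtain ⟨a1, b1, c1⟩ := ih1 _ hch
    obtain ⟨a2, b2, c2⟩ := ih2 _ hnx
    set x0 : (Option (Lb N Λ) × Option K) × Mk N := ((some a.1, some a.2), m) with hx0
    set X : List ((Option (Lb N Λ) × Option K) × Mk N) :=
      x0 :: (X₁ ++ ((none, none), m') :: X₂) with hX
    have m0 : x0 ∈ X := by simp [hX]
    have m1 : ∀ x ∈ X₁, x ∈ X := fun x hx => by simp [hX, hx]
    have m2 : ∀ x ∈ X₂, x ∈ X := fun x hx => by simp [hX, hx]
    have hS : ∀ A B, ((A, B) ∈ s₁.1 ∨ m.1 = true ∧ (A, B) ∈ a.1.2.1) →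
        ∃ x ∈ X, x.2.1 = true ∧ walkO walk A x.1.2 B (some a.2) := by
      rintro A B (h | ⟨h, h'⟩)
      · obtain ⟨x, hx, h1, h2⟩ := a1 A B h
        exact ⟨x, m1 x hx, h1, h2⟩
      · exact ⟨x0, m0, h, _, _, rfl, rfl, hU (A, B) h'⟩
    have hT : ∀ B, (B ∈ s₁.2.1 ∨ ∃ C ∈ m.2, (B, C) ∈ a.1.2.1) →
        ∃ y ∈ X, ∃ B' ∈ y.2.2, walkO walk B (some a.2) B' y.1.2 := by
      rintro B (h | ⟨C, hC, h⟩)
      · obtain ⟨y, hy, B', h1, h2⟩ := b1 B h
        exact ⟨y, m1 y hy, B', h1, h2⟩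
      · exact ⟨x0, m0, C, hC, _, _, rfl, rfl, hU (B, C) h⟩
    have hup : ∀ A B, (∃ C, ((A, C) ∈ s₁.1 ∨ m.1 = true ∧ (A, C) ∈ a.1.2.1) ∧
        (C, B) ∈ a.1.2.2.2) → ∃ x ∈ X, x.2.1 = true ∧ walkO walk A x.1.2 B P := by
      rintro A B ⟨C, h1, h2⟩
      obtain ⟨x, hx, h3, h4⟩ := hS A C h1
      exact ⟨x, hx, h3, walkO_trans htr h4 (hUp (C, B) h2)⟩
    have hdn : ∀ A, (∃ C, (A, C) ∈ a.1.2.2.1 ∧ (C ∈ s₁.2.1 ∨ ∃ C' ∈ m.2, (C, C') ∈ a.1.2.1)) →
        ∃ y ∈ X, ∃ B ∈ y.2.2, walkO walk A P B y.1.2 := by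
      rintro A ⟨C, h1, h2⟩
      obtain ⟨y, hy, B, h3, h4⟩ := hT C h2
      exact ⟨y, hy, B, h3, walkO_trans htr (hDn (A, C) h1) h4⟩
    refine ⟨fun A B h => ?_, fun A h => ?_, fun A h => ?_⟩
    · rcases h with h | h
      · exact hup A B h
      · obtain ⟨x, hx, h1, h2⟩ := a2 A B h
        exact ⟨x, m2 x hx, h1, h2⟩
    · rcases h with h | h
      · exact hdn A h
      · obtain ⟨y, hy, B, h1, h2⟩ := b2 A h
        exact ⟨y, m2 y hy, B, h1, h2⟩
    · rcases h with h | h | ⟨B, h, h'⟩ | ⟨B, h, h'⟩ | ⟨B, h, h'⟩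
      · obtain ⟨x, hx, y, hy, B, hB, h1, h2⟩ := c1 A h
        exact ⟨x, m1 x hx, y, m1 y hy, B, hB, h1, h2⟩
      · obtain ⟨x, hx, y, hy, B, hB, h1, h2⟩ := c2 A h
        exact ⟨x, m2 x hx, y, m2 y hy, B, hB, h1, h2⟩
      · obtain ⟨x, hx, h1, h2⟩ := hS A B h
        obtain ⟨y, hy, B', h3, h4⟩ := hT B h'
        exact ⟨x, hx, y, hy, B', h3, h1, walkO_trans htr h2 h4⟩
      · obtain ⟨x, hx, h1, h2⟩ := hup A B h
        obtain ⟨y, hy, B', h3, h4⟩ := b2 B h'
        exact ⟨x, hx, y, m2 y hy, B', h3, h1, walkO_trans htr h2 h4⟩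
      · obtain ⟨x, hx, h1, h2⟩ := a2 A B h
        obtain ⟨y, hy, B', h3, h4⟩ := hdn B h'
        exact ⟨x, m2 x hx, y, hy, B', h3, h1, walkO_trans htr h2 h4⟩

theorem rch_sound {walk : N → K → N → K → Prop}
    (htr : ∀ A k B k' C k'', walk A k B k' → walk B k' C k'' → walk A k C k'')
    (t : Tr (Lb N Λ × K)) (P : Option K) (h : SndF walk P t)
    (X : List ((Option (Lb N Λ) × Option K) × Mk N)) (hX : X.map Prod.fst = chart t)
    (A : N) (hA : A ∈ rch (X.map fg)) :
    ∃ x ∈ X, ∃ y ∈ X, ∃ B ∈ y.2.2, x.2.1 = true ∧ walkO walk A x.1.2 B y.1.2 := by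
  obtain ⟨s, hs⟩ := exists_summ t X hX
  rw [hs.rch] at hA
  exact (hs.sound htr P h).2.2 A hA

/-! ### Completeness -/

theorem Summ.complete {walk : N → K → N → K → Prop} (hrf : ∀ A k, walk A k A k)
    {t : Tr (Lb N Λ × K)} {X : List ((Option (Lb N Λ) × Option K) × Mk N)}
    {s : Sm N} (hs : Summ t X s) : ∀ P : Option K, CmpF walk P t →
      (∀ x ∈ X, x.2.1 = true → ∀ A B, walkO walk A x.1.2 B P → (A, B) ∈ s.1) ∧
      (∀ y ∈ X, ∀ A, ∀ B ∈ y.2.2, walkO walk A P B y.1.2 → A ∈ s.2.1) ∧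
      (∀ x ∈ X, ∀ y ∈ X, x.2.1 = true → ∀ A, ∀ B ∈ y.2.2, walkO walk A x.1.2 B y.1.2 →
        A ∈ s.2.2) := by
  induction hs with
  | nil =>
    intro P _
    refine ⟨fun x hx => ?_, fun x hx => ?_, fun x hx => ?_⟩ <;> cases hx
  | @nd a ch nx m m' X₁ X₂ s₁ s₂ hs1 hs2 ih1 ih2 =>
    intro P h
    obtain ⟨hU, hDn, hUp, h4, h5, h6, h7, hch, hnx⟩ := h
    obtain ⟨a1, b1, c1⟩ := ih1 _ hch
    obtain ⟨a2, b2, c2⟩ := ih2 _ hnx
    set x0 : (Option (Lb N Λ) × Option K) × Mk N := ((some a.1, some a.2), m) with hx0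
    have n1 := hs1.node
    have n2 := hs2.node
    have hS0 : ∀ A B, ∀ x, (x = x0 ∨ x ∈ X₁) → x.2.1 = true → walkO walk A x.1.2 B (some a.2) →
        ((A, B) ∈ s₁.1 ∨ m.1 = true ∧ (A, B) ∈ a.1.2.1) := by
      rintro A B x (rfl | hx) hx1 hw
      · right
        obtain ⟨v, u, hv, hu, hw⟩ := hw
        cases hu
        simp only [hx0, Option.some.injEq] at hv
        subst hv
        exact ⟨hx1, hU A B hw⟩
      · left
        exact a1 x hx hx1 A B hw
    have hT0 : ∀ A, ∀ y, (y = x0 ∨ y ∈ X₁) → ∀ B ∈ y.2.2, walkO walk A (some a.2) B y.1.2 →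
        (A ∈ s₁.2.1 ∨ ∃ C ∈ m.2, (A, C) ∈ a.1.2.1) := by
      rintro A y (rfl | hy) B hB hw
      · right
        obtain ⟨v, u, hv, hu, hw⟩ := hw
        cases hv
        simp only [hx0, Option.some.injEq] at hu
        subst hu
        exact ⟨B, hB, hU A B hw⟩
      · left
        exact b1 y hy A B hB hw
    have hup : ∀ x, (x = x0 ∨ x ∈ X₁) → x.2.1 = true → ∀ A B, walkO walk A x.1.2 B P →
        ∃ C, ((A, C) ∈ s₁.1 ∨ m.1 = true ∧ (A, C) ∈ a.1.2.1) ∧ (C, B) ∈ a.1.2.2.2 := by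
      intro x hx hx1 A B hw
      rcases hx with rfl | hx
      · refine ⟨A, Or.inr ⟨hx1, hU A A (hrf A _)⟩, hUp A B hw⟩
      · obtain ⟨v, u, hv, hu, hw'⟩ := hw
        obtain ⟨b, hb, hb2⟩ := n1 x hx v hv
        subst hb2
        obtain ⟨C, h8, h9⟩ := h4 b hb A B ⟨_, _, rfl, hu, hw'⟩
        exact ⟨C, hS0 A C x (Or.inr hx) hx1 ⟨_, _, hv, rfl, h8⟩, hUp C B h9⟩
    have hdn : ∀ y, (y = x0 ∨ y ∈ X₁) → ∀ A, ∀ B ∈ y.2.2, walkO walk A P B y.1.2 →
        ∃ C, (A, C) ∈ a.1.2.2.1 ∧ (C ∈ s₁.2.1 ∨ ∃ C' ∈ m.2, (C, C') ∈ a.1.2.1) := by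
      intro y hy A B hB hw
      rcases hy with rfl | hy
      · exact ⟨B, hDn A B hw, Or.inr ⟨B, hB, hU B B (hrf B _)⟩⟩
      · obtain ⟨v, u, hv, hu, hw'⟩ := hw
        obtain ⟨b, hb, hb2⟩ := n1 y hy u hu
        subst hb2
        obtain ⟨C, h8, h9⟩ := h5 b hb A B ⟨_, _, hv, rfl, hw'⟩
        exact ⟨C, hDn A C h8, hT0 C y (Or.inr hy) B hB ⟨_, _, rfl, hu, h9⟩⟩
    have hnode : ∀ x, (x = x0 ∨ x ∈ X₁) → ∀ v, x.1.2 = some v →
        ∃ b ∈ a :: ch.nodes, b.2 = v := by
      rintro x (rfl | hx) v hv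
      · simp only [hx0, Option.some.injEq] at hv
        exact ⟨a, List.mem_cons_self .., hv⟩
      · obtain ⟨b, hb, hb2⟩ := n1 x hx v hv
        exact ⟨b, List.mem_cons_of_mem _ hb, hb2⟩
    have hcase : ∀ x ∈ x0 :: (X₁ ++ ((none, none), m') :: X₂),
        (x = x0 ∨ x ∈ X₁) ∨ x.1.2 = none ∨ x ∈ X₂ := by
      intro x hx
      rw [List.mem_cons, List.mem_append, List.mem_cons] at hx
      rcases hx with rfl | hx | rfl | hx
      · exact Or.inl (Or.inl rfl)
      · exact Or.inl (Or.inr hx)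
      · exact Or.inr (Or.inl rfl)
      · exact Or.inr (Or.inr hx)
    refine ⟨fun x hx hx1 A B hw => ?_, fun y hy A B hB hw => ?_,
      fun x hx y hy hx1 A B hB hw => ?_⟩
    · rcases hcase x hx with hx | hx | hx
      · exact Or.inl (hup x hx hx1 A B hw)
      · obtain ⟨v, u, hv, _, _⟩ := hw
        rw [hx] at hv
        cases hv
      · exact Or.inr (a2 x hx hx1 A B hw)
    · rcases hcase y hy with hy | hy | hy
      · exact Or.inl (hdn y hy A B hB hw)
      · obtain ⟨v, u, _, hu, _⟩ := hw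
        rw [hy] at hu
        cases hu
      · exact Or.inr (b2 y hy A B hB hw)
    · rcases hcase x hx with hx | hx | hx
      · rcases hcase y hy with hy | hy | hy
        · -- both in the first tree
          by_cases hx' : x = x0
          · subst hx'
            refine Or.inr (Or.inr (Or.inl ⟨A, Or.inr ⟨hx1, hU A A (hrf A _)⟩, ?_⟩))
            exact hT0 A y hy B hB hw
          · have hx2 : x ∈ X₁ := hx.resolve_left hx'
            rcases hy with rfl | hy
            · refine Or.inr (Or.inr (Or.inl ⟨B, Or.inl (a1 x hx2 hx1 A B hw), ?_⟩))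
              exact Or.inr ⟨B, hB, hU B B (hrf B _)⟩
            · exact Or.inl (c1 x hx2 y hy hx1 A B hB hw)
        · obtain ⟨v, u, _, hu, _⟩ := hw
          rw [hy] at hu
          cases hu
        · obtain ⟨v, u, hv, hu, hw'⟩ := hw
          obtain ⟨b, hb, rfl⟩ := hnode x hx v hv
          obtain ⟨b', hb', rfl⟩ := n2 y hy u hu
          obtain ⟨C, h8, h9⟩ := h6 b hb b' hb' A B hw'
          refine Or.inr (Or.inr (Or.inr (Or.inl ⟨C, ?_, ?_⟩)))
          · exact hup x hx hx1 A C (by rw [hv]; exact h8)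
          · exact b2 y hy C B hB (by rw [hu]; exact h9)
      · obtain ⟨v, u, hv, _, _⟩ := hw
        rw [hx] at hv
        cases hv
      · rcases hcase y hy with hy | hy | hy
        · obtain ⟨v, u, hv, hu, hw'⟩ := hw
          obtain ⟨b', hb', rfl⟩ := n2 x hx v hv
          obtain ⟨b, hb, rfl⟩ := hnode y hy u hu
          obtain ⟨C, h8, h9⟩ := h7 b hb b' hb' A B hw'
          refine Or.inr (Or.inr (Or.inr (Or.inr ⟨C, ?_, ?_⟩)))
          · exact a2 x hx hx1 A C (by rw [hv]; exact h8)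
          · exact hdn y hy C B hB (by rw [hu]; exact h9)
        · obtain ⟨v, u, _, hu, _⟩ := hw
          rw [hy] at hu
          cases hu
        · exact Or.inr (Or.inl (c2 x hx y hy hx1 A B hB hw))

theorem rch_complete {walk : N → K → N → K → Prop} (hrf : ∀ A k, walk A k A k)
    (t : Tr (Lb N Λ × K)) (P : Option K) (h : CmpF walk P t)
    (X : List ((Option (Lb N Λ) × Option K) × Mk N)) (hX : X.map Prod.fst = chart t)
    (A B : N) (x y : (Option (Lb N Λ) × Option K) × Mk N) (hx : x ∈ X) (hy : y ∈ X)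
    (hx1 : x.2.1 = true) (hB : B ∈ y.2.2) (hw : walkO walk A x.1.2 B y.1.2) :
    A ∈ rch (X.map fg) := by
  obtain ⟨s, hs⟩ := exists_summ t X hX
  rw [hs.rch]
  exact (hs.complete hrf P h).2.2 x hx y hy hx1 A B hB hw

end Pool.Agent.Lib.LinSpace.Ho
end

section

/-!
Completeness of the skeleton grammar.
-/

set_option autoImplicit false

namespace Pool.Agent.Lib.LinSpace.Ho

variable {S : Sto} {Γ T : Type} [Finite Γ] {G : Gr (pd S Γ) T}

/-! ### Lists of facts -/

theorem exists_fl (p : SI G → Prop) (hp : ∀ x, p x → ∃ E d A o i, x = itF E d A o i) :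
    ∃ fl : List (SI G), FL fl ∧ ∀ x, x ∈ fl ↔ p x := by
  classical
  have := Fintype.ofFinite (SI G)
  refine ⟨(Finset.univ.filter p).toList, ⟨?_, ?_⟩, ?_⟩
  · rw [Finset.length_toList, Nat.card_eq_fintype_card]
    exact Finset.card_le_univ _
  · intro x hx
    rw [Finset.mem_toList, Finset.mem_filter] at hx
    exact hp x hx.2
  · intro x
    rw [Finset.mem_toList, Finset.mem_filter]
    simp

theorem der_itF {h : ℕ} {c c' : S.C} {E : Set G.N} {d : Dir S Γ} {A : G.N} {o : Option G.N}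
    {i : Option S.I} {r : List (SI G)} (hst : S.stO i c = some c')
    (hr : ruleF E d A o (S.lab c') r) (H : (skel G).Der h c' r []) :
    (skel G).Der (h + 1) c [itF E d A o i] [] :=
  LGr.Der.nt (G := skel G) (B := (.inl (E, (d, (A, o))) : SN G)) (u := []) (v := []) hst hr H .nil

theorem der_itR {h : ℕ} {c c' : S.C} {f : Bool} {d : Dir S Γ} {q : Par G}
    {i : Option S.I} {r : List (SI G)} {w : List (SZ G)} (hst : S.stO i c = some c')
    (hr : ruleR f d q (S.lab c') r) (H : (skel G).Der h c' r w) :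
    (skel G).Der (h + 1) c [itR f d q i] w := by
  have := LGr.Der.nt (G := skel G) (B := (.inr (f, (d, q)) : SN G)) (u := w) (v := []) hst hr H
    .nil
  rwa [List.append_nil] at this

/-- change of the instruction of an item -/
theorem der_instr {h : ℕ} {c c' : S.C} {B : SN G} {i : Option S.I} {w : List (SZ G)}
    (hst : S.stO i c = some c') (H : (skel G).Der h c' [.inr (B, none)] w) :
    (skel G).Der h c [.inr (B, i)] w := by
  cases H with
  | nt h1 h2 h3 h4 =>
    rw [Sto.stO_none, Option.some.injEq] at h1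
    subst h1
    cases h4
    exact .nt hst h2 h3 .nil

theorem der_list {c : S.C} (fl : List (SI G))
    (H : ∀ x ∈ fl, ∃ h, (skel G).Der h c [x] []) : ∃ h, (skel G).Der h c fl [] := by
  induction fl with
  | nil => exact ⟨0, .nil⟩
  | cons x fl ih =>
    obtain ⟨h1, e1⟩ := H x (List.mem_cons_self ..)
    obtain ⟨h2, e2⟩ := ih (fun y hy => H y (List.mem_cons_of_mem _ hy))
    exact ⟨max h1 h2, (e1.mono (le_max_left _ _)).append (e2.mono (le_max_right _ _))⟩

theorem der_app {h1 h2 : ℕ} {c : S.C} {l l' : List (SI G)} {w w' : List (SZ G)}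
    (H : (skel G).Der h1 c l w) (H' : (skel G).Der h2 c l' w') :
    (skel G).Der (max h1 h2) c (l ++ l') (w ++ w') :=
  (H.mono (le_max_left _ _)).append (H'.mono (le_max_right _ _))

theorem skel_fact_complete {c : S.C} {E : Set G.N} {d : Dir S Γ} {A : G.N} {o : Option G.N}
    (H : Fact G E d c A o) : ∃ h, (skel G).Der h c [itF E d A o none] [] := by
  induction H with
  | @eps E d c A h =>
    exact ⟨_, der_itF (Sto.stO_none _ _) (.inl ⟨rfl, h, rfl⟩) (.nil (h := 0))⟩
  | @stay E d c A B o h _ ih =>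
    obtain ⟨k, hk⟩ := ih
    exact ⟨_, der_itF (Sto.stO_none _ _) (.inr (.inl ⟨B, h, rfl⟩)) hk⟩
  | @bin1 E d c A B C o h _ _ ih1 ih2 =>
    obtain ⟨k1, h1⟩ := ih1
    obtain ⟨k2, h2⟩ := ih2
    exact ⟨_, der_itF (Sto.stO_none _ _) (.inr (.inr (.inl ⟨B, C, h, rfl⟩))) (der_app h1 h2)⟩
  | @bin2 E d c A B C o h _ _ ih1 ih2 =>
    obtain ⟨k1, h1⟩ := ih1
    obtain ⟨k2, h2⟩ := ih2
    exact ⟨_, der_itF (Sto.stO_none _ _) (.inr (.inr (.inr (.inl ⟨B, C, h, rfl⟩))))
      (der_app h1 h2)⟩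
  | @pop E d c A B h =>
    exact ⟨_, der_itF (Sto.stO_none _ _) (.inr (.inr (.inr (.inr (.inl ⟨B, h, rfl, rfl⟩)))))
      (.nil (h := 0))⟩
  | @popE E d c A B h hB =>
    exact ⟨_, der_itF (Sto.stO_none _ _)
      (.inr (.inr (.inr (.inr (.inr (.inl ⟨B, h, rfl, hB, rfl⟩)))))) (.nil (h := 0))⟩
  | @down E E' d d' c c' A B h hst h3 _ ih3 ih4 =>
    obtain ⟨fl, hfl, hm⟩ := exists_fl (G := G) (fun x => ∃ A' ∈ E', x = itF E d A' none none)
      (by rintro x ⟨A', _, rfl⟩; exact ⟨_, _, _, _, _, rfl⟩)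
    obtain ⟨k1, h1⟩ := der_list (c := c) fl (by
      intro x hx
      obtain ⟨A', hA', rfl⟩ := (hm x).1 hx
      exact ih3 A' hA')
    obtain ⟨k2, h2⟩ := ih4
    exact ⟨_, der_itF (Sto.stO_none _ _)
      (.inr (.inr (.inr (.inr (.inr (.inr (.inl ⟨d', B, E', fl, h, hfl,
        fun A' hA' => (hm _).2 ⟨A', hA', rfl⟩, rfl, rfl⟩)))))))
      (der_app h1 (der_instr hst h2))⟩
  | @downup E E' d d' c c' A B C o h hst h3 _ _ ih3 ih4 ih5 =>
    obtain ⟨fl, hfl, hm⟩ := exists_fl (G := G) (fun x => ∃ A' ∈ E', x = itF E d A' none none)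
      (by rintro x ⟨A', _, rfl⟩; exact ⟨_, _, _, _, _, rfl⟩)
    obtain ⟨k1, h1⟩ := der_list (c := c) fl (by
      intro x hx
      obtain ⟨A', hA', rfl⟩ := (hm x).1 hx
      exact ih3 A' hA')
    obtain ⟨k2, h2⟩ := ih4
    obtain ⟨k3, h3⟩ := ih5
    exact ⟨_, der_itF (Sto.stO_none _ _)
      (.inr (.inr (.inr (.inr (.inr (.inr (.inr ⟨d', B, C, E', fl, h, hfl,
        fun A' hA' => (hm _).2 ⟨A', hA', rfl⟩, rfl⟩)))))))
      (der_app h1 (der_app (der_instr hst h2) h3))⟩

/-! ### Subtrees -/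

theorem Nd.Sub.unique {X : Type} {v u : Nd X} {x y : X} (H : Nd.Sub (Nd.psh v x) u)
    (H' : Nd.Sub (Nd.psh v y) u) : x = y := by
  induction H with
  | refl =>
    cases H' with
    | refl => rfl
    | psh h => exact absurd h (Nd.not_sub_par rfl)
  | psh h ih =>
    cases H' with
    | refl => exact absurd h (Nd.not_sub_par rfl)
    | psh h' => exact ih h'

omit [Finite Γ] in
theorem Rch.sub {v u : Cf S Γ} (H : Rch v u) : Nd.Sub v u := by
  induction H with
  | refl => exact .refl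
  | psh _ _ ih => exact .psh ih

/-- `u` is reachable from the child of `v` in the direction `d`. -/
def InDir (v : Cf S Γ) (d : Dir S Γ) (u : Cf S Γ) : Prop :=
  ∃ c', S.stO d.2 v.top.2 = some c' ∧ Rch (Nd.psh v (d, c')) u

omit [Finite Γ] in
theorem Rch.dir {v u : Cf S Γ} (H : Rch v u) : u = v ∨ ∃ d, InDir v d u := by
  induction H with
  | refl => exact .inl rfl
  | @psh p d c _ hst ih =>
    rcases ih with rfl | ⟨d', c', h1, h2⟩
    · exact .inr ⟨d, c, hst, .refl⟩
    · exact .inr ⟨d', c', h1, .psh h2 hst⟩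

omit [Finite Γ] in
theorem InDir.unique {v u : Cf S Γ} {d d' : Dir S Γ} (H : InDir v d u) (H' : InDir v d' u) :
    d = d' := by
  obtain ⟨c, _, h⟩ := H
  obtain ⟨c', _, h'⟩ := H'
  exact congrArg Prod.fst (h.sub.unique h'.sub)

omit [Finite Γ] in
theorem InDir.ne {v u : Cf S Γ} {d : Dir S Γ} (H : InDir v d u) : u ≠ v := by
  rintro rfl
  obtain ⟨c, _, h⟩ := H
  exact Nd.not_sub_par rfl h.sub

/-! ### Concatenation of forests -/

theorem CmpF.app {N Λ K : Type} {walk : N → K → N → K → Prop} {P : Option K}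
    {s t : Tr (Lb N Λ × K)} (hs : CmpF walk P s) (ht : CmpF walk P t)
    (h1 : ∀ b ∈ s.nodes, ∀ b' ∈ t.nodes, ∀ A B, walk A b.2 B b'.2 →
      ∃ C, walkO walk A (some b.2) C P ∧ walkO walk C P B (some b'.2))
    (h2 : ∀ b ∈ s.nodes, ∀ b' ∈ t.nodes, ∀ A B, walk A b'.2 B b.2 →
      ∃ C, walkO walk A (some b'.2) C P ∧ walkO walk C P B (some b.2)) :
    CmpF walk P (s.app t) := by
  induction s with
  | nil => exact ht
  | nd a ch nx _ ih =>
    obtain ⟨e1, e2, e3, e4, e5, e6, e7, e8, e9⟩ := hs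
    refine ⟨e1, e2, e3, e4, e5, ?_, ?_, e8, ih e9 ?_ ?_⟩
    · intro b hb b' hb' A B hW
      rw [Tr.nodes_app, List.mem_append] at hb'
      rcases hb' with hb' | hb'
      · exact e6 b hb b' hb' A B hW
      · refine h1 b ?_ b' hb' A B hW
        simp only [Tr.nodes, List.mem_cons, List.mem_append] at hb ⊢
        tauto
    · intro b hb b' hb' A B hW
      rw [Tr.nodes_app, List.mem_append] at hb'
      rcases hb' with hb' | hb'
      · exact e7 b hb b' hb' A B hW
      · refine h2 b ?_ b' hb' A B hW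
        simp only [Tr.nodes, List.mem_cons, List.mem_append] at hb ⊢
        tauto
    · intro b hb
      exact h1 b (by simp only [Tr.nodes, List.mem_cons, List.mem_append]; tauto)
    · intro b hb
      exact h2 b (by simp only [Tr.nodes, List.mem_cons, List.mem_append]; tauto)

/-! ### Separation -/

theorem sep_dir {v u u' : Cf S Γ} {x : Dir S Γ × S.C} (hu : Nd.Sub (Nd.psh v x) u)
    (hu' : ¬ Nd.Sub (Nd.psh v x) u') {A B : G.N} (H : G.W A u B u') :
    ∃ C, G.W A u C v ∧ G.W C v B u' := by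
  obtain ⟨h, H⟩ := H
  obtain ⟨C, C', h', _, hW, hm, hD⟩ := exit H (p := v) rfl hu hu'
  exact ⟨C', hW.trans (.mv hm rfl (.refl _ _)), h', hD⟩

theorem sep_exit {v p u u' : Cf S Γ} (hp : v.par = some p) (hu : Nd.Sub v u)
    (hu' : ¬ Nd.Sub v u') {A B : G.N} (H : G.W A u B u') :
    ∃ C C', G.W A u C v ∧ G.mv C ((pd S Γ).lab v) (some none) C' ∧ G.W C' p B u' ∧
      G.W C v B u' := by
  obtain ⟨h, H⟩ := H
  obtain ⟨C, C', h', _, hW, hm, hD⟩ := exit H hp hu hu'
  exact ⟨C, C', hW, hm, ⟨h', hD⟩, .mv hm hp ⟨h', hD⟩⟩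

theorem sep_entry {v p u u' : Cf S Γ} (hp : v.par = some p) (hu : ¬ Nd.Sub v u)
    (hu' : Nd.Sub v u') {A B : G.N} (H : G.W A u B u') :
    ∃ C C', G.W A u C p ∧ G.mv C ((pd S Γ).lab p) (some (some v.top.1)) C' ∧ G.W C' v B u' ∧
      G.W A u C' v := by
  obtain ⟨h, H⟩ := H
  obtain ⟨C, C', h', _, hW, hm, hst, hD⟩ := entry H hp hu hu'
  refine ⟨C, C', hW, hm, ⟨h', hD⟩, hW.trans (.mv hm (c' := v) ?_ (.refl _ _))⟩
  exact pd_stO_push.2 ⟨v.top.2, hst, Nd.eq_psh hp⟩

theorem countP_or {α : Type} (p q : α → Prop) [DecidablePred p] [DecidablePred q]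
    [DecidablePred fun a => p a ∨ q a]
    (hpq : ∀ a, p a → ¬ q a) (l : List α) :
    l.countP (fun a => p a) + l.countP (fun a => q a) = l.countP (fun a => p a ∨ q a) := by
  induction l with
  | nil => simp
  | cons a l ih =>
    simp only [List.countP_cons]
    have := hpq a
    by_cases h1 : p a <;> by_cases h2 : q a <;> simp [h1, h2] at * <;> omega

/-! ### The main induction -/

theorem eq_of_mem_short {α : Type} {l : List α} (hl : l.length < 2) {a b : α} (ha : a ∈ l)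
    (hb : b ∈ l) : a = b := by
  match l, hl, ha, hb with
  | [], _, ha, _ => simp at ha
  | [x], _, ha, hb =>
    rw [List.mem_singleton] at ha hb
    rw [ha, hb]
  | x :: y :: l, hl, _, _ =>
    simp only [List.length_cons] at hl
    omega

/-- the forest of the children -/
theorem skel_forest (v : Cf S Γ) (q : Par G) (V : List (Cf S Γ)) (ds : List (Dir S Γ))
    (hds : ds.Nodup)
    (H : ∀ d ∈ ds, ∃ (h : ℕ) (t : Tr (Lb G.N (Dir S Γ × S.Λ) × Cf S Γ)) (n : ℕ),
      (skel G).Der h v.top.2 [itR false d q d.2] ((chart t).map Prod.fst) ∧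
      CmpF G.W (some v) t ∧ (∀ a ∈ t.nodes, a.1.1 = (pd S Γ).lab a.2) ∧
      (∀ u ∈ V, InDir v d u → ∃ a ∈ t.nodes, a.2 = u) ∧ t.nodes.length + 1 ≤ 2 * n ∧
      (∀ (p : Cf S Γ → Bool), (∀ u, p u = true ↔ InDir v d u) → n ≤ V.countP p) ∧
      ∃ c', ∀ a ∈ t.nodes, Nd.Sub (Nd.psh v (d, c')) a.2) :
    ∃ (h : ℕ) (t : Tr (Lb G.N (Dir S Γ × S.Λ) × Cf S Γ)) (n : ℕ),
      (skel G).Der h v.top.2 (ds.map fun d => itR false d q d.2) ((chart t).map Prod.fst) ∧
      CmpF G.W (some v) t ∧ (∀ a ∈ t.nodes, a.1.1 = (pd S Γ).lab a.2) ∧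
      (∀ u ∈ V, ∀ d ∈ ds, InDir v d u → ∃ a ∈ t.nodes, a.2 = u) ∧
      t.nodes.length + ds.length ≤ 2 * n ∧
      (∀ (p : Cf S Γ → Bool), (∀ u, p u = true ↔ ∃ d ∈ ds, InDir v d u) → n ≤ V.countP p) ∧
      ∀ a ∈ t.nodes, ∃ d ∈ ds, ∃ c', Nd.Sub (Nd.psh v (d, c')) a.2 := by
  classical
  induction ds with
  | nil =>
    exact ⟨0, .nil, 0, .nil, trivial, by simp [Tr.nodes], by simp, by simp [Tr.nodes],
      fun _ _ => Nat.zero_le _, by simp [Tr.nodes]⟩
  | cons d ds ih =>
    rw [List.nodup_cons] at hds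
    obtain ⟨h1, t1, n1, a1, a2, a3, a4, a5, a6, c1, a7⟩ := H d (List.mem_cons_self ..)
    obtain ⟨h2, t2, n2, b1, b2, b3, b4, b5, b6, b7⟩ := ih hds.2
      (fun e he => H e (List.mem_cons_of_mem _ he))
    have hne : ∀ a ∈ t1.nodes, ∀ b ∈ t2.nodes, ¬ Nd.Sub (Nd.psh v (d, c1)) b.2 := by
      intro a _ b hb hs
      obtain ⟨d', hd', c', hs'⟩ := b7 b hb
      have := congrArg Prod.fst (hs.unique hs')
      simp only at this
      exact hds.1 (this ▸ hd')
    refine ⟨max h1 h2, t1.app t2, n1 + n2, ?_, ?_, ?_, ?_, ?_, ?_, ?_⟩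
    · rw [chart_app, List.map_append]
      exact der_app a1 b1
    · refine a2.app b2 ?_ ?_
      · intro a ha b hb A B hW
        obtain ⟨C, e1, e2⟩ := sep_dir (a7 a ha) (hne a ha b hb) hW
        exact ⟨C, ⟨_, _, rfl, rfl, e1⟩, ⟨_, _, rfl, rfl, e2⟩⟩
      · intro a ha b hb A B hW
        obtain ⟨d', hd', c', hs'⟩ := b7 b hb
        have hns : ¬ Nd.Sub (Nd.psh v (d', c')) a.2 := by
          intro hs
          have := congrArg Prod.fst (hs.unique (a7 a ha))
          simp only at this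
          exact hds.1 (this ▸ hd')
        obtain ⟨C, e1, e2⟩ := sep_dir hs' hns hW
        exact ⟨C, ⟨_, _, rfl, rfl, e1⟩, ⟨_, _, rfl, rfl, e2⟩⟩
    · intro a ha
      rw [Tr.nodes_app, List.mem_append] at ha
      rcases ha with ha | ha
      · exact a3 a ha
      · exact b3 a ha
    · intro u hu d' hd' hdir
      rw [Tr.nodes_app]
      rw [List.mem_cons] at hd'
      rcases hd' with rfl | hd'
      · obtain ⟨a, ha, e⟩ := a4 u hu hdir
        exact ⟨a, List.mem_append_left _ ha, e⟩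
      · obtain ⟨a, ha, e⟩ := b4 u hu d' hd' hdir
        exact ⟨a, List.mem_append_right _ ha, e⟩
    · rw [Tr.nodes_app, List.length_append, List.length_cons]
      omega
    · intro p hp
      have e1 := a6 (fun u => decide (InDir v d u)) (by simp)
      have e2 := b6 (fun u => decide (∃ d ∈ ds, InDir v d u)) (by simp)
      have e3 := countP_or (fun u => InDir v d u) (fun u => ∃ d ∈ ds, InDir v d u) (by
        rintro u h1 ⟨d', hd', h2⟩
        exact hds.1 (h1.unique h2 ▸ hd')) V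
      have e4 : V.countP (fun u => decide (InDir v d u ∨ ∃ d ∈ ds, InDir v d u)) =
          V.countP p := by
        refine List.countP_congr fun u _ => ?_
        rw [hp]
        simp
      rw [← e4, ← e3]
      exact Nat.add_le_add e1 e2
    · intro a ha
      rw [Tr.nodes_app, List.mem_append] at ha
      rcases ha with ha | ha
      · exact ⟨d, List.mem_cons_self .., c1, a7 a ha⟩
      · obtain ⟨d', hd', h'⟩ := b7 a ha
        exact ⟨d', List.mem_cons_of_mem _ hd', h'⟩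

theorem skel_complete (D : ℕ) : ∀ (v : Cf S Γ) (P : Option (Cf S Γ)) (q : Par G) (f : Bool)
    (V : List (Cf S Γ)), ParC G P v q → (∀ p, P = some p → v.par ≠ none ∧ ¬ Nd.Sub v p) →
    V ≠ [] → (∀ u ∈ V, Rch v u ∧ u.len ≤ v.len + D) → (f = true → v ∈ V) →
    ∃ (h : ℕ) (t : Tr (Lb G.N (Dir S Γ × S.Λ) × Cf S Γ)),
      (skel G).Der h v.top.2 [itR f v.top.1 q none] ((chart t).map Prod.fst) ∧
      CmpF G.W P t ∧ (∀ a ∈ t.nodes, a.1.1 = (pd S Γ).lab a.2) ∧
      (∀ u ∈ V, ∃ a ∈ t.nodes, a.2 = u) ∧ t.nodes.length + 1 ≤ 2 * V.length ∧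
      (∀ a ∈ t.nodes, Nd.Sub v a.2) ∧ (f = true → ∃ l ch, t = .nd (l, v) ch .nil) := by
  classical
  induction D using Nat.strong_induction_on with
  | _ D IH =>
  intro v P q f V hq hP hV hVD hf
  -- the local data
  set E : Set G.N := epsAt G v with hE
  set X : Set (Dir S Γ × G.N × G.N) := {y | ∃ c', S.stO y.1.2 v.top.2 = some c' ∧
    Fact G (epsAt G v) y.1 c' y.2.1 (some y.2.2)} with hX
  set U : Set (G.N × G.N) := Clo G (v.top.1, S.lab v.top.2) q.1 E q.2.2.1 X with hU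
  set Dn : Set (G.N × G.N) := mkDn G v.top.1 q U with hDn
  set Up : Set (G.N × G.N) := mkUp G (v.top.1, S.lab v.top.2) q U with hUp
  have hloops : loops G v ⊆ U := by
    refine Clo.complete (v := v) (E := E) (U := q.2.2.1) (X := X) subset_rfl ?_ ?_
    · intro p hp
      exact ⟨(hq.2 p hp).1, (hq.2 p hp).2.1⟩
    · intro d' B C c' hst hF
      exact ⟨c', hst, hF⟩
  have hDnC : ∀ A B, walkO G.W A P B (some v) → (A, B) ∈ Dn := by
    rintro A B ⟨p0, _, hp0, ⟨⟩, hW⟩
    obtain ⟨hpar, hsub⟩ := hP p0 hp0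
    obtain ⟨p, hp⟩ := Option.ne_none_iff_exists'.1 hpar
    obtain ⟨C, C', e1, e2, e3, _⟩ := sep_entry hp hsub .refl hW
    obtain ⟨f1, f2, f3, f4⟩ := hq.2 p hp
    exact ⟨C, C', f3 A C ⟨p0, p, hp0, rfl, e1⟩, f1 ▸ e2, hloops e3⟩
  have hUpC : ∀ A B, walkO G.W A (some v) B P → (A, B) ∈ Up := by
    rintro A B ⟨_, p0, ⟨⟩, hp0, hW⟩
    obtain ⟨hpar, hsub⟩ := hP p0 hp0
    obtain ⟨p, hp⟩ := Option.ne_none_iff_exists'.1 hpar
    obtain ⟨C, C', e1, e2, e3, _⟩ := sep_exit hp .refl hsub hW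
    obtain ⟨f1, f2, f3, f4⟩ := hq.2 p hp
    exact ⟨C, C', hloops e1, e2, f4 C' B ⟨p, p0, rfl, hp0, e3⟩⟩
  -- the facts
  obtain ⟨fl, hfl, hm⟩ := exists_fl (G := G)
    (fun x => (∃ A ∈ E, x = itF q.2.1 v.top.1 A none none) ∨
      ∃ y ∈ X, x = itF E y.1 y.2.1 (some y.2.2) y.1.2) (by
        rintro x (⟨A, _, rfl⟩ | ⟨y, _, rfl⟩)
        · exact ⟨_, _, _, _, _, rfl⟩
        · exact ⟨_, _, _, _, _, rfl⟩)
  obtain ⟨k0, hk0⟩ : ∃ h, (skel G).Der h v.top.2 fl [] := by
    refine der_list (c := v.top.2) fl fun x hx => ?_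
    rcases (hm x).1 hx with ⟨A, hA, rfl⟩ | ⟨y, ⟨c', hst, hF⟩, rfl⟩
    · exact skel_fact_complete ((Fact.of_eps hA).mono hq.1)
    · obtain ⟨k, hk⟩ := skel_fact_complete hF
      exact ⟨k, der_instr hst hk⟩
  have hfl1 : ∀ A ∈ E, itF q.2.1 v.top.1 A none none ∈ fl := fun A hA =>
    (hm _).2 (.inl ⟨A, hA, rfl⟩)
  have hfl2 : ∀ x ∈ X, itF E x.1 x.2.1 (some x.2.2) x.1.2 ∈ fl := fun x hx =>
    (hm _).2 (.inr ⟨x, hx, rfl⟩)
  -- the induction hypothesis for a child
  have child : ∀ (P' : Option (Cf S Γ)) (q2 : Set (G.N × G.N) × Set (G.N × G.N))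
      (d' : Dir S Γ) (V' : List (Cf S Γ)), V' ≠ [] → (∀ u ∈ V', u ∈ V ∧ InDir v d' u) →
      (∀ A B, walkO G.W A P' B (some v) → (A, B) ∈ q2.1) →
      (∀ A B, walkO G.W A (some v) B P' → (A, B) ∈ q2.2) →
      (∀ p, P' = some p → p = v ∨ ¬ Nd.Sub v p) →
      ∃ (h : ℕ) (t : Tr (Lb G.N (Dir S Γ × S.Λ) × Cf S Γ)),
      (skel G).Der h v.top.2 [itR false d' ((v.top.1, S.lab v.top.2), (E, (U, q2))) d'.2]
        ((chart t).map Prod.fst) ∧
      CmpF G.W P' t ∧ (∀ a ∈ t.nodes, a.1.1 = (pd S Γ).lab a.2) ∧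
      (∀ u ∈ V', ∃ a ∈ t.nodes, a.2 = u) ∧ t.nodes.length + 1 ≤ 2 * V'.length ∧
      ∃ c', ∀ a ∈ t.nodes, Nd.Sub (Nd.psh v (d', c')) a.2 := by
    intro P' q2 d' V' hV' hV'2 hw1 hw2 hP'
    obtain ⟨u0, hu0⟩ := List.exists_mem_of_ne_nil _ hV'
    obtain ⟨hu0V, c', hst, hr0⟩ := hV'2 u0 hu0
    have hlen0 := hr0.sub.len_le
    rw [Nd.len_psh] at hlen0
    have hD := (hVD u0 hu0V).2
    obtain ⟨D', rfl⟩ : ∃ D', D = D' + 1 := ⟨D - 1, by omega⟩
    have key := IH D' (by omega) (Nd.psh v (d', c')) P'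
      ((v.top.1, S.lab v.top.2), (E, (U, q2))) false V' ?_ ?_ hV' ?_ (by simp)
    · obtain ⟨h, t, a1, a2, a3, a4, a5, a6, _⟩ := key
      exact ⟨h, t, der_instr hst a1, a2, a3, a4, a5, c', a6⟩
    · refine ⟨?_, ?_⟩
      · rintro A ⟨p, hp, hA⟩
        rw [Nd.par_psh, Option.some.injEq] at hp
        subst hp
        exact hA
      · intro p hp
        rw [Nd.par_psh, Option.some.injEq] at hp
        subst hp
        exact ⟨rfl, hloops, hw1, hw2⟩
    · intro p hp
      refine ⟨by simp, ?_⟩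
      rcases hP' p hp with rfl | h
      · exact Nd.not_sub_par rfl
      · exact fun hs => h hs.of_psh
    · intro u hu
      obtain ⟨huV, c'', hst', hr⟩ := hV'2 u hu
      have : c' = c'' := by
        rw [hst] at hst'
        exact Option.some.inj hst'
      subst this
      have := (hVD u huV).2
      refine ⟨hr, ?_⟩
      rw [Nd.len_psh]
      omega
  -- the directions
  have hfin : Finite (Dir S Γ) := inferInstance
  have := Fintype.ofFinite (Dir S Γ)
  set ds : List (Dir S Γ) := (Finset.univ.filter fun d' => ∃ u ∈ V, InDir v d' u).toList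
    with hds
  have hdsN : ds.Nodup := Finset.nodup_toList _
  have hdsM : ∀ d', d' ∈ ds ↔ ∃ u ∈ V, InDir v d' u := by
    intro d'
    rw [hds, Finset.mem_toList, Finset.mem_filter]
    simp
  by_cases hcase : v ∈ V ∨ 2 ≤ ds.length
  · -- output
    obtain ⟨h1, t1, n1, b1, b2, b3, b4, b5, b6, b7⟩ := skel_forest v
      ((v.top.1, S.lab v.top.2), (E, (U, (U, U)))) V ds hdsN (by
        intro d' hd'
        obtain ⟨u0, hu0, hdir0⟩ := (hdsM d').1 hd'
        obtain ⟨h, t, a1, a2, a3, a4, a5, c', a6⟩ := child (some v) (U, U) d'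
          (V.filter fun u => InDir v d' u)
          (List.ne_nil_of_mem (List.mem_filter.2 ⟨hu0, by simpa using hdir0⟩))
          (fun u hu => by simpa using hu)
          (by rintro A B ⟨_, _, ⟨⟩, ⟨⟩, hW⟩; exact hloops hW)
          (by rintro A B ⟨_, _, ⟨⟩, ⟨⟩, hW⟩; exact hloops hW)
          (by rintro p ⟨⟩; exact .inl rfl)
        refine ⟨h, t, (V.filter fun u => InDir v d' u).length, a1, a2, a3, ?_, a5, ?_, c', a6⟩
        · intro u hu hdir
          exact a4 u (List.mem_filter.2 ⟨hu, by simpa using hdir⟩)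
        · intro p hp
          rw [← List.countP_eq_length_filter]
          refine le_of_eq (List.countP_congr fun u _ => ?_)
          rw [hp]
          simp)
    have hsubv : ∀ a ∈ t1.nodes, Nd.Sub v a.2 := by
      intro a ha
      obtain ⟨d', _, c', h⟩ := b7 a ha
      exact h.of_psh
    have hlabv : ((v.top.1, S.lab v.top.2) : Dir S Γ × S.Λ) = (pd S Γ).lab v := rfl
    refine ⟨max k0 h1 + 1, .nd (((v.top.1, S.lab v.top.2), (U, (Dn, Up))), v) t1 .nil,
      ?_, ?_, ?_, ?_, ?_, ?_, ?_⟩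
    · refine der_itR (Sto.stO_none _ _) (r := fl ++ (.inl (some ((v.top.1, S.lab v.top.2),
          (U, (Dn, Up)))) :: (ds.map (fun d' => itR false d'
            ((v.top.1, S.lab v.top.2), (E, (U, (U, U)))) d'.2) ++ [.inl none])))
        ⟨E, X, fl, hfl, hfl1, hfl2, .inr ⟨ds, hdsN, rfl⟩⟩ ?_
      have e1 : (chart (.nd (((v.top.1, S.lab v.top.2), (U, (Dn, Up))), v) t1 .nil :
          Tr (Lb G.N (Dir S Γ × S.Λ) × Cf S Γ))).map Prod.fst =
          [] ++ (some ((v.top.1, S.lab v.top.2), (U, (Dn, Up))) ::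
            ((chart t1).map Prod.fst ++ [none])) := by
        simp [chart, Tr.wd]
      rw [e1]
      refine der_app hk0 (.ltr ?_)
      exact LGr.Der.append b1 (.ltr .nil)
    · refine ⟨fun A B hW => hloops hW, hDnC, hUpC, ?_, ?_, ?_, ?_, b2, trivial⟩
      · rintro b hb A B ⟨_, p0, ⟨⟩, hp0, hW⟩
        obtain ⟨hpar, hsub⟩ := hP p0 hp0
        obtain ⟨p, hp⟩ := Option.ne_none_iff_exists'.1 hpar
        obtain ⟨C, C', e1, _, _, e4⟩ := sep_exit hp (hsubv b hb) hsub hW
        exact ⟨C, e1, ⟨v, p0, rfl, hp0, e4⟩⟩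
      · rintro b hb A B ⟨p0, _, hp0, ⟨⟩, hW⟩
        obtain ⟨hpar, hsub⟩ := hP p0 hp0
        obtain ⟨p, hp⟩ := Option.ne_none_iff_exists'.1 hpar
        obtain ⟨C, C', _, _, e3, e4⟩ := sep_entry hp hsub (hsubv b hb) hW
        exact ⟨C', ⟨p0, v, hp0, rfl, e4⟩, e3⟩
      · intro b _ b' hb'
        simp [Tr.nodes] at hb'
      · intro b _ b' hb'
        simp [Tr.nodes] at hb'
    · intro a ha
      simp only [Tr.nodes, List.append_nil, List.mem_cons] at ha
      rcases ha with rfl | ha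
      · rfl
      · exact b3 a ha
    · intro u hu
      simp only [Tr.nodes, List.append_nil, List.mem_cons]
      rcases (hVD u hu).1.dir with rfl | ⟨d', hd'⟩
      · exact ⟨_, .inl rfl, rfl⟩
      · obtain ⟨a, ha, e⟩ := b4 u hu d' ((hdsM d').2 ⟨u, hu, hd'⟩) hd'
        exact ⟨a, .inr ha, e⟩
    · simp only [Tr.nodes, List.append_nil, List.length_cons]
      have e1 := b6 (fun u => decide (∃ d ∈ ds, InDir v d u)) (by simp)
      have e2 : V.countP (fun u => decide (∃ d ∈ ds, InDir v d u)) ≤ V.length :=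
        List.countP_le_length
      rcases hcase with hv | hcase
      · have e3 : V.countP (fun u => decide (∃ d ∈ ds, InDir v d u)) < V.length := by
          refine lt_of_le_of_ne e2 fun he => ?_
          rw [List.countP_eq_length] at he
          have := he v hv
          rw [decide_eq_true_eq] at this
          obtain ⟨d, _, hd⟩ := this
          exact hd.ne rfl
        omega
      · omega
    · intro a ha
      simp only [Tr.nodes, List.append_nil, List.mem_cons] at ha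
      rcases ha with rfl | ha
      · exact .refl
      · exact hsubv a ha
    · intro _
      exact ⟨_, _, rfl⟩
  · -- skip
    rw [not_or, not_le] at hcase
    obtain ⟨hvV, hlen⟩ := hcase
    have hff : f = false := by
      cases f with
      | false => rfl
      | true => exact absurd (hf rfl) hvV
    subst hff
    obtain ⟨u0, hu0⟩ := List.exists_mem_of_ne_nil _ hV
    obtain ⟨d', hd'⟩ : ∃ d', InDir v d' u0 := by
      rcases (hVD u0 hu0).1.dir with rfl | h
      · exact absurd hu0 hvV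
      · exact h
    have hall : ∀ u ∈ V, InDir v d' u := by
      intro u hu
      rcases (hVD u hu).1.dir with rfl | ⟨d, hd⟩
      · exact absurd hu hvV
      · have m1 := (hdsM d).2 ⟨u, hu, hd⟩
        have m2 := (hdsM d').2 ⟨u0, hu0, hd'⟩
        have : d = d' := eq_of_mem_short hlen m1 m2
        exact this ▸ hd
    obtain ⟨h, t, a1, a2, a3, a4, a5, c', a6⟩ := child P (Dn, Up) d' V hV
      (fun u hu => ⟨hu, hall u hu⟩) hDnC hUpC (fun p hp => .inr (hP p hp).2)
    refine ⟨max k0 h + 1, t, ?_, a2, a3, a4, a5, fun a ha => (a6 a ha).of_psh, by simp⟩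
    refine der_itR (Sto.stO_none _ _) (r := fl ++ [itR false d'
        ((v.top.1, S.lab v.top.2), (E, (U, (Dn, Up)))) d'.2])
      ⟨E, X, fl, hfl, hfl1, hfl2, .inl ⟨rfl, d', rfl⟩⟩ ?_
    exact der_app (w := []) hk0 a1

end Pool.Agent.Lib.LinSpace.Ho
end

section

/-!
The languages generated by grammars over the iterated pushdowns are recognized in deterministic
linear space.
-/

set_option autoImplicit false
set_option linter.unusedSectionVars false

namespace Pool.Agent.Lib.LinSpace.Ho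

open Var RecN

open Classical in
/-- Every language generated by a grammar over the storage type `S`, with the initial
configuration `c`, is recognized in linear space. -/
def Good (S : Sto) (c : S.C) : Prop :=
  ∀ (T : Type) [Finite T] [Enc T] (G : Gr S T) (A : G.N),
    Lin (fun w : List T => decide (G.Gen A c w))

/-! ### Events -/

/-- Events of derivations. -/
abbrev Gr.Tm {S : Sto} {T : Type} (G : Gr S T) (B : G.N) (c : S.C) (a : T) : Prop :=
  G.term B (S.lab c) a

/-- Events of derivations. -/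
abbrev Gr.Bn {S : Sto} {T : Type} (G : Gr S T) (B : G.N) (c : S.C) (C E : G.N) : Prop :=
  G.bin B (S.lab c) C E

theorem Ev.map {N N' K K' T : Type} {walk : N → K → N → K → Prop}
    {walk' : N' → K' → N' → K' → Prop} {tm : N → K → T → Prop} {tm' : N' → K' → T → Prop}
    {bn : N → K → N → N → Prop} {bn' : N' → K' → N' → N' → Prop} {tgt : N → K → Prop}
    {tgt' : N' → K' → Prop} (R : N → K → N' → K' → Prop)
    (hw : ∀ A k B k₁ A' k', R A k A' k' → walk A k B k₁ →
      ∃ B' k₁', R B k₁ B' k₁' ∧ walk' A' k' B' k₁')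
    (htm : ∀ A k A' k' a, R A k A' k' → tm A k a → tm' A' k' a)
    (hbn : ∀ A k A' k' C E, R A k A' k' → bn A k C E →
      ∃ C' E', R C k C' k' ∧ R E k E' k' ∧ bn' A' k' C' E')
    (htg : ∀ A k A' k', R A k A' k' → tgt A k → tgt' A' k')
    {A : N} {k : K} {W : List (Option T)} (h : Ev walk tm bn tgt A k W) :
    ∀ A' k', R A k A' k' → Ev walk' tm' bn' tgt' A' k' W := by
  induction h with
  | hole h1 h2 =>
    intro A' k' hR
    obtain ⟨B', k₁', hR', hw'⟩ := hw _ _ _ _ _ _ hR h1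
    exact .hole hw' (htg _ _ _ _ hR' h2)
  | term h1 h2 =>
    intro A' k' hR
    obtain ⟨B', k₁', hR', hw'⟩ := hw _ _ _ _ _ _ hR h1
    exact .term hw' (htm _ _ _ _ _ hR' h2)
  | bin h1 h2 _ _ ih1 ih2 =>
    intro A' k' hR
    obtain ⟨B', k₁', hR', hw'⟩ := hw _ _ _ _ _ _ hR h1
    obtain ⟨C', E', hC, hE, hb⟩ := hbn _ _ _ _ _ _ hR' h2
    exact .bin hw' hb (ih1 _ _ hC) (ih2 _ _ hE)

theorem Gr.gen_of_ev {S : Sto} {T : Type} (G : Gr S T) {A : G.N} {c : S.C}
    {W : List (Option T)} (H : Ev G.W G.Tm G.Bn (fun _ _ => False) A c W) :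
    ∀ w : List T, w.map some = W → G.Gen A c w := by
  induction H with
  | hole _ h => exact h.elim
  | @term A B c c' a h1 h2 =>
    intro w hW
    obtain ⟨h, H⟩ := h1
    have hw : w = [a] := by
      have : w.map some = [a].map some := hW
      exact (List.map_injective_iff.2 (Option.some_injective _)) this
    subst hw
    exact H.gen.2 B c' rfl _ (.term h2)
  | @bin A B C E c c' u v h1 h2 _ _ ih1 ih2 =>
    intro w hW
    obtain ⟨h, H⟩ := h1
    obtain ⟨w1, w2, rfl, h3, h4⟩ := List.map_eq_append_iff.1 hW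
    exact H.gen.2 B c' rfl _ (.bin h2 (ih1 w1 h3) (ih2 w2 h4))

/-- It is sufficient to consider nonempty words. -/
theorem lin_of_nonempty {T : Type} [Enc T] {f g : List T → Bool} (hg : Lin g)
    (h : ∀ w, w ≠ [] → f w = g w) : Lin f := by
  refine ((Lin.isEmpty Lin.id).ite (Lin.const (f [])) hg).of_eq fun w => ?_
  cases w with
  | nil => rfl
  | cons a w => simp [h (a :: w) (by simp)]

/-! ### Storage types with finitely many configurations -/

theorem good_of_finite (S : Sto) [Finite S.C] (c : S.C) : Good S c := by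
  classical
  intro T _ _ G A
  let N := G.N × S.C
  have : Nonempty N := ⟨(A, c)⟩
  let _ : Enc N := encFinite N
  let walk : N → Unit → N → Unit → Prop := fun A _ B _ => G.W A.1 A.2 B.1 B.2
  let rc : List (Unit × Mk N) → Set N := fun tw =>
    {A | (tw.headD ((), (false, ∅))).2.1 = true ∧
      ∃ B ∈ (tw.headD ((), (false, ∅))).2.2, walk A () B ()}
  have hrc : Lin rc := by
    have h := (Lin.of_finite (fun e : Unit × Mk N => ({A | e.2.1 = true ∧
      ∃ B ∈ e.2.2, walk A () B ()} : Set N))).comp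
      ((Lin.id : Lin (fun l : List (Unit × Mk N) => l)).headD ((), (false, ∅)))
    exact h.of_eq fun _ => rfl
  obtain ⟨eng, h1, h2, h3⟩ := engine (N := N) (T := T) (Z := Unit)
    (fun _ a => {B | G.term B.1 (S.lab B.2) a})
    (fun _ B C E => G.bin B.1 (S.lab B.2) C.1 E.1 ∧ C.2 = B.2 ∧ E.2 = B.2) hrc
  refine lin_of_nonempty (g := fun w => eng (((A, c), w), [((), (true, ∅))]))
    (h1.comp (((Lin.const _).pair Lin.id).pair (Lin.const _))) fun w hw => ?_
  rw [Bool.eq_iff_iff, decide_eq_true_eq]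
  have hX : ∀ X : List ((Unit × Unit) × Mk N), X.map Prod.fst = [((), ())] →
      ∃ m, X = [(((), ()), m)] := by
    intro X hX
    cases X with
    | nil => simp at hX
    | cons x X =>
      rw [List.map_cons, List.cons.injEq, List.map_eq_nil_iff] at hX
      obtain ⟨⟨a, b⟩, m⟩ := x
      exact ⟨m, by rw [hX.2]⟩
  constructor
  · intro h
    rcases (G.gen_iff A c w).1 h with ⟨h, _⟩ | ⟨V, _, H⟩
    · exact absurd h hw
    · refine h3 Unit walk (fun B _ a => G.term B.1 (S.lab B.2) a)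
        (fun B _ C E => G.bin B.1 (S.lab B.2) C.1 E.1 ∧ C.2 = B.2 ∧ E.2 = B.2) [((), ())]
        ?_ (fun _ _ _ _ h => h) (fun _ _ _ _ _ h => h) (fun _ _ _ _ _ => ⟨((), ()), by simp⟩)
        (A, c) w [(((), ()), (true, ∅))] () rfl ⟨_, List.mem_singleton_self _, rfl, rfl⟩ ?_
      · intro X hX1 A' B x y hx hy hx1 hB hw'
        obtain ⟨m, rfl⟩ := hX X hX1
        rw [List.mem_singleton] at hx hy
        subst hx hy
        exact ⟨hx1, B, hB, hw'⟩
      · exact H.map (fun A k A' _ => A' = (A, k))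
          (by rintro A k B k₁ _ _ rfl ⟨_, h⟩; exact ⟨_, (), rfl, h⟩)
          (by rintro A k _ _ a rfl h; exact h)
          (by rintro A k _ _ C E rfl h; exact ⟨_, _, rfl, rfl, h, rfl, rfl⟩)
          (by rintro A k _ _ _ h; exact h) (A, c) () rfl
  · intro h
    have H := h2 Unit walk (fun B _ a => G.term B.1 (S.lab B.2) a)
        (fun B _ C E => G.bin B.1 (S.lab B.2) C.1 E.1 ∧ C.2 = B.2 ∧ E.2 = B.2) [((), ())]
        (by
          intro X hX1 A' hA'
          obtain ⟨m, rfl⟩ := hX X hX1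
          obtain ⟨hm, B, hB, hw'⟩ := hA'
          exact ⟨_, List.mem_singleton_self _, _, List.mem_singleton_self _, B, hB, hm, hw'⟩)
        (fun _ _ _ _ h => h) (fun _ _ _ _ _ h => h)
        (A, c) w [(((), ()), (true, ∅))] () rfl (by intros; rfl) h
    refine G.gen_of_ev (W := w.map some) ?_ w rfl
    exact H.map (fun A _ A' k' => A = (A', k'))
      (by rintro _ _ B _ A' k' rfl h; exact ⟨B.1, B.2, rfl, h⟩)
      (by rintro _ _ A' k' a rfl h; exact h)
      (by
        rintro _ _ A' k' ⟨C, _⟩ ⟨E, _⟩ rfl ⟨h, rfl, rfl⟩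
        exact ⟨C, E, rfl, rfl, h⟩)
      (by rintro _ _ A' k' _ h; exact h) A c rfl

/-! ### The pushdown operator -/

theorem Tr.wd_length {α : Type} (t : Tr α) : t.wd.length = 2 * t.nodes.length := by
  induction t with
  | nil => rfl
  | nd a ch nx ih1 ih2 =>
    simp only [Tr.wd, Tr.nodes, List.length_cons, List.length_append, ih1, ih2]
    omega

theorem Tr.mem_wd {α : Type} {t : Tr α} {a : α} : some a ∈ t.wd ↔ a ∈ t.nodes := by
  induction t with
  | nil => simp [Tr.wd, Tr.nodes]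
  | nd b ch nx ih1 ih2 => simp [Tr.wd, Tr.nodes, ih1, ih2]

theorem mem_chart {N Λ K : Type} {t : Tr (Lb N Λ × K)} {z : Option (Lb N Λ) × Option K} :
    z ∈ chart t → z = (none, none) ∨ ∃ a ∈ t.nodes, z = (some a.1, some a.2) := by
  intro h
  obtain ⟨o, ho, rfl⟩ := List.mem_map.1 h
  cases o with
  | none => left; rfl
  | some a => right; exact ⟨a, Tr.mem_wd.1 ho, rfl⟩

theorem chart_of_mem {N Λ K : Type} {t : Tr (Lb N Λ × K)} {a : Lb N Λ × K}
    (h : a ∈ t.nodes) : ((some a.1, some a.2) : Option (Lb N Λ) × Option K) ∈ chart t :=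
  List.mem_map.2 ⟨some a, Tr.mem_wd.2 h, rfl⟩

/-- Nodes reached by walks. -/
theorem Rch.walk {S : Sto} {Γ T : Type} [Finite Γ] {G : Gr (pd S Γ) T} {x : Dir S Γ × S.C}
    {h : ℕ} {A : G.N} {u : Cf S Γ} {o : Option (G.N × Cf S Γ)} (H : G.D h A u o) :
    Rch (.root x) u → ∀ B u', o = some (B, u') → Rch (.root x) u' := by
  induction H with
  | refl => rintro h B u' ho; cases ho; exact h
  | eps h => rintro _ B u' ho; cases ho
  | @mv h A B c c' i o h1 h2 _ ih =>
    intro h3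
    refine ih ?_
    match i, h2 with
    | none, h2 =>
      have h2' : c = c' := Option.some.inj h2
      exact h2' ▸ h3
    | some none, h2 =>
      cases h3 with
      | refl => exact absurd h2 (by rw [pd_stO_pop]; simp)
      | @psh p _ _ h4 h5 =>
        have h2' : p = c' := Option.some.inj h2
        exact h2' ▸ h4
    | some (some d), h2 =>
      obtain ⟨c1, h4, rfl⟩ := pd_stO_push.1 h2
      exact .psh h3 h4
  | bin1 _ _ _ _ ih => exact ih
  | bin2 _ _ _ ih _ => exact ih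

/-- The initial marks: the first position is the source. -/
def mkT {Z N : Type} (d : Z) (s : List Z) : List (Z × Mk N) :=
  (s.headD d, (true, ∅)) :: s.tail.map fun z => (z, (false, ∅))

theorem lin_mkT {Z N : Type} [Enc Z] [Finite N] (d : Z) :
    Lin (mkT (N := N) d) :=
  ((Lin.id.headD d).pair (Lin.const (true, (∅ : Set N)))).cons
    (Lin.map' Lin.id.tail (Lin.id.pair (Lin.const (false, (∅ : Set N)))))

theorem good_pd {S : Sto} {c : S.C} (hS : Good S c) (Γ : Type) [Finite Γ] (d : Dir S Γ) :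
    Good (pd S Γ) (.root (d, c)) := by
  classical
  intro T _ _ G A
  have : Nonempty G.N := ⟨A⟩
  let _ : Enc G.N := encFinite G.N
  let v₀ : Cf S Γ := .root (d, c)
  let q₀ : Par G := ((d, S.lab c), (∅, (∅, (∅, ∅))))
  obtain ⟨G', f, hG'⟩ := (skel G).exists_gr
  have hL := hS (SZ G) G' (f (.inr (true, (d, q₀))))
  let lblT : SZ G → T → Set G.N := fun z a => {B | ∃ l, z = some l ∧ G.term B l.1 a}
  let lblB : SZ G → G.N → G.N → G.N → Prop := fun z B C E => ∃ l, z = some l ∧ G.bin B l.1 C E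
  obtain ⟨eng, e1, e2, e3⟩ := engine (N := G.N) (T := T) (Z := SZ G) lblT lblB
    (rc := rch) lin_rch
  have hq₀ : ParS G none v₀ q₀ :=
    ⟨fun _ h => h.elim, fun _ h => h.elim, fun _ h => h.elim, fun _ h => h.elim⟩
  have hq₁ : ParC G none v₀ q₀ := by
    refine ⟨?_, fun p hp => by simp [v₀] at hp⟩
    rintro B ⟨p, hp, _⟩
    simp [v₀] at hp
  -- the semantic marked chart
  have hX : ∀ (l : Lb G.N (Dir S Γ × S.Λ)) (ch : Tr (Lb G.N (Dir S Γ × S.Λ) × Cf S Γ)),
      ∃ X : List ((SZ G × Option (Cf S Γ)) × Mk G.N),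
        X.map Prod.fst = chart (.nd (l, v₀) ch .nil) ∧
        X.map fg = mkT none ((chart (.nd (l, v₀) ch .nil)).map Prod.fst) ∧
        (∀ e ∈ X, e.2.1 = true → e.1.2 = some v₀) ∧
        (∃ e ∈ X, e.2.1 = true ∧ e.1.2 = some v₀) := by
    intro l ch
    have e : chart (.nd (l, v₀) ch .nil) = (some l, some v₀) :: (chart ch ++ [(none, none)]) := by
      simp [chart, Tr.wd]
    refine ⟨((some l, some v₀), (true, ∅)) :: (chart ch ++ [(none, none)]).map
      fun z => (z, (false, ∅)), ?_, ?_, ?_, ?_⟩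
    · rw [e]; simp [Function.comp_def]
    · rw [e]; simp [mkT, fg, Function.comp_def]
    · intro e he hm
      rcases List.mem_cons.1 he with rfl | he
      · rfl
      · obtain ⟨z, _, rfl⟩ := List.mem_map.1 he
        simp at hm
    · exact ⟨_, List.mem_cons_self .., rfl, rfl⟩
  let _ : Rd (SZ G) := rdFinite _
  have hex : Lin (fun w : List T => decide (∃ s : List (SZ G), s.length ≤ 8 * sz w + 8 ∧
      (decide (G'.Gen (f (.inr (true, (d, q₀)))) c s) && eng ((A, w), mkT none s)) = true)) := by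
    refine lin_exists (ω := List T) (B := SZ G)
      (g := fun p => decide (G'.Gen (f (.inr (true, (d, q₀)))) c p.2) &&
        eng ((A, p.1), mkT none p.2)) ?_ 8 fun x => by rw [decide_eq_true_eq]
    exact (hL.comp Lin.snd).and (e1.comp (((Lin.const A).pair Lin.fst).pair
      ((lin_mkT (N := G.N) none).comp Lin.snd)))
  refine lin_of_nonempty hex fun w hw => ?_
  rw [Bool.eq_iff_iff, decide_eq_true_eq, decide_eq_true_eq]
  constructor
  · -- completeness
    intro h
    rcases (G.gen_iff A _ w).1 h with ⟨h, _⟩ | ⟨V, hV, H⟩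
    · exact absurd h hw
    let V' : List (Cf S Γ) := v₀ :: V.filter fun u => decide (Rch v₀ u)
    have hD : ∀ u ∈ V', u.len ≤ (V'.map Nd.len).sum := fun u hu =>
      List.le_sum_of_mem (List.mem_map_of_mem hu)
    obtain ⟨h, t, g1, g2, g3, g4, g5, g6, g7⟩ := skel_complete (G := G) (V'.map Nd.len).sum v₀
      none q₀ true V' hq₁ (fun p hp => by simp at hp) (by simp [V']) (by
        intro u hu
        refine ⟨?_, (hD u hu).trans (by omega)⟩
        rcases List.mem_cons.1 hu with rfl | hu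
        · exact .refl
        · have := (List.mem_filter.1 hu).2
          simpa using this) (fun _ => by simp [V'])
    obtain ⟨l, ch, rfl⟩ := g7 rfl
    obtain ⟨X, x1, x2, x3, x4⟩ := hX l ch
    refine ⟨(chart (.nd (l, v₀) ch .nil)).map Prod.fst, ?_, ?_⟩
    · rw [List.length_map, chart, List.length_map, Tr.wd_length]
      have h1 : V'.length ≤ V.length + 1 :=
        Nat.succ_le_succ (List.length_filter_le _ V)
      have h2 := length_le_sz w
      omega
    · rw [Bool.and_eq_true, decide_eq_true_eq]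
      refine ⟨(hG' _ _ _).2 ⟨h, g1⟩, ?_⟩
      rw [← x2]
      refine e3 (Option (Cf S Γ))
        (fun A k B k' => walkO G.W A k B k' ∧ ∃ z ∈ chart (.nd (l, v₀) ch .nil), z.2 = k')
        (fun B k a => ∃ v, k = some v ∧ G.Tm B v a)
        (fun B k C E => ∃ v, k = some v ∧ G.Bn B v C E) (chart (.nd (l, v₀) ch .nil))
        ?_ ?_ ?_ (fun _ _ _ _ h => h.2) A w X (some v₀) x1 x4 ?_
      · intro X hX A B x y hx hy hx1 hB hw'
        exact rch_complete (fun _ _ => Gr.W.refl _ _) _ none g2 X hX A B x y hx hy hx1 hB hw'.1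
      · rintro z hz B a ⟨v, hv, ht⟩
        rcases mem_chart hz with rfl | ⟨b, hb, rfl⟩
        · simp at hv
        · rw [Option.some.injEq] at hv
          subst hv
          refine ⟨b.1, rfl, ?_⟩
          rw [g3 b hb]
          exact ht
      · rintro z hz B C E ⟨v, hv, ht⟩
        rcases mem_chart hz with rfl | ⟨b, hb, rfl⟩
        · simp at hv
        · rw [Option.some.injEq] at hv
          subst hv
          refine ⟨b.1, rfl, ?_⟩
          rw [g3 b hb]
          exact ht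
      · refine H.map (fun A k A' k' => A' = A ∧ k' = some k ∧ Rch v₀ k) ?_ ?_ ?_ ?_ A (some v₀)
          ⟨rfl, rfl, .refl⟩
        · rintro A k B k₁ _ _ ⟨rfl, rfl, hr⟩ ⟨hV', h, hD'⟩
          have hr' : Rch v₀ k₁ := Rch.walk hD' hr B k₁ rfl
          refine ⟨B, some k₁, ⟨rfl, rfl, hr'⟩, ⟨k, k₁, rfl, rfl, h, hD'⟩, ?_⟩
          obtain ⟨b, hb, rfl⟩ := g4 k₁ (List.mem_cons_of_mem _ (List.mem_filter.2 ⟨hV', by
            simpa using hr'⟩))
          exact ⟨_, chart_of_mem hb, rfl⟩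
        · rintro A k _ _ a ⟨rfl, rfl, _⟩ h
          exact ⟨k, rfl, h⟩
        · rintro A k _ _ C E ⟨rfl, rfl, hr⟩ h
          exact ⟨C, E, ⟨rfl, rfl, hr⟩, ⟨rfl, rfl, hr⟩, k, rfl, h⟩
        · rintro _ _ _ _ _ h
          exact h
  · -- soundness
    rintro ⟨s, _, h⟩
    rw [Bool.and_eq_true, decide_eq_true_eq] at h
    obtain ⟨h1, h2⟩ := h
    obtain ⟨h, h3⟩ := (hG' _ _ _).1 h1
    obtain ⟨t, rfl, t2, t3, t4⟩ := skel_sound h3 none v₀ rfl hq₀
    obtain ⟨l, ch, rfl⟩ := t4 rfl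
    obtain ⟨X, x1, x2, x3, x4⟩ := hX l ch
    rw [← x2] at h2
    have H := e2 (Option (Cf S Γ)) (walkO G.W) (fun B k a => ∃ v, k = some v ∧ G.Tm B v a)
      (fun B k C E => ∃ v, k = some v ∧ G.Bn B v C E) (chart (.nd (l, v₀) ch .nil))
      (fun X hX A hA => rch_sound (fun _ _ _ _ _ _ => Gr.W.trans) _ none t2 X hX A hA)
      (by
        rintro z hz B a ⟨l', hl, ht⟩
        rcases mem_chart hz with rfl | ⟨b, hb, rfl⟩
        · simp at hl
        · rw [Option.some.injEq] at hl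
          subst hl
          refine ⟨b.2, rfl, ?_⟩
          show G.term B ((pd S Γ).lab b.2) a
          rw [← t3 b hb]
          exact ht)
      (by
        rintro z hz B C E ⟨l', hl, ht⟩
        rcases mem_chart hz with rfl | ⟨b, hb, rfl⟩
        · simp at hl
        · rw [Option.some.injEq] at hl
          subst hl
          refine ⟨b.2, rfl, ?_⟩
          show G.bin B ((pd S Γ).lab b.2) C E
          rw [← t3 b hb]
          exact ht) A w X (some v₀) x1 x3 h2
    refine G.gen_of_ev (W := w.map some) ?_ w rfl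
    refine H.map (fun A k A' k' => A = A' ∧ k = some k') ?_ ?_ ?_ ?_ A v₀ ⟨rfl, rfl⟩
    · rintro _ _ B k₁ A' k' ⟨rfl, rfl⟩ ⟨v, u, hv, rfl, hw'⟩
      rw [Option.some.injEq] at hv
      subst hv
      exact ⟨B, u, ⟨rfl, rfl⟩, hw'⟩
    · rintro _ _ A' k' a ⟨rfl, rfl⟩ ⟨v, hv, h⟩
      rw [Option.some.injEq] at hv
      subst hv
      exact h
    · rintro _ _ A' k' C E ⟨rfl, rfl⟩ ⟨v, hv, h⟩
      rw [Option.some.injEq] at hv
      subst hv
      exact ⟨C, E, ⟨rfl, rfl⟩, ⟨rfl, rfl⟩, h⟩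
    · rintro _ _ _ _ _ h
      exact h

/-- The iterated pushdowns. -/
theorem good_it {Γ : Type} [Finite Γ] (a : Γ) : ∀ n, Good (it Γ n) (itInit a n)
  | 0 => by
    have : Finite (it Γ 0).C := inferInstanceAs (Finite Γ)
    exact good_of_finite (it Γ 0) (itInit a 0)
  | n + 1 => good_pd (good_it a n) Bool (false, none)

end Pool.Agent.Lib.LinSpace.Ho
end

section

/-!
The languages accepted by higher-order pushdown automata are accepted by deterministic linearly
bounded machines.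
-/

set_option autoImplicit false

namespace Pool.Agent.Lib.LinSpace.Ho

theorem Hopda.language_mem_DCS {A : Type} [Finite A] {n : ℕ} (M : Hopda A n) :
    M.language ∈ DCS A := by
  classical
  let _ : Enc A := encFinite A
  obtain ⟨G, S₀, hG⟩ := hopda_el M
  obtain ⟨G', S₁, hG'⟩ := el_it n M.bot G S₀
  refine mem_DCS_of_lin (good_it M.bot n A G' S₁) _ fun w => ?_
  rw [decide_eq_true_eq, ← hG', ← hG]

end Pool.Agent.Lib.LinSpace.Ho
end
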