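import Pool.Agent.Lib.LinSpace.Ho.Defs
import Pool.Agent.Lib.LinSpace.Ho.TreeDefs
import Pool.Agent.Lib.LinSpace.Ho.El

section

set_option autoImplicit false

namespace Pool.Agent.Lib.LinSpace.Ho

section Walk

variable {S : Sto} {Γ T : Type} [Finite Γ] (G : Gr (pd S Γ) T)

/-- The configurations of `pd S Γ`. -/
abbrev Cf (S : Sto) (Γ : Type) := Nd (Dir S Γ × S.C)

/-- Relative facts at a node whose topmost square is `(d, c)`: if every nonterminal of `E`
generates the empty word at the parent, then `A` generates the empty word (`o = none`) or leads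
to `B` at the parent (`o = some B`). -/
inductive Fact : Set G.N → Dir S Γ → S.C → G.N → Option G.N → Prop
  | eps {E : Set G.N} {d : Dir S Γ} {c : S.C} {A : G.N} : G.eps A (d, S.lab c) → Fact E d c A none
  | stay {E : Set G.N} {d : Dir S Γ} {c : S.C} {A B : G.N} {o : Option G.N} :
      G.mv A (d, S.lab c) none B → Fact E d c B o → Fact E d c A o
  | bin1 {E : Set G.N} {d : Dir S Γ} {c : S.C} {A B C : G.N} {o : Option G.N} :
      G.bin A (d, S.lab c) B C → Fact E d c B none → Fact E d c C o → Fact E d c A o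
  | bin2 {E : Set G.N} {d : Dir S Γ} {c : S.C} {A B C : G.N} {o : Option G.N} :
      G.bin A (d, S.lab c) B C → Fact E d c B o → Fact E d c C none → Fact E d c A o
  | pop {E : Set G.N} {d : Dir S Γ} {c : S.C} {A B : G.N} :
      G.mv A (d, S.lab c) (some none) B → Fact E d c A (some B)
  | popE {E : Set G.N} {d : Dir S Γ} {c : S.C} {A B : G.N} :
      G.mv A (d, S.lab c) (some none) B → B ∈ E → Fact E d c A none
  | down {E E' : Set G.N} {d d' : Dir S Γ} {c c' : S.C} {A B : G.N} :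
      G.mv A (d, S.lab c) (some (some d')) B → S.stO d'.2 c = some c' →
      (∀ A' ∈ E', Fact E d c A' none) → Fact E' d' c' B none → Fact E d c A none
  | downup {E E' : Set G.N} {d d' : Dir S Γ} {c c' : S.C} {A B C : G.N} {o : Option G.N} :
      G.mv A (d, S.lab c) (some (some d')) B → S.stO d'.2 c = some c' →
      (∀ A' ∈ E', Fact E d c A' none) → Fact E' d' c' B (some C) → Fact E d c C o →
      Fact E d c A o

/-- The nonterminals which generate the empty word at a node. -/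
def epsAt (v : Cf S Γ) : Set G.N := {A | ∃ h, G.D h A v none}

/-- The nonterminals which generate the empty word at the parent of a node. -/
def epsPar (v : Cf S Γ) : Set G.N := {B | ∃ p, v.par = some p ∧ B ∈ epsAt G p}

variable {G}

/-- monotonicity and transitivity of derivations (any storage type) -/
theorem Gr.D.mono {S : Sto} {T : Type} {G : Gr S T} {h h' : ℕ} {A : G.N} {c : S.C}
    {o : Option (G.N × S.C)} (H : G.D h A c o) (hh : h ≤ h') : G.D h' A c o := by
  induction H generalizing h' with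
  | refl => exact .refl
  | eps h => exact .eps h
  | mv h1 h2 _ ih =>
    obtain ⟨k, rfl⟩ : ∃ k, h' = k + 1 := ⟨h' - 1, by omega⟩
    exact .mv h1 h2 (ih (by omega))
  | bin1 h1 _ _ ih1 ih2 =>
    obtain ⟨k, rfl⟩ : ∃ k, h' = k + 1 := ⟨h' - 1, by omega⟩
    exact .bin1 h1 (ih1 (by omega)) (ih2 (by omega))
  | bin2 h1 _ _ ih1 ih2 =>
    obtain ⟨k, rfl⟩ : ∃ k, h' = k + 1 := ⟨h' - 1, by omega⟩
    exact .bin2 h1 (ih1 (by omega)) (ih2 (by omega))

theorem Gr.D.trans {S : Sto} {T : Type} {G : Gr S T} {h h' : ℕ} {A B : G.N} {c c' : S.C}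
    {o : Option (G.N × S.C)} (H : G.D h A c (some (B, c'))) (H' : G.D h' B c' o) :
    G.D (h + h') A c o := by
  generalize ho : some (B, c') = o' at H
  induction H with
  | refl =>
    cases ho
    exact H'.mono (by omega)
  | eps h => cases ho
  | @mv h A B₁ c c₁ i o' h1 h2 _ ih =>
    have := Gr.D.mv h1 h2 (ih ho)
    exact this.mono (by omega)
  | @bin1 h A B₁ C₁ c o' h1 h2 _ ih1 ih2 =>
    have := Gr.D.bin1 h1 (h2.mono (Nat.le_add_right h h')) (ih2 ho)
    exact this.mono (by omega)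
  | @bin2 h A B₁ C₁ c o' h1 _ h3 ih1 ih2 =>
    have := Gr.D.bin2 h1 (ih1 ho) (h3.mono (Nat.le_add_right h h'))
    exact this.mono (by omega)

theorem Gr.W.trans {S : Sto} {T : Type} {G : Gr S T} {A B C : G.N} {c c' c'' : S.C}
    (H : G.W A c B c') (H' : G.W B c' C c'') : G.W A c C c'' := by
  obtain ⟨h, H⟩ := H
  obtain ⟨h', H'⟩ := H'
  exact ⟨h + h', H.trans H'⟩

theorem Gr.W.refl {S : Sto} {T : Type} {G : Gr S T} (A : G.N) (c : S.C) : G.W A c A c :=
  ⟨0, .refl⟩

theorem Gr.W.mv {S : Sto} {T : Type} {G : Gr S T} {A B C : G.N} {c c' c'' : S.C}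
    {i : Option S.I} (h1 : G.mv A (S.lab c) i B) (h2 : S.stO i c = some c')
    (H : G.W B c' C c'') : G.W A c C c'' := by
  obtain ⟨h, H⟩ := H
  exact ⟨h + 1, .mv h1 h2 H⟩

theorem Gr.W.bin1 {S : Sto} {T : Type} {G : Gr S T} {A B C E : G.N} {c c' : S.C} {h : ℕ}
    (h1 : G.bin A (S.lab c) B C) (h2 : G.D h B c none) (H : G.W C c E c') : G.W A c E c' := by
  obtain ⟨h', H⟩ := H
  exact ⟨h + h' + 1, .bin1 h1 (h2.mono (by omega)) (H.mono (by omega))⟩

theorem Gr.W.bin2 {S : Sto} {T : Type} {G : Gr S T} {A B C E : G.N} {c c' : S.C} {h : ℕ}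
    (h1 : G.bin A (S.lab c) B C) (H : G.W B c E c') (h2 : G.D h C c none) : G.W A c E c' := by
  obtain ⟨h', H⟩ := H
  exact ⟨h + h' + 1, .bin2 h1 (H.mono (by omega)) (h2.mono (by omega))⟩

theorem Nd.Sub.len_le {X : Type} {v u : Nd X} (H : Nd.Sub v u) : v.len ≤ u.len := by
  induction H with
  | refl => exact le_rfl
  | psh _ ih => simpa using le_trans ih (Nat.le_succ _)

theorem Nd.Sub.of_psh {X : Type} {v u : Nd X} {x : X} (H : Nd.Sub (Nd.psh v x) u) :
    Nd.Sub v u := by
  induction H with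
  | refl => exact .psh .refl
  | psh _ ih => exact .psh ih

theorem Nd.not_sub_par {X : Type} {v p : Nd X} (hp : v.par = some p) : ¬ Nd.Sub v p := by
  intro H
  have := H.len_le
  cases v with
  | root x => simp at hp
  | psh q x =>
    simp only [Nd.par_psh, Option.some.injEq] at hp
    subst hp
    simp at this

theorem Nd.eq_psh {X : Type} {v p : Nd X} (hp : v.par = some p) : v = Nd.psh p v.top := by
  cases v with
  | root x => simp at hp
  | psh q x =>
    simp only [Nd.par_psh, Option.some.injEq] at hp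
    subst hp
    rfl

/-- the pop at a node -/
theorem pd_stO_pop {S : Sto} {Γ : Type} [Finite Γ] (v : Cf S Γ) :
    (pd S Γ).stO (some none) v = v.par := rfl

/-- the push at a node -/
theorem pd_stO_push {S : Sto} {Γ : Type} [Finite Γ] {v v' : Cf S Γ} {d : Dir S Γ} :
    (pd S Γ).stO (some (some d)) v = some v' ↔
      ∃ c, S.stO d.2 v.top.2 = some c ∧ v' = Nd.psh v (d, c) := by
  change (Option.map (fun c => (Nd.psh v (d, c) : Cf S Γ)) (S.stO d.2 v.top.2) :
    Option (Cf S Γ)) = some v' ↔ _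
  rw [Option.map_eq_some_iff]
  constructor
  · rintro ⟨c, h1, h2⟩
    exact ⟨c, h1, h2.symm⟩
  · rintro ⟨c, h1, h2⟩
    exact ⟨c, h1, h2.symm⟩

/-- a step entering a subtree -/
theorem step_enter {S : Sto} {Γ : Type} [Finite Γ] {v p u u₁ : Cf S Γ}
    {i : Option (pd S Γ).I} (hst : (pd S Γ).stO i u = some u₁) (hp : v.par = some p)
    (hu : ¬ Nd.Sub v u) (hu₁ : Nd.Sub v u₁) :
    u = p ∧ u₁ = v ∧ i = some (some v.top.1) ∧ S.stO v.top.1.2 p.top.2 = some v.top.2 := by
  match i, hst with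
  | none, hst =>
    rw [Sto.stO_none] at hst
    cases hst
    exact absurd hu₁ hu
  | some none, hst =>
    rw [pd_stO_pop] at hst
    refine absurd ?_ hu
    rw [Nd.eq_psh hst]
    exact .psh hu₁
  | some (some d), hst =>
    obtain ⟨c, h1, rfl⟩ := pd_stO_push.1 hst
    cases hu₁ with
    | refl =>
      simp only [Nd.par_psh, Option.some.injEq] at hp
      subst hp
      exact ⟨rfl, rfl, rfl, h1⟩
    | psh h => exact absurd h hu

/-- a step leaving a subtree -/
theorem step_leave {S : Sto} {Γ : Type} [Finite Γ] {v p u u₁ : Cf S Γ}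
    {i : Option (pd S Γ).I} (hst : (pd S Γ).stO i u = some u₁) (hp : v.par = some p)
    (hu : Nd.Sub v u) (hu₁ : ¬ Nd.Sub v u₁) :
    u = v ∧ u₁ = p ∧ i = some none := by
  match i, hst with
  | none, hst =>
    rw [Sto.stO_none] at hst
    cases hst
    exact absurd hu hu₁
  | some none, hst =>
    rw [pd_stO_pop] at hst
    cases hu with
    | refl =>
      rw [hp] at hst
      cases hst
      exact ⟨rfl, rfl, rfl⟩
    | @psh q x h =>
      have hq : q = u₁ := Option.some.inj hst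
      subst hq
      exact absurd h hu₁
  | some (some d), hst =>
    obtain ⟨c, h1, rfl⟩ := pd_stO_push.1 hst
    exact absurd (.psh hu) hu₁

/-- Relative facts are monotone in the assumption. -/
theorem Fact.mono {E E' : Set G.N} {d : Dir S Γ} {c : S.C} {A : G.N} {o : Option G.N}
    (H : Fact G E d c A o) (hE : E ⊆ E') : Fact G E' d c A o := by
  induction H generalizing E' with
  | eps h => exact .eps h
  | stay h _ ih => exact .stay h (ih hE)
  | bin1 h _ _ ih1 ih2 => exact .bin1 h (ih1 hE) (ih2 hE)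
  | bin2 h _ _ ih1 ih2 => exact .bin2 h (ih1 hE) (ih2 hE)
  | pop h => exact .pop h
  | popE h h' => exact .popE h (hE h')
  | down h1 h2 _ h4 ih3 _ => exact .down h1 h2 (fun A' hA' => ih3 A' hA' hE) h4
  | downup h1 h2 _ h4 _ ih3 _ ih5 =>
    exact .downup h1 h2 (fun A' hA' => ih3 A' hA' hE) h4 (ih5 hE)

theorem Fact.sound {E : Set G.N} {d : Dir S Γ} {c : S.C} {A : G.N} {o : Option G.N}
    (H : Fact G E d c A o) : ∀ v : Cf S Γ, v.top = (d, c) → E ⊆ epsPar G v →
      (o = none → A ∈ epsAt G v) ∧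
      (∀ B p, o = some B → v.par = some p → G.W A v B p) := by
  induction H with
  | @eps E d c A h =>
    intro v hv hE
    refine ⟨fun _ => ⟨0, .eps ?_⟩, by simp⟩
    rw [pd_lab, hv]
    exact h
  | @stay E d c A B o h _ ih =>
    intro v hv hE
    have h' : G.mv A ((pd S Γ).lab v) none B := by
      rw [pd_lab, hv]
      exact h
    refine ⟨fun ho => ?_, fun C p ho hp => ?_⟩
    · obtain ⟨k, hk⟩ := (ih v hv hE).1 ho
      exact ⟨k + 1, .mv h' (Sto.stO_none _ _) hk⟩
    · exact .mv h' (Sto.stO_none _ _) ((ih v hv hE).2 C p ho hp)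
  | @bin1 E d c A B C o h _ _ ih1 ih2 =>
    intro v hv hE
    have h' : G.bin A ((pd S Γ).lab v) B C := by
      rw [pd_lab, hv]
      exact h
    obtain ⟨k, hk⟩ := (ih1 v hv hE).1 rfl
    refine ⟨fun ho => ?_, fun C p ho hp => ?_⟩
    · obtain ⟨k', hk'⟩ := (ih2 v hv hE).1 ho
      exact ⟨k + k' + 1, .bin1 h' (hk.mono (by omega)) (hk'.mono (by omega))⟩
    · exact .bin1 h' hk ((ih2 v hv hE).2 C p ho hp)
  | @bin2 E d c A B C o h _ _ ih1 ih2 =>
    intro v hv hE
    have h' : G.bin A ((pd S Γ).lab v) B C := by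
      rw [pd_lab, hv]
      exact h
    obtain ⟨k, hk⟩ := (ih2 v hv hE).1 rfl
    refine ⟨fun ho => ?_, fun C p ho hp => ?_⟩
    · obtain ⟨k', hk'⟩ := (ih1 v hv hE).1 ho
      exact ⟨k + k' + 1, .bin2 h' (hk'.mono (by omega)) (hk.mono (by omega))⟩
    · exact .bin2 h' ((ih1 v hv hE).2 C p ho hp) hk
  | @pop E d c A B h =>
    intro v hv hE
    have h' : G.mv A ((pd S Γ).lab v) (some none) B := by
      rw [pd_lab, hv]
      exact h
    refine ⟨by simp, fun C p ho hp => ?_⟩
    cases ho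
    exact .mv h' hp (.refl _ _)
  | @popE E d c A B h hB =>
    intro v hv hE
    have h' : G.mv A ((pd S Γ).lab v) (some none) B := by
      rw [pd_lab, hv]
      exact h
    refine ⟨fun _ => ?_, by simp⟩
    obtain ⟨p, hp, k, hk⟩ := hE hB
    exact ⟨k + 1, .mv h' hp hk⟩
  | @down E E' d d' c c' A B h hst _ _ ih3 ih4 =>
    intro v hv hE
    have h' : G.mv A ((pd S Γ).lab v) (some (some d')) B := by
      rw [pd_lab, hv]
      exact h
    have hst' : (pd S Γ).stO (some (some d')) v = some (Nd.psh v (d', c')) := by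
      rw [pd_stO_push]
      exact ⟨c', by rw [hv]; exact hst, rfl⟩
    have hE' : E' ⊆ epsPar G (Nd.psh v (d', c')) := fun A' hA' =>
      ⟨v, rfl, (ih3 A' hA' v hv hE).1 rfl⟩
    refine ⟨fun _ => ?_, by simp⟩
    obtain ⟨k, hk⟩ := (ih4 (Nd.psh v (d', c')) rfl hE').1 rfl
    exact ⟨k + 1, .mv h' hst' hk⟩
  | @downup E E' d d' c c' A B C o h hst _ _ _ ih3 ih4 ih5 =>
    intro v hv hE
    have h' : G.mv A ((pd S Γ).lab v) (some (some d')) B := by
      rw [pd_lab, hv]
      exact h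
    have hst' : (pd S Γ).stO (some (some d')) v = some (Nd.psh v (d', c')) := by
      rw [pd_stO_push]
      exact ⟨c', by rw [hv]; exact hst, rfl⟩
    have hE' : E' ⊆ epsPar G (Nd.psh v (d', c')) := fun A' hA' =>
      ⟨v, rfl, (ih3 A' hA' v hv hE).1 rfl⟩
    have hW : G.W A v C v :=
      .mv h' hst' ((ih4 (Nd.psh v (d', c')) rfl hE').2 C v rfl rfl)
    refine ⟨fun ho => ?_, fun B' p ho hp => ?_⟩
    · obtain ⟨k, hk⟩ := (ih5 v hv hE).1 ho
      obtain ⟨k', hk'⟩ := hW
      exact ⟨k' + k, hk'.trans hk⟩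
    · exact hW.trans ((ih5 v hv hE).2 B' p ho hp)

/-- The nonterminals which generate the empty word at the parent of a node by a derivation of
height at most `h`. -/
def epsParH (G : Gr (pd S Γ) T) (h : ℕ) (v : Cf S Γ) : Set G.N :=
  {B | ∃ p, v.par = some p ∧ G.D h B p none}

theorem epsParH_mono {h h' : ℕ} (hh : h ≤ h') (v : Cf S Γ) :
    epsParH G h v ⊆ epsParH G h' v := by
  rintro B ⟨p, hp, hB⟩
  exact ⟨p, hp, hB.mono hh⟩

theorem epsParH_sub (h : ℕ) (v : Cf S Γ) : epsParH G h v ⊆ epsPar G v := by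
  rintro B ⟨p, hp, hB⟩
  exact ⟨p, hp, h, hB⟩

theorem Fact.of_D (h : ℕ) : ∀ {v : Cf S Γ} {A : G.N}, G.D h A v none →
    Fact G (epsParH G h v) v.top.1 v.top.2 A none := by
  induction h using Nat.strong_induction_on with
  | _ h ih =>
    intro v A H
    cases H with
    | eps h1 => exact .eps h1
    | @mv k _ B _ v₁ i _ h1 hst H =>
      match i, h1, hst with
      | none, h1, hst =>
        rw [Sto.stO_none] at hst
        cases hst
        exact .stay h1 ((ih k (by omega) H).mono (epsParH_mono (by omega) v))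
      | some none, h1, hst =>
        exact .popE h1 ⟨v₁, hst, H.mono (by omega)⟩
      | some (some d'), h1, hst =>
        obtain ⟨c', h2, rfl⟩ := pd_stO_push.1 hst
        refine .down (E' := epsParH G k (Nd.psh v (d', c'))) h1 h2 ?_
          (ih k (by omega) H)
        rintro A' ⟨p, hp, hA'⟩
        simp only [Nd.par_psh, Option.some.injEq] at hp
        subst hp
        exact (ih k (by omega) hA').mono (epsParH_mono (by omega) v)
    | @bin1 k _ B C _ _ h1 H1 H2 =>
      exact .bin1 h1 ((ih k (by omega) H1).mono (epsParH_mono (by omega) v))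
        ((ih k (by omega) H2).mono (epsParH_mono (by omega) v))
    | @bin2 k _ B C _ _ h1 H1 H2 =>
      exact .bin2 h1 ((ih k (by omega) H1).mono (epsParH_mono (by omega) v))
        ((ih k (by omega) H2).mono (epsParH_mono (by omega) v))

theorem Fact.of_eps {v : Cf S Γ} {A : G.N} (H : A ∈ epsAt G v) :
    Fact G (epsPar G v) v.top.1 v.top.2 A none := by
  obtain ⟨h, H⟩ := H
  exact (Fact.of_D h H).mono (epsParH_sub h v)

/-- the entry lemma -/
theorem entry {h : ℕ} {A B : G.N} {u u' v p : Cf S Γ} (H : G.D h A u (some (B, u')))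
    (hp : v.par = some p) (hu : ¬ Nd.Sub v u) (hu' : Nd.Sub v u') :
    ∃ C C' h', h' < h ∧ G.W A u C p ∧
      G.mv C ((pd S Γ).lab p) (some (some v.top.1)) C' ∧
      S.stO v.top.1.2 p.top.2 = some v.top.2 ∧ G.D h' C' v (some (B, u')) := by
  generalize ho : (some (B, u') : Option (G.N × (pd S Γ).C)) = o at H
  induction H with
  | refl =>
    cases ho
    exact absurd hu' hu
  | eps h => cases ho
  | @mv h A B₁ u u₁ i o' h1 hst H ih =>
    subst ho
    by_cases hu₁ : Nd.Sub v u₁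
    · obtain ⟨rfl, rfl, rfl, h2⟩ := step_enter hst hp hu hu₁
      exact ⟨A, B₁, h, by omega, .refl _ _, h1, h2, H⟩
    · obtain ⟨C, C', h', hh, hW, h2, h3, h4⟩ := ih hu₁ rfl
      exact ⟨C, C', h', by omega, .mv h1 hst hW, h2, h3, h4⟩
  | @bin1 h A B₁ C₁ u o' h1 H1 H2 ih1 ih2 =>
    obtain ⟨C, C', h', hh, hW, h2, h3, h4⟩ := ih2 hu ho
    exact ⟨C, C', h', by omega, .bin1 h1 H1 hW, h2, h3, h4⟩
  | @bin2 h A B₁ C₁ u o' h1 H1 H2 ih1 ih2 =>
    obtain ⟨C, C', h', hh, hW, h2, h3, h4⟩ := ih1 hu ho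
    exact ⟨C, C', h', by omega, .bin2 h1 hW H2, h2, h3, h4⟩

/-- the exit lemma -/
theorem exit {h : ℕ} {A B : G.N} {u u' v p : Cf S Γ} (H : G.D h A u (some (B, u')))
    (hp : v.par = some p) (hu : Nd.Sub v u) (hu' : ¬ Nd.Sub v u') :
    ∃ C C' h', h' < h ∧ G.W A u C v ∧ G.mv C ((pd S Γ).lab v) (some none) C' ∧
      G.D h' C' p (some (B, u')) := by
  generalize ho : (some (B, u') : Option (G.N × (pd S Γ).C)) = o at H
  induction H with
  | refl =>
    cases ho
    exact absurd hu hu'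
  | eps h => cases ho
  | @mv h A B₁ u u₁ i o' h1 hst H ih =>
    subst ho
    by_cases hu₁ : Nd.Sub v u₁
    · obtain ⟨C, C', h', hh, hW, h2, h4⟩ := ih hu₁ rfl
      exact ⟨C, C', h', by omega, .mv h1 hst hW, h2, h4⟩
    · obtain ⟨rfl, rfl, rfl⟩ := step_leave hst hp hu hu₁
      exact ⟨A, B₁, h, by omega, .refl _ _, h1, H⟩
  | @bin1 h A B₁ C₁ u o' h1 H1 H2 ih1 ih2 =>
    obtain ⟨C, C', h', hh, hW, h2, h4⟩ := ih2 hu ho
    exact ⟨C, C', h', by omega, .bin1 h1 H1 hW, h2, h4⟩
  | @bin2 h A B₁ C₁ u o' h1 H1 H2 ih1 ih2 =>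
    obtain ⟨C, C', h', hh, hW, h2, h4⟩ := ih1 hu ho
    exact ⟨C, C', h', by omega, .bin2 h1 hW H2, h2, h4⟩

theorem Fact.of_exit_aux (h : ℕ) : ∀ {A B : G.N} {v p u : Cf S Γ},
    G.D h A v (some (B, u)) → v.par = some p → ¬ Nd.Sub v u →
    ∃ C h', h' < h ∧ Fact G (epsPar G v) v.top.1 v.top.2 A (some C) ∧
      G.D h' C p (some (B, u)) := by
  induction h using Nat.strong_induction_on with
  | _ h ih =>
    intro A B v p u H hp hu
    cases H with
    | refl => exact absurd .refl hu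
    | @mv k _ B₁ _ v₁ i _ h1 hst H =>
      match i, h1, hst with
      | none, h1, hst =>
        rw [Sto.stO_none] at hst
        cases hst
        obtain ⟨C, h', hh, hF, hD⟩ := ih k (by omega) H hp hu
        exact ⟨C, h', by omega, .stay h1 hF, hD⟩
      | some none, h1, hst =>
        rw [pd_stO_pop, hp] at hst
        cases hst
        exact ⟨B₁, k, by omega, .pop h1, H⟩
      | some (some d'), h1, hst =>
        obtain ⟨c', h2, rfl⟩ := pd_stO_push.1 hst
        obtain ⟨C₀, k₀, hk₀, hF₀, hD₀⟩ := ih k (by omega) H (p := v) rfl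
          (fun hs => hu hs.of_psh)
        obtain ⟨C, k₁, hk₁, hF₁, hD₁⟩ := ih k₀ (by omega) hD₀ hp hu
        refine ⟨C, k₁, by omega, .downup (E' := epsPar G (Nd.psh v (d', c'))) h1 h2 ?_ hF₀ hF₁,
          hD₁⟩
        rintro A' ⟨q, hq, hA'⟩
        simp only [Nd.par_psh, Option.some.injEq] at hq
        subst hq
        exact .of_eps hA'
    | @bin1 k _ B₁ C₁ _ _ h1 H1 H2 =>
      obtain ⟨C, h', hh, hF, hD⟩ := ih k (by omega) H2 hp hu
      exact ⟨C, h', by omega, .bin1 h1 (.of_eps ⟨k, H1⟩) hF, hD⟩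
    | @bin2 k _ B₁ C₁ _ _ h1 H1 H2 =>
      obtain ⟨C, h', hh, hF, hD⟩ := ih k (by omega) H1 hp hu
      exact ⟨C, h', by omega, .bin2 h1 hF (.of_eps ⟨k, H2⟩), hD⟩

theorem Fact.of_exit {h : ℕ} {A B : G.N} {v p u : Cf S Γ} (H : G.D h A v (some (B, u)))
    (hp : v.par = some p) (hu : ¬ Nd.Sub v u) :
    ∃ C h', h' < h ∧ Fact G (epsPar G v) v.top.1 v.top.2 A (some C) ∧
      G.D h' C p (some (B, u)) :=
  Fact.of_exit_aux h H hp hu

/-- One local step from a node to itself: `lv`, `lp` are the labels of the node and of its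
parent, `E` the set of the nonterminals generating the empty word at the node, `U` the loops at
the parent, `X` the facts at the children. -/
def Lst (G : Gr (pd S Γ) T) (lv lp : Dir S Γ × S.Λ) (E : Set G.N) (U : Set (G.N × G.N))
    (X : Set (Dir S Γ × G.N × G.N)) (A B : G.N) : Prop :=
  G.mv A lv none B ∨ (∃ C ∈ E, G.bin A lv C B ∨ G.bin A lv B C) ∨
    (∃ d' B', G.mv A lv (some (some d')) B' ∧ (d', B', B) ∈ X) ∨
    (∃ B' C', G.mv A lv (some none) B' ∧ (B', C') ∈ U ∧ G.mv C' lp (some (some lv.1)) B)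

/-- The loops computed from local data. -/
def Clo (G : Gr (pd S Γ) T) (lv lp : Dir S Γ × S.Λ) (E : Set G.N) (U : Set (G.N × G.N))
    (X : Set (Dir S Γ × G.N × G.N)) : Set (G.N × G.N) :=
  {x | Relation.ReflTransGen (Lst G lv lp E U X) x.1 x.2}

/-- The loops at a node. -/
def loops (G : Gr (pd S Γ) T) (v : Cf S Γ) : Set (G.N × G.N) := {x | G.W x.1 v x.2 v}

/-- soundness of the computed loops; the node may be a root, then `U = ∅` -/
theorem Clo.sound {v : Cf S Γ} {lp : Dir S Γ × S.Λ} {E : Set G.N} {U : Set (G.N × G.N)}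
    {X : Set (Dir S Γ × G.N × G.N)} (hE : E ⊆ epsAt G v)
    (hU : ∀ x ∈ U, ∃ p, v.par = some p ∧ lp = (pd S Γ).lab p ∧
      S.stO v.top.1.2 p.top.2 = some v.top.2 ∧ x ∈ loops G p)
    (hX : ∀ d' B C, (d', B, C) ∈ X → ∃ c', S.stO d'.2 v.top.2 = some c' ∧
      Fact G E d' c' B (some C)) :
    Clo G ((pd S Γ).lab v) lp E U X ⊆ loops G v := by
  have key : ∀ A B, Lst G ((pd S Γ).lab v) lp E U X A B → G.W A v B v := by
    rintro A B (h | ⟨C, hC, h⟩ | ⟨d', B', h, hx⟩ | ⟨B', C', h, hx, h'⟩)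
    · exact .mv h (Sto.stO_none _ _) (.refl _ _)
    · obtain ⟨k, hk⟩ := hE hC
      rcases h with h | h
      · exact .bin1 h hk (.refl _ _)
      · exact .bin2 h (.refl _ _) hk
    · obtain ⟨c', hc', hF⟩ := hX d' B' B hx
      refine .mv h (pd_stO_push.2 ⟨c', hc', rfl⟩) ?_
      refine (hF.sound (Nd.psh v (d', c')) rfl ?_).2 B v rfl rfl
      intro A' hA'
      exact ⟨v, rfl, hE hA'⟩
    · obtain ⟨p, hp, rfl, hst, hW⟩ := hU _ hx
      have hW' : G.W B' p C' p := hW
      refine .mv h (c' := p) ?_ (hW'.trans (.mv h' (c' := v) ?_ (.refl _ _)))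
      · exact hp
      · exact pd_stO_push.2 ⟨v.top.2, hst, Nd.eq_psh hp⟩
  rintro ⟨A, B⟩ (h : Relation.ReflTransGen _ A B)
  change G.W A v B v
  induction h with
  | refl => exact .refl _ _
  | tail _ h2 ih => exact ih.trans (key _ _ h2)

/-- completeness of the computed loops -/
theorem Clo.complete {v : Cf S Γ} {lp : Dir S Γ × S.Λ} {E : Set G.N} {U : Set (G.N × G.N)}
    {X : Set (Dir S Γ × G.N × G.N)} (hE : epsAt G v ⊆ E)
    (hU : ∀ p, v.par = some p → lp = (pd S Γ).lab p ∧ loops G p ⊆ U)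
    (hX : ∀ d' B C c', S.stO d'.2 v.top.2 = some c' →
      Fact G (epsAt G v) d' c' B (some C) → (d', B, C) ∈ X) :
    loops G v ⊆ Clo G ((pd S Γ).lab v) lp E U X := by
  have key : ∀ (h : ℕ) (A B : G.N), G.D h A v (some (B, v)) →
      Relation.ReflTransGen (Lst G ((pd S Γ).lab v) lp E U X) A B := by
    intro h
    induction h using Nat.strong_induction_on with
    | _ h ih =>
      intro A B H
      cases H with
      | refl => exact .refl
      | @mv k _ B₁ _ v₁ i _ h1 hst H =>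
        match i, h1, hst with
        | none, h1, hst =>
          rw [Sto.stO_none] at hst
          cases hst
          exact .head (.inl h1) (ih k (by omega) _ _ H)
        | some none, h1, hst =>
          have hp : v.par = some v₁ := hst
          obtain ⟨rfl, hU'⟩ := hU v₁ hp
          obtain ⟨C, C', h', hh, hW, h2, h3, h4⟩ := entry H hp (Nd.not_sub_par hp) .refl
          exact .head (.inr (.inr (.inr ⟨B₁, C, h1, hU' hW, h2⟩))) (ih h' (by omega) _ _ h4)
        | some (some d'), h1, hst =>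
          obtain ⟨c', h2, rfl⟩ := pd_stO_push.1 hst
          obtain ⟨C, h', hh, hF, hD⟩ := Fact.of_exit H (p := v) rfl
            (Nd.not_sub_par rfl)
          refine .head (.inr (.inr (.inl ⟨d', B₁, h1, hX d' B₁ C c' h2 (hF.mono ?_)⟩)))
            (ih h' (by omega) _ _ hD)
          rintro A' ⟨q, hq, hA'⟩
          simp only [Nd.par_psh, Option.some.injEq] at hq
          subst hq
          exact hA'
      | @bin1 k _ B₁ C₁ _ _ h1 H1 H2 =>
        exact .head (.inr (.inl ⟨B₁, hE ⟨k, H1⟩, .inl h1⟩)) (ih k (by omega) _ _ H2)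
      | @bin2 k _ B₁ C₁ _ _ h1 H1 H2 =>
        exact .head (.inr (.inl ⟨C₁, hE ⟨k, H2⟩, .inr h1⟩)) (ih k (by omega) _ _ H1)
  rintro ⟨A, B⟩ ⟨h, H⟩
  exact key h A B H

end Walk

end Pool.Agent.Lib.LinSpace.Ho
end

section

section

/-!
The grammar over the storage type `S` generating the skeletons of the tree of the configurations
of `pd S Γ`, with true labels: definitions.
-/

set_option autoImplicit false

namespace Pool.Agent.Lib.LinSpace.Ho

variable {S : Sto} {Γ T : Type} [Finite Γ] (G : Gr (pd S Γ) T)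

/-- Claims about the parent of a node: its label, the nonterminals which generate the empty word
there, the loops there, the walks to it from the skeleton parent, the walks from it to the
skeleton parent. -/
abbrev Par (G : Gr (pd S Γ) T) :=
  (Dir S Γ × S.Λ) × (Set G.N × (Set (G.N × G.N) × (Set (G.N × G.N) × Set (G.N × G.N))))

/-- The nonterminals of the skeleton grammar: relative facts (assumption, direction, nonterminal,
conclusion) and nodes (whether the node has to be output, its direction, the claims about its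
parent). -/
abbrev SN (G : Gr (pd S Γ) T) :=
  (Set G.N × (Dir S Γ × (G.N × Option G.N))) ⊕ (Bool × (Dir S Γ × Par G))

/-- The letters of skeletons. -/
abbrev SZ (G : Gr (pd S Γ) T) := Option (Lb G.N (Dir S Γ × S.Λ))

/-- The items of the skeleton grammar. -/
abbrev SI (G : Gr (pd S Γ) T) := SZ G ⊕ (SN G × Option S.I)

variable {G}

/-- The item of a fact. -/
def itF (E : Set G.N) (d : Dir S Γ) (A : G.N) (o : Option G.N) (i : Option S.I) : SI G :=
  .inr (.inl (E, (d, (A, o))), i)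

/-- The item of a node. -/
def itR (f : Bool) (d : Dir S Γ) (q : Par G) (i : Option S.I) : SI G :=
  .inr (.inr (f, (d, q)), i)

/-- Lists of facts of bounded length. -/
def FL (fl : List (SI G)) : Prop :=
  fl.length ≤ Nat.card (SI G) ∧ ∀ x ∈ fl, ∃ E d A o i, x = itF E d A o i

/-- The rules for facts. -/
def ruleF (E : Set G.N) (d : Dir S Γ) (A : G.N) (o : Option G.N) (l : S.Λ)
    (r : List (SI G)) : Prop :=
  (o = none ∧ G.eps A (d, l) ∧ r = []) ∨
  (∃ B, G.mv A (d, l) none B ∧ r = [itF E d B o none]) ∨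
  (∃ B C, G.bin A (d, l) B C ∧ r = [itF E d B none none, itF E d C o none]) ∨
  (∃ B C, G.bin A (d, l) B C ∧ r = [itF E d B o none, itF E d C none none]) ∨
  (∃ B, G.mv A (d, l) (some none) B ∧ o = some B ∧ r = []) ∨
  (∃ B, G.mv A (d, l) (some none) B ∧ o = none ∧ B ∈ E ∧ r = []) ∨
  (∃ d' B E' fl, G.mv A (d, l) (some (some d')) B ∧ FL fl ∧
    (∀ A' ∈ E', itF E d A' none none ∈ fl) ∧ o = none ∧ r = fl ++ [itF E' d' B none d'.2]) ∨
  (∃ d' B C E' fl, G.mv A (d, l) (some (some d')) B ∧ FL fl ∧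
    (∀ A' ∈ E', itF E d A' none none ∈ fl) ∧
    r = fl ++ [itF E' d' B (some C) d'.2, itF E d C o none])

/-- The computed walks from the skeleton parent to the node. -/
def mkDn (G : Gr (pd S Γ) T) (d : Dir S Γ) (q : Par G) (U : Set (G.N × G.N)) :
    Set (G.N × G.N) :=
  {x | ∃ B C, (x.1, B) ∈ q.2.2.2.1 ∧ G.mv B q.1 (some (some d)) C ∧ (C, x.2) ∈ U}

/-- The computed walks from the node to the skeleton parent. -/
def mkUp (G : Gr (pd S Γ) T) (lv : Dir S Γ × S.Λ) (q : Par G) (U : Set (G.N × G.N)) :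
    Set (G.N × G.N) :=
  {x | ∃ B C, (x.1, B) ∈ U ∧ G.mv B lv (some none) C ∧ (C, x.2) ∈ q.2.2.2.2}

/-- The rules for nodes: the facts in `E` and `X` are proved; then either the node is not a node
of the skeleton, and one of its children is considered, or it is output. -/
def ruleR (f : Bool) (d : Dir S Γ) (q : Par G) (l : S.Λ) (r : List (SI G)) : Prop :=
  ∃ (E : Set G.N) (X : Set (Dir S Γ × G.N × G.N)) (fl : List (SI G)), FL fl ∧
    (∀ A ∈ E, itF q.2.1 d A none none ∈ fl) ∧
    (∀ x ∈ X, itF E x.1 x.2.1 (some x.2.2) x.1.2 ∈ fl) ∧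
    ((f = false ∧ ∃ d', r = fl ++ [itR false d'
        ((d, l), (E, (Clo G (d, l) q.1 E q.2.2.1 X,
          (mkDn G d q (Clo G (d, l) q.1 E q.2.2.1 X),
            mkUp G (d, l) q (Clo G (d, l) q.1 E q.2.2.1 X))))) d'.2]) ∨
      (∃ ds : List (Dir S Γ), ds.Nodup ∧
        r = fl ++ (.inl (some ((d, l), (Clo G (d, l) q.1 E q.2.2.1 X,
            (mkDn G d q (Clo G (d, l) q.1 E q.2.2.1 X),
              mkUp G (d, l) q (Clo G (d, l) q.1 E q.2.2.1 X))))) ::
          (ds.map (fun d' => itR false d' ((d, l), (E, (Clo G (d, l) q.1 E q.2.2.1 X,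
            (Clo G (d, l) q.1 E q.2.2.1 X, Clo G (d, l) q.1 E q.2.2.1 X)))) d'.2) ++
              [.inl none]))))

variable (G)

/-- The skeleton grammar. -/
noncomputable def skel : LGr S (SZ G) where
  N := SN G
  finN := inferInstance
  rule := fun B l r => match B with
    | .inl (E, (d, (A, o))) => ruleF E d A o l r
    | .inr (f, (d, q)) => ruleR f d q l r
  bd := Nat.card (SI G) + Nat.card (Dir S Γ) + 2
  hbd := by
    have key : ∀ ds : List (Dir S Γ), ds.Nodup → ds.length ≤ Nat.card (Dir S Γ) := by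
      intro ds h
      classical
      have := Fintype.ofFinite (Dir S Γ)
      rw [Nat.card_eq_fintype_card]
      exact h.length_le_card
    rintro (⟨E, d, A, o⟩ | ⟨f, d, q⟩) l r h
    · rcases h with ⟨_, _, rfl⟩ | ⟨B, _, rfl⟩ | ⟨B, C, _, rfl⟩ | ⟨B, C, _, rfl⟩ |
        ⟨B, _, _, rfl⟩ | ⟨B, _, _, _, rfl⟩ | ⟨d', B, E', fl, _, h, _, _, rfl⟩ |
        ⟨d', B, C, E', fl, _, h, _, rfl⟩
      · simp
      · simp
      · simp
      · simp
      · simp
      · simp
      · have := h.1; simp only [List.length_append, List.length_cons, List.length_nil]; omega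
      · have := h.1; simp only [List.length_append, List.length_cons, List.length_nil]; omega
    · rcases h with ⟨E, X, fl, h, _, _, ⟨_, d', rfl⟩ | ⟨ds, hds, rfl⟩⟩
      · have := h.1; simp only [List.length_append, List.length_cons, List.length_nil]; omega
      · have := h.1
        have := key ds hds
        simp only [List.length_append, List.length_cons, List.length_nil, List.length_map]
        omega

/-- The claims `q` about the parent of `v` are true; `P` is the skeleton parent. -/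
def ParS (P : Option (Cf S Γ)) (v : Cf S Γ) (q : Par G) : Prop :=
  q.2.1 ⊆ epsPar G v ∧
  (∀ x ∈ q.2.2.1, ∃ p, v.par = some p ∧ q.1 = (pd S Γ).lab p ∧
    S.stO v.top.1.2 p.top.2 = some v.top.2 ∧ x ∈ loops G p) ∧
  (∀ x ∈ q.2.2.2.1, ∃ p, v.par = some p ∧ q.1 = (pd S Γ).lab p ∧
    S.stO v.top.1.2 p.top.2 = some v.top.2 ∧ walkO G.W x.1 P x.2 (some p)) ∧
  (∀ x ∈ q.2.2.2.2, ∃ p, v.par = some p ∧ walkO G.W x.1 (some p) x.2 P)

/-- The claims `q` about the parent of `v` are complete; `P` is the skeleton parent. -/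
def ParC (P : Option (Cf S Γ)) (v : Cf S Γ) (q : Par G) : Prop :=
  epsPar G v ⊆ q.2.1 ∧
  ∀ p, v.par = some p → q.1 = (pd S Γ).lab p ∧ loops G p ⊆ q.2.2.1 ∧
    (∀ A B, walkO G.W A P B (some p) → (A, B) ∈ q.2.2.2.1) ∧
    (∀ A B, walkO G.W A (some p) B P → (A, B) ∈ q.2.2.2.2)

/-- Nodes reachable from `v` by pushing. -/
inductive Rch {S : Sto} {Γ : Type} (v : Cf S Γ) : Cf S Γ → Prop
  | refl : Rch v v
  | psh {p : Cf S Γ} {d : Dir S Γ} {c : S.C} : Rch v p → S.stO d.2 p.top.2 = some c →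
      Rch v (.psh p (d, c))

end Pool.Agent.Lib.LinSpace.Ho
end

section

/-!
Grammars whose right hand sides are lists of items: normal form.
-/

set_option autoImplicit false

namespace Pool.Agent.Lib.LinSpace.Ho

theorem LGr.Der.mono {S : Sto} {T : Type} {L : LGr S T} {h h' : ℕ} {c : S.C}
    {l : List (T ⊕ (L.N × Option S.I))} {w : List T} (H : L.Der h c l w) (hh : h ≤ h') :
    L.Der h' c l w := by
  induction H generalizing h' with
  | nil => exact .nil
  | ltr _ ih => exact .ltr (ih hh)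
  | nt h1 h2 _ _ ih1 ih2 =>
    obtain ⟨k, rfl⟩ : ∃ k, h' = k + 1 := ⟨h' - 1, by omega⟩
    exact .nt h1 h2 (ih1 (by omega)) (ih2 hh)

theorem LGr.Der.append {S : Sto} {T : Type} {L : LGr S T} {h : ℕ} {c : S.C}
    {l l' : List (T ⊕ (L.N × Option S.I))} {w w' : List T} (H : L.Der h c l w)
    (H' : L.Der h c l' w') : L.Der h c (l ++ l') (w ++ w') := by
  induction H with
  | nil => exact H'
  | ltr _ ih => exact .ltr (ih H')
  | nt h1 h2 h3 _ _ ih2 =>
    rw [List.append_assoc]
    exact .nt h1 h2 h3 (ih2 H')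

theorem LGr.Der.of_append {S : Sto} {T : Type} {L : LGr S T} {h : ℕ} {c : S.C}
    {l l' : List (T ⊕ (L.N × Option S.I))} {w : List T} (H : L.Der h c (l ++ l') w) :
    ∃ u v, w = u ++ v ∧ L.Der h c l u ∧ L.Der h c l' v := by
  induction l generalizing w with
  | nil => exact ⟨[], w, rfl, .nil, H⟩
  | cons x l ih =>
    rw [List.cons_append] at H
    cases H with
    | ltr H =>
      obtain ⟨u, v, rfl, h1, h2⟩ := ih H
      exact ⟨_ :: u, v, rfl, .ltr h1, h2⟩
    | nt e1 e2 e3 H =>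
      obtain ⟨u, v, rfl, h1, h2⟩ := ih H
      exact ⟨_ ++ u, v, (List.append_assoc _ _ _).symm, .nt e1 e2 e3 h1, h2⟩

namespace LGr

variable {S : Sto} {T : Type}

/-- The items of the right hand sides. -/
abbrev Item (L : LGr S T) : Type := T ⊕ (L.N × Option S.I)

/-- The short lists of items. -/
def SL (L : LGr S T) : Type := {l : List L.Item // l.length ≤ max L.bd 1}

theorem finite_SL [Finite T] (L : LGr S T) : Finite L.SL :=
  (List.finite_length_le L.Item (max L.bd 1)).to_subtype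

/-- The grammar in normal form. -/
def toGr [Finite T] (L : LGr S T) : Gr S T where
  N := L.SL ⊕ L.N
  finN := by
    have := finite_SL L
    infer_instance
  eps := fun A _ => ∃ h, A = .inl ⟨[], h⟩
  term := fun A _ t => ∃ h, A = .inl ⟨[.inl t], h⟩
  bin := fun A _ B C => ∃ (x : L.Item) (l : List L.Item) (h1 : (x :: l).length ≤ max L.bd 1)
    (h2 : [x].length ≤ max L.bd 1) (h3 : l.length ≤ max L.bd 1),
    A = .inl ⟨x :: l, h1⟩ ∧ B = .inl ⟨[x], h2⟩ ∧ C = .inl ⟨l, h3⟩
  mv := fun A lam i B => (∃ (B' : L.N) (h : [(Sum.inr (B', i) : L.Item)].length ≤ max L.bd 1),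
      A = .inl ⟨[.inr (B', i)], h⟩ ∧ B = .inr B') ∨
    (∃ (B' : L.N) (r : List L.Item) (h : r.length ≤ max L.bd 1), A = .inr B' ∧ i = none ∧
      L.rule B' lam r ∧ B = .inl ⟨r, h⟩)

/-- The meaning of the nonterminals of the normal form. -/
def Sem [Finite T] (L : LGr S T) (c : S.C) (w : List T) : L.toGr.N → Prop
  | .inl l => ∃ h, L.Der h c l.1 w
  | .inr B => ∃ r h, L.rule B (S.lab c) r ∧ L.Der h c r w

theorem sem_of_gen [Finite T] (L : LGr S T) {A : L.toGr.N} {c : S.C} {w : List T}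
    (H : L.toGr.Gen A c w) : L.Sem c w A := by
  induction H with
  | eps h =>
    obtain ⟨h, rfl⟩ := h
    exact ⟨0, .nil⟩
  | term h =>
    obtain ⟨h, rfl⟩ := h
    exact ⟨0, .ltr .nil⟩
  | bin h _ _ ih1 ih2 =>
    obtain ⟨x, l, h1, h2, h3, rfl, rfl, rfl⟩ := h
    obtain ⟨k1, e1⟩ := ih1
    obtain ⟨k2, e2⟩ := ih2
    exact ⟨max k1 k2, (e1.mono (le_max_left _ _)).append (e2.mono (le_max_right _ _))⟩
  | mv h hst _ ih =>
    rcases h with ⟨B', h, rfl, rfl⟩ | ⟨B', r, h, rfl, rfl, hr, rfl⟩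
    · obtain ⟨r, k, e1, e2⟩ := ih
      refine ⟨k + 1, ?_⟩
      have := LGr.Der.nt hst e1 e2 (Der.nil (h := k + 1) (c := _))
      rwa [List.append_nil] at this
    · simp only [Sto.stO_none, Option.some.injEq] at hst
      subst hst
      obtain ⟨k, e⟩ := ih
      exact ⟨r, k, hr, e⟩

theorem gen_of_der [Finite T] (L : LGr S T) {h : ℕ} {c : S.C} {l : List L.Item} {w : List T}
    (H : L.Der h c l w) (hl : l.length ≤ max L.bd 1) : L.toGr.Gen (.inl ⟨l, hl⟩) c w := by
  induction H with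
  | nil => exact .eps ⟨hl, rfl⟩
  | ltr _ ih =>
    have h3 : _ := le_trans (Nat.le_succ _) hl
    exact Gr.Gen.bin (u := [_]) ⟨_, _, hl, le_max_right _ _, h3, rfl, rfl, rfl⟩
      (.term ⟨le_max_right _ _, rfl⟩) (ih h3)
  | nt hst hr _ _ ih1 ih2 =>
    have h3 : _ := le_trans (Nat.le_succ _) hl
    have h4 := le_trans (L.hbd _ _ _ hr) (le_max_left L.bd 1)
    refine Gr.Gen.bin ⟨_, _, hl, le_max_right _ _, h3, rfl, rfl, rfl⟩ ?_ (ih2 h3)
    exact .mv (.inl ⟨_, le_max_right _ _, rfl, rfl⟩) hst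
      (.mv (.inr ⟨_, _, h4, rfl, rfl, hr, rfl⟩) rfl (ih1 h4))

theorem exists_gr {S : Sto} {T : Type} [Finite T] (L : LGr S T) :
    ∃ (G : Gr S T) (f : L.N → G.N),
      ∀ B c w, G.Gen (f B) c w ↔ ∃ h, L.Der h c [.inr (B, none)] w := by
  refine ⟨L.toGr, fun B => .inl ⟨[.inr (B, none)], le_max_right _ _⟩, fun B c w => ⟨fun H => ?_,
    fun ⟨h, H⟩ => ?_⟩⟩
  · exact L.sem_of_gen H
  · exact L.gen_of_der H _

end LGr

end Pool.Agent.Lib.LinSpace.Ho
end
end
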